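import Pool.Agent.Lib.GradedTop.Lie

namespace GradedTop

open IsLocalRing Submodule

section

variable {R : Type} [CommRing R] {d : ℕ}

lemma exists_T {I I' : Type} [Fintype I] [Fintype I'] (b : I → FreeLieAlgebra R (Fin d))
    (b' : I' → FreeLieAlgebra R (Fin d)) (hinj : Function.Injective (lc b'))
    (hrange : ∀ (j : Fin d) (v : I → R), brk j (lc b v) ∈ LinearMap.range (lc b')) :
    ∃ T : Fin d → (I → R) →ₗ[R] (I' → R), ∀ j v, lc b' (T j v) = brk j (lc b v) := by
  refine ⟨fun j => ((LinearEquiv.ofInjective (lc b') hinj).symm :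
    LinearMap.range (lc b') →ₗ[R] (I' → R)) ∘ₗ
      ((brk j ∘ₗ lc b).codRestrict (LinearMap.range (lc b')) (hrange j)), ?_⟩
  intro j v
  have h := (LinearEquiv.ofInjective (lc b') hinj).apply_symm_apply
    ((brk j ∘ₗ lc b).codRestrict (LinearMap.range (lc b')) (hrange j) v)
  exact congrArg Subtype.val h

/-- scaling automorphism of the free Lie algebra -/
noncomputable def scal (w : Fin d → ℕ) (u : Rˣ) :
    FreeLieAlgebra R (Fin d) →ₗ⁅R⁆ FreeLieAlgebra R (Fin d) :=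
  FreeLieAlgebra.lift R (fun i => ((u ^ w i : Rˣ) : R) • FreeLieAlgebra.of R i)

lemma scal_of (w : Fin d → ℕ) (u : Rˣ) (i : Fin d) :
    scal w u (FreeLieAlgebra.of R i) = ((u ^ w i : Rˣ) : R) • FreeLieAlgebra.of R i := by
  rw [scal, FreeLieAlgebra.lift_of_apply]

lemma scal_lc (w : Fin d → ℕ) (u : Rˣ) {I : Type} [Fintype I] (b : I → FreeLieAlgebra R (Fin d))
    (w' : I → ℕ) (h : ∀ p, scal w u (b p) = ((u ^ w' p : Rˣ) : R) • b p) (v : I → R) :
    scal w u (lc b v) = lc b (dg w' u v) := by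
  rw [lc_apply, lc_apply, map_sum]
  refine Finset.sum_congr rfl fun p _ => ?_
  rw [map_smul, h, dg_apply, smul_smul, mul_comm]

lemma scal_compat (w : Fin d → ℕ) (u : Rˣ) {I I' : Type} [Fintype I] [Fintype I']
    (b : I → FreeLieAlgebra R (Fin d)) (b' : I' → FreeLieAlgebra R (Fin d))
    (hinj : Function.Injective (lc b')) (w1 : I → ℕ) (w2 : I' → ℕ)
    (h1 : ∀ p, scal w u (b p) = ((u ^ w1 p : Rˣ) : R) • b p)
    (h2 : ∀ p, scal w u (b' p) = ((u ^ w2 p : Rˣ) : R) • b' p)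
    (T : Fin d → (I → R) →ₗ[R] (I' → R)) (hT : ∀ j v, lc b' (T j v) = brk j (lc b v))
    (j : Fin d) (v : I → R) :
    ((u ^ w j : Rˣ) : R) • T j (dg w1 u v) = dg w2 u (T j v) := by
  apply hinj
  rw [map_smul, hT, ← scal_lc w u b w1 h1, ← scal_lc w u b' w2 h2, hT, brk_apply, brk_apply,
    LieHom.map_lie, scal_of, lie_smul]

/-- weights -/
def wt1 (i : Fin d) : ℕ := 2 ^ (i : ℕ)
/-- weights -/
def wt2 (p : J2 d) : ℕ := 2 ^ (p.1.1 : ℕ) + 2 ^ (p.1.2 : ℕ)
/-- weights -/
def wt3 (p : J3 d) : ℕ := 2 ^ (p.1.1 : ℕ) + 2 ^ (p.1.2.2 : ℕ) + 2 ^ (p.1.2.1 : ℕ)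

lemma scal_b1 (u : Rˣ) (p : Fin d) : scal wt1 u (b1 R d p) = ((u ^ wt1 p : Rˣ) : R) • b1 R d p :=
  scal_of _ _ _

lemma scal_b2 (u : Rˣ) (p : J2 d) : scal wt1 u (b2 R d p) = ((u ^ wt2 p : Rˣ) : R) • b2 R d p := by
  rw [b2, LieHom.map_lie, scal_of, scal_of, smul_lie, lie_smul, smul_smul, ← Units.val_mul,
    ← pow_add]
  rfl

lemma scal_b3 (u : Rˣ) (p : J3 d) : scal wt1 u (b3 R d p) = ((u ^ wt3 p : Rˣ) : R) • b3 R d p := by
  rw [b3, LieHom.map_lie, LieHom.map_lie, scal_of, scal_of, scal_of, smul_lie, smul_lie, lie_smul,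
    lie_smul, smul_lie, smul_smul, smul_smul, ← Units.val_mul, ← Units.val_mul,
    ← pow_add, ← pow_add]
  rfl

lemma wt1_injective : Function.Injective (wt1 (d := d)) := by
  intro i j h
  exact Fin.ext (Nat.pow_right_injective le_rfl h)

lemma wt2_injective : Function.Injective (wt2 (d := d)) := by
  have key : ∀ i j i' j' : ℕ, j < i → j' < i' → 2 ^ i + 2 ^ j = 2 ^ i' + 2 ^ j' → i ≤ i' := by
    intro i j i' j' h h' he
    by_contra hcon
    push Not at hcon
    have h1 : 2 ^ (i' + 1) ≤ 2 ^ i := Nat.pow_le_pow_right (by norm_num) hcon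
    have h2 : 2 ^ j' < 2 ^ i' := Nat.pow_lt_pow_right (by norm_num) h'
    have h3 : 0 < 2 ^ j := by positivity
    rw [pow_succ] at h1
    omega
  rintro ⟨⟨i, j⟩, h⟩ ⟨⟨i', j'⟩, h'⟩ he
  have he : 2 ^ (i : ℕ) + 2 ^ (j : ℕ) = 2 ^ (i' : ℕ) + 2 ^ (j' : ℕ) := he
  have h1 : (i : ℕ) = i' := le_antisymm (key _ _ _ _ h h' he) (key _ _ _ _ h' h he.symm)
  have h2 : (j : ℕ) = j' := by
    rw [h1] at he
    exact Nat.pow_right_injective le_rfl (Nat.add_left_cancel he)
  have h1' : i = i' := Fin.ext h1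
  have h2' : j = j' := Fin.ext h2
  subst h1'; subst h2'
  rfl

lemma relIndex_comap_lc {I : Type} [Fintype I] (b : I → FreeLieAlgebra R (Fin d))
    (Λ : Submodule R (FreeLieAlgebra R (Fin d))) :
    Λ.toAddSubgroup.relIndex (LinearMap.range (lc b)).toAddSubgroup =
      cardQuot (Λ.comap (lc b)) := by
  have h1 := AddSubgroup.relIndex_comap Λ.toAddSubgroup ((lc b : (I → R) →ₗ[R]
    FreeLieAlgebra R (Fin d)) : (I → R) →+ FreeLieAlgebra R (Fin d)) ⊤
  rw [AddSubgroup.relIndex_top_right] at h1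
  have h2 : AddSubgroup.map ((lc b : (I → R) →ₗ[R]
    FreeLieAlgebra R (Fin d)) : (I → R) →+ FreeLieAlgebra R (Fin d)) ⊤ =
      (LinearMap.range (lc b)).toAddSubgroup := by
    ext x
    simp [LinearMap.mem_range]
  rw [h2] at h1
  rw [← h1]
  rfl

lemma bracket_cond {I I' : Type} [Fintype I] [Fintype I'] (b : I → FreeLieAlgebra R (Fin d))
    (b' : I' → FreeLieAlgebra R (Fin d))
    (T : Fin d → (I → R) →ₗ[R] (I' → R)) (hT : ∀ j v, lc b' (T j v) = brk j (lc b v))
    (Λ Λ' : Submodule R (FreeLieAlgebra R (Fin d))) (hΛ : Λ ≤ LinearMap.range (lc b)) :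
    (∀ u ∈ Λ, ∀ v ∈ comp R d 1, ⁅u, v⁆ ∈ Λ') ↔
      ∀ j, (Λ.comap (lc b)).map (T j) ≤ Λ'.comap (lc b') := by
  constructor
  · intro h j
    rw [Submodule.map_le_iff_le_comap]
    intro v hv
    rw [Submodule.mem_comap, Submodule.mem_comap, hT]
    exact h _ hv _ (Submodule.subset_span ⟨j, rfl⟩)
  · intro h u hu v hv
    obtain ⟨x, rfl⟩ := hΛ hu
    rw [comp_one] at hv
    obtain ⟨y, rfl⟩ := hv
    rw [lc_apply (b1 R d), lie_sum]
    refine Λ'.sum_mem fun j _ => ?_
    rw [lie_smul]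
    refine Λ'.smul_mem _ ?_
    have h1 := h j ⟨x, hu, rfl⟩
    rw [Submodule.mem_comap, hT] at h1
    exact h1

variable (R d)

theorem exists_lieSys : ∃ S : Sys R d (Fin d) (J2 d) (J3 d), S.w1 = wt1 ∧ S.w2 = wt2 ∧
    ∀ n : ℕ, n ≠ 0 → numIdeals R 3 d n = Nat.card {N // S.P n N} := by
  obtain ⟨T1, hT1⟩ := exists_T (b1 R d) (b2 R d) b2_injective (by
    intro j v
    rw [← comp_two, comp_succ 0, comp_one]
    exact Submodule.mem_iSup_of_mem j ⟨_, ⟨v, rfl⟩, rfl⟩)
  obtain ⟨T2, hT2⟩ := exists_T (b2 R d) (b3 R d) b3_injective (by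
    intro j v
    rw [← comp_three, comp_succ 1, comp_two]
    exact Submodule.mem_iSup_of_mem j ⟨_, ⟨v, rfl⟩, rfl⟩)
  have htop : ⨆ j, LinearMap.range (T2 j) = ⊤ := by
    apply Submodule.map_injective_of_injective (f := lc (b3 R d)) b3_injective
    rw [Submodule.map_top, ← comp_three, comp_succ 1, comp_two, Submodule.map_iSup]
    refine iSup_congr fun j => ?_
    apply le_antisymm
    · rintro _ ⟨_, ⟨v, rfl⟩, rfl⟩
      rw [hT2]
      exact ⟨_, ⟨v, rfl⟩, rfl⟩
    · rintro _ ⟨_, ⟨v, rfl⟩, rfl⟩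
      rw [← hT2]
      exact ⟨_, ⟨v, rfl⟩, rfl⟩
  let S : Sys R d (Fin d) (J2 d) (J3 d) :=
    { T1 := T1, T2 := T2, w0 := wt1, w1 := wt1, w2 := wt2, w3 := wt3,
      c1 := fun j u v => scal_compat wt1 u (b1 R d) (b2 R d) b2_injective wt1 wt2
        (scal_b1 u) (scal_b2 u) T1 hT1 j v
      c2 := fun j u v => scal_compat wt1 u (b2 R d) (b3 R d) b3_injective wt2 wt3
        (scal_b2 u) (scal_b3 u) T2 hT2 j v
      top := htop, inj1 := wt1_injective, inj2 := wt2_injective }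
  refine ⟨S, rfl, rfl, ?_⟩
  · intro n hn
    have hc1 : ∀ Λ : Submodule R (FreeLieAlgebra R (Fin d)), Λ ≤ comp R d 1 →
        (Λ.comap (lc (b1 R d))).map (lc (b1 R d)) = Λ := by
      intro Λ h; rw [Submodule.map_comap_eq, inf_eq_right.2]; rwa [comp_one] at h
    have hc2 : ∀ Λ : Submodule R (FreeLieAlgebra R (Fin d)), Λ ≤ comp R d 2 →
        (Λ.comap (lc (b2 R d))).map (lc (b2 R d)) = Λ := by
      intro Λ h; rw [Submodule.map_comap_eq, inf_eq_right.2]; rwa [comp_two] at h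
    have hc3 : ∀ Λ : Submodule R (FreeLieAlgebra R (Fin d)), Λ ≤ comp R d 3 →
        (Λ.comap (lc (b3 R d))).map (lc (b3 R d)) = Λ := by
      intro Λ h; rw [Submodule.map_comap_eq, inf_eq_right.2]; rwa [comp_three] at h
    have key : ∀ Λ : Fin 3 → Submodule R (FreeLieAlgebra R (Fin d)),
        Λ 0 ≤ comp R d 1 → Λ 1 ≤ comp R d 2 → Λ 2 ≤ comp R d 3 →
        ((IsGradedIdeal R 3 d Λ ∧ idx R 3 d Λ = n) ↔
          S.P n ((Λ 0).comap (lc (b1 R d)), (Λ 1).comap (lc (b2 R d)),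
            (Λ 2).comap (lc (b3 R d)))) := by
      intro Λ h0 h1 h2
      have e0 : (Λ 0).toAddSubgroup.relIndex (comp R d 1).toAddSubgroup =
        cardQuot ((Λ 0).comap (lc (b1 R d))) := by rw [comp_one, relIndex_comap_lc]
      have e1 : (Λ 1).toAddSubgroup.relIndex (comp R d 2).toAddSubgroup =
        cardQuot ((Λ 1).comap (lc (b2 R d))) := by rw [comp_two, relIndex_comap_lc]
      have e2 : (Λ 2).toAddSubgroup.relIndex (comp R d 3).toAddSubgroup =
        cardQuot ((Λ 2).comap (lc (b3 R d))) := by rw [comp_three, relIndex_comap_lc]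
      have eidx : idx R 3 d Λ = cardQuot ((Λ 0).comap (lc (b1 R d))) *
          (cardQuot ((Λ 1).comap (lc (b2 R d))) * cardQuot ((Λ 2).comap (lc (b3 R d)))) := by
        rw [idx, Fin.prod_univ_three, ← e0, ← e1, ← e2, ← mul_assoc]
        rfl
      have b01 := bracket_cond (b1 R d) (b2 R d) T1 hT1 (Λ 0) (Λ 1) (by rwa [comp_one] at h0)
      have b12 := bracket_cond (b2 R d) (b3 R d) T2 hT2 (Λ 1) (Λ 2) (by rwa [comp_two] at h1)
      constructor
      · rintro ⟨hI, hn'⟩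
        refine ⟨b01.1 (hI.lie 0 1 rfl), b12.1 (hI.lie 1 2 rfl), ?_⟩
        rw [← hn', eidx]
      · rintro ⟨p1, p2, p3⟩
        change cardQuot ((Λ 0).comap (lc (b1 R d))) *
          (cardQuot ((Λ 1).comap (lc (b2 R d))) * cardQuot ((Λ 2).comap (lc (b3 R d)))) = n at p3
        refine ⟨⟨?_, ?_, ?_⟩, by rw [eidx, p3]⟩
        · intro i
          fin_cases i
          · exact h0
          · exact h1
          · exact h2
        · intro i h
          apply hn
          rw [← p3]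
          fin_cases i
          · have : cardQuot ((Λ 0).comap (lc (b1 R d))) = 0 := by rw [← e0]; exact h
            rw [this]; simp
          · have : cardQuot ((Λ 1).comap (lc (b2 R d))) = 0 := by rw [← e1]; exact h
            rw [this]; simp
          · have : cardQuot ((Λ 2).comap (lc (b3 R d))) = 0 := by rw [← e2]; exact h
            rw [this]; simp
        · intro i j hij
          have hi3 := i.2
          have hj3 := j.2
          have hcase : (i = 0 ∧ j = 1) ∨ (i = 1 ∧ j = 2) := by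
            rcases i with ⟨i, hi⟩
            rcases j with ⟨j, hj⟩
            simp only at hij
            have : i = 0 ∨ i = 1 := by omega
            rcases this with h | h
            · left; subst h; subst hij; exact ⟨rfl, rfl⟩
            · right; subst h; subst hij; exact ⟨rfl, rfl⟩
          rcases hcase with ⟨rfl, rfl⟩ | ⟨rfl, rfl⟩
          · exact b01.2 p1
          · exact b12.2 p2
    unfold numIdeals
    refine Nat.card_congr (Equiv.ofBijective (fun Λ => ⟨((Λ.1 0).comap (lc (b1 R d)),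
      (Λ.1 1).comap (lc (b2 R d)), (Λ.1 2).comap (lc (b3 R d))),
      (key Λ.1 (Λ.2.1.le 0) (Λ.2.1.le 1) (Λ.2.1.le 2)).1 Λ.2⟩) ⟨?_, ?_⟩)
    · intro Λ Λ' h
      have h' := congrArg Subtype.val h
      simp only [Prod.mk.injEq] at h'
      obtain ⟨g0, g1, g2⟩ := h'
      apply Subtype.ext
      funext i
      fin_cases i
      · have := congrArg (Submodule.map (lc (b1 R d))) g0
        rwa [hc1 _ (Λ.2.1.le 0), hc1 _ (Λ'.2.1.le 0)] at this
      · have := congrArg (Submodule.map (lc (b2 R d))) g1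
        rwa [hc2 _ (Λ.2.1.le 1), hc2 _ (Λ'.2.1.le 1)] at this
      · have := congrArg (Submodule.map (lc (b3 R d))) g2
        rwa [hc3 _ (Λ.2.1.le 2), hc3 _ (Λ'.2.1.le 2)] at this
    · rintro ⟨⟨N1, N2, N3⟩, hN⟩
      have g1 : (N1.map (lc (b1 R d))).comap (lc (b1 R d)) = N1 :=
        Submodule.comap_map_eq_of_injective b1_injective N1
      have g2 : (N2.map (lc (b2 R d))).comap (lc (b2 R d)) = N2 :=
        Submodule.comap_map_eq_of_injective b2_injective N2
      have g3 : (N3.map (lc (b3 R d))).comap (lc (b3 R d)) = N3 :=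
        Submodule.comap_map_eq_of_injective b3_injective N3
      set Λ : Fin 3 → Submodule R (FreeLieAlgebra R (Fin d)) :=
        ![N1.map (lc (b1 R d)), N2.map (lc (b2 R d)), N3.map (lc (b3 R d))] with hΛ
      have l0 : Λ 0 ≤ comp R d 1 := by rw [comp_one]; exact LinearMap.map_le_range
      have l1 : Λ 1 ≤ comp R d 2 := by rw [comp_two]; exact LinearMap.map_le_range
      have l2 : Λ 2 ≤ comp R d 3 := by rw [comp_three]; exact LinearMap.map_le_range
      have heq : ((Λ 0).comap (lc (b1 R d)), (Λ 1).comap (lc (b2 R d)),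
          (Λ 2).comap (lc (b3 R d))) = (N1, N2, N3) := by
        refine Prod.ext g1 (Prod.ext g2 g3)
      refine ⟨⟨Λ, (key Λ l0 l1 l2).2 (by rw [heq]; exact hN)⟩, ?_⟩
      apply Subtype.ext
      exact heq

end

end GradedTop
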