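import Pool.Agent.Lib.GradedTop.Series

namespace GradedTop

open Filter Topology Polynomial

lemma exists_common {α : Type*} : ∀ (m : ℕ) (P : Fin m → List α),
    ∃ J : List α, (∀ x ∈ J, ∃ i, x ∈ P i) ∧ ∀ i, ∃ L, J.Perm (P i ++ L)
  | 0, _ => ⟨[], by simp, fun i => i.elim0⟩
  | m + 1, P => by
    obtain ⟨J, h1, h2⟩ := exists_common m (fun i => P i.succ)
    refine ⟨P 0 ++ J, ?_, ?_⟩
    · intro x hx
      rcases List.mem_append.1 hx with h | h
      · exact ⟨0, h⟩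
      · obtain ⟨i, hi⟩ := h1 x h
        exact ⟨i.succ, hi⟩
    · intro i
      refine Fin.cases ⟨J, List.Perm.refl _⟩ (fun j => ?_) i
      obtain ⟨L, hL⟩ := h2 j
      refine ⟨P 0 ++ L, ?_⟩
      calc (P 0 ++ J).Perm (P 0 ++ (P j.succ ++ L)) := hL.append_left _
        _ = ((P 0 ++ P j.succ) ++ L) := by rw [List.append_assoc]
        List.Perm _ ((P j.succ ++ P 0) ++ L) := List.perm_append_comm.append_right _
        _ = (P j.succ ++ (P 0 ++ L)) := by rw [List.append_assoc]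

lemma exists_bound (l : List (ℤ × ℕ)) : ∃ S : ℕ, ∀ ab ∈ l, ab.1.natAbs < S := by
  induction l with
  | nil => exact ⟨0, by simp⟩
  | cons a l ih =>
    obtain ⟨S, hS⟩ := ih
    refine ⟨S + a.1.natAbs + 1, ?_⟩
    intro ab hab
    rcases List.mem_cons.1 hab with h | h
    · subst h; omega
    · have := hS ab h; omega

lemma large_ne (t : Term) (S : ℕ) (hS : ∀ ab ∈ t.den, ab.1.natAbs < S) (s : ℕ) (hs : S ≤ s) :
    ∀ ab ∈ t.den, ab.1 - (ab.2 : ℤ) * s ≠ 0 := by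
  intro ab hab h
  have h1 := hS ab hab
  rcases Nat.eq_zero_or_pos ab.2 with h2 | h2
  · have h3 : ab.1 = 0 := by rw [h2] at h; simpa using h
    exact t.den_ne ab hab (Prod.ext h3 h2)
  · have h3 : (s : ℤ) ≤ (ab.2 : ℤ) * s := by
      have : (1 : ℤ) ≤ ab.2 := by exact_mod_cast h2
      nlinarith
    omega

lemma zpow_ne_one_K {K : Type} [Field K] [Algebra ℚ K] (q : ℕ) (hq : 2 ≤ q) (m : ℤ) (hm : m ≠ 0) :
    (q : K) ^ m ≠ 1 := by
  intro h
  have h1 : algebraMap ℚ K ((q : ℚ) ^ m) = algebraMap ℚ K 1 := by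
    rw [map_zpow₀, map_natCast, map_one, h]
  have h2 := (algebraMap ℚ K).injective h1
  have h3 : (1 : ℚ) < q := by exact_mod_cast (by omega : 1 < q)
  exact hm ((zpow_eq_one_iff_right₀ (by positivity) h3.ne').1 h2)

lemma pos_eval_ne (t : Term) {K : Type} [Field K] [Algebra ℚ K] (q : ℕ) (hq : 2 ≤ q) (s : ℕ)
    (hs : ∀ ab ∈ t.den, ab.1 - (ab.2 : ℤ) * s ≠ 0) :
    (DP (pos t) (q : K)).eval ((q : K) ^ (-(s : ℤ))) ≠ 0 := by
  rw [DP_eval, Ne, List.prod_eq_zero_iff, List.mem_map]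
  rintro ⟨ab, hab, h⟩
  have hq0 : (q : K) ≠ 0 := by
    have : algebraMap ℚ K (q : ℚ) ≠ 0 := by
      rw [Ne, map_eq_zero]; positivity
    rwa [map_natCast] at this
  rw [← zpow_natCast ((q : K) ^ (-(s : ℤ))), ← zpow_mul, ← zpow_add₀ hq0, sub_eq_zero] at h
  have h1 := hs ab (mem_pos.1 hab).1
  refine zpow_ne_one_K (K := K) q hq _ ?_ h.symm
  intro h2
  apply h1
  rw [← h2]; ring

theorem assemble {m : ℕ} (t : Fin m → Term) (χ : Fin m → ℤ) (r : ℤ) (Z : RatFunc ℚ) (s₀ : ℕ)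
    (hreal : ∀ s : ℕ, s₀ ≤ s → ∃ z : Fin m → ℝ,
      (∀ i, Tendsto (fun q : ℝ => (q - 1) ^ r * (t i).val q (q ^ (-(s : ℤ))))
        (𝓝[>] 1) (𝓝 (z i))) ∧
      ((Z.eval (RingHom.id ℚ) (s : ℚ) : ℚ) : ℝ) = ∑ i, (χ i : ℝ) * z i) :
    ∃ (J : List (ℤ × ℕ)) (L : Fin m → List (ℤ × ℕ)) (s₁ : ℕ), (∀ ab ∈ J, 1 ≤ ab.2) ∧
      (∀ i, J.Perm (pos (t i) ++ L i)) ∧
      ∀ (K : Type) [NontriviallyNormedField K] [Algebra ℚ K] (U : Filter ℕ) (q : ℕ → ℕ),
        (∀ N, 2 ≤ q N) → Tendsto (fun N => (q N : K)) U (𝓝 1) →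
        ∀ (n : Fin m → ℕ → ℤ), (∀ i, Tendsto (fun N => (n i N : K)) U (𝓝 (χ i : K))) →
        ∀ s : ℕ, s₁ ≤ s → Tendsto (fun N => ((q N : K) - 1) ^ (r - (J.length : ℤ)) *
          (∑ i, C ((n i N : ℤ) : K) * QT (t i) (L i) (q N : K)).eval ((q N : K) ^ (-(s : ℤ)))) U
          (𝓝 (algebraMap ℚ K ((Del J).eval (s : ℚ) * Z.eval (RingHom.id ℚ) (s : ℚ)))) := by
  obtain ⟨J, hJ1, hJ2⟩ := exists_common m (fun i => pos (t i))
  choose L hL using hJ2
  have hb : ∀ i, ∃ S : ℕ, ∀ ab ∈ (t i).den, ab.1.natAbs < S := fun i => exists_bound _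
  choose S hS using hb
  refine ⟨J, L, s₀ + ∑ i, S i, ?_, hL, ?_⟩
  · intro ab hab
    obtain ⟨i, hi⟩ := hJ1 ab hab
    exact (mem_pos.1 hi).2
  intro K _ _ U q hq2 hq1 n hn s hs
  have hSs : ∀ i, S i ≤ s := by
    intro i
    have : S i ≤ ∑ j, S j := Finset.single_le_sum (fun _ _ => Nat.zero_le _) (Finset.mem_univ i)
    omega
  have hlarge : ∀ i, ∀ ab ∈ (t i).den, ab.1 - (ab.2 : ℤ) * s ≠ 0 :=
    fun i => large_ne (t i) (S i) (hS i) s (hSs i)
  obtain ⟨z, hz1, hz2⟩ := hreal s (by omega)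
  have hq1' : Tendsto (fun N => (q N : K)) U (𝓝[≠] 1) := by
    rw [tendsto_nhdsWithin_iff]
    refine ⟨hq1, Eventually.of_forall fun N => ?_⟩
    have := zpow_ne_one_K (K := K) (q N) (hq2 N) 1 one_ne_zero
    rwa [zpow_one] at this
  -- rational limits
  have hw : ∀ i, ∃ w : ℚ, z i = w ∧
      Tendsto (fun N => ((q N : K) - 1) ^ r * (t i).val (q N : K) ((q N : K) ^ (-(s : ℤ)))) U
        (𝓝 (algebraMap ℚ K w)) := by
    intro i
    obtain ⟨N, D, hD, hval⟩ := val_ratio (t i) s (hlarge i)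
    have h1 : Tendsto (fun x : ℝ => (x - 1) ^ r * (aeval x N / aeval x D)) (𝓝[>] 1) (𝓝 (z i)) := by
      refine (hz1 i).congr' ?_
      have : ∀ᶠ x : ℝ in 𝓝[>] 1, 1 < x := eventually_nhdsWithin_of_forall fun x hx => hx
      filter_upwards [this] with x hx
      rw [hval ℝ x (by positivity)]
    obtain ⟨w, hw1, hw2⟩ := transfer r N D hD (z i) h1
    refine ⟨w, hw1, ?_⟩
    refine ((hw2 K).comp hq1').congr fun k => ?_
    have hq0 : (q k : K) ≠ 0 := by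
      have : algebraMap ℚ K (q k : ℚ) ≠ 0 := by
        rw [Ne, map_eq_zero]; have := hq2 k; positivity
      rwa [map_natCast] at this
    rw [Function.comp_apply, hval K _ hq0]
  choose w hw1 hw2 using hw
  have hZ : Z.eval (RingHom.id ℚ) (s : ℚ) = ∑ i, (χ i : ℚ) * w i := by
    have : ((Z.eval (RingHom.id ℚ) (s : ℚ) : ℚ) : ℝ) = ((∑ i, (χ i : ℚ) * w i : ℚ) : ℝ) := by
      rw [hz2]; push_cast
      exact Finset.sum_congr rfl fun i _ => by rw [hw1 i]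
    exact_mod_cast this
  have hterm : ∀ i, Tendsto (fun N => (n i N : K) * ((((q N : K) - 1) ^ (-(J.length : ℤ)) *
      (DP J (q N : K)).eval ((q N : K) ^ (-(s : ℤ)))) *
      (((q N : K) - 1) ^ r * (t i).val (q N : K) ((q N : K) ^ (-(s : ℤ)))))) U
      (𝓝 ((χ i : K) * (algebraMap ℚ K ((Del J).eval (s : ℚ)) * algebraMap ℚ K (w i)))) := by
    intro i
    exact (hn i).mul (((DP_tendsto J s).comp hq1').mul (hw2 i))
  have hsum := tendsto_finsetSum Finset.univ (fun i _ => hterm i)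
  have hlim : (∑ i, (χ i : K) * (algebraMap ℚ K ((Del J).eval (s : ℚ)) * algebraMap ℚ K (w i))) =
      algebraMap ℚ K ((Del J).eval (s : ℚ) * Z.eval (RingHom.id ℚ) (s : ℚ)) := by
    rw [hZ, Finset.mul_sum, map_sum]
    refine Finset.sum_congr rfl fun i _ => ?_
    rw [map_mul, map_mul, map_intCast]; ring
  rw [hlim] at hsum
  refine hsum.congr fun N => ?_
  have hne : (q N : K) - 1 ≠ 0 := by
    have := zpow_ne_one_K (K := K) (q N) (hq2 N) 1 one_ne_zero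
    rw [zpow_one] at this
    exact sub_ne_zero.2 this
  rw [eval_finsetSum, Finset.mul_sum]
  refine Finset.sum_congr rfl fun i _ => ?_
  rw [eval_mul, eval_C, QT_eval (t i) J (L i) (hL i) (q N : K) _
    (pos_eval_ne (t i) (q N) (hq2 N) s (hlarge i))]
  have h5 : ((q N : K) - 1) ^ (r - (J.length : ℤ)) =
      ((q N : K) - 1) ^ r * ((q N : K) - 1) ^ (-(J.length : ℤ)) := by
    rw [← zpow_add₀ hne, ← sub_eq_add_neg]
  rw [h5]
  ring

end GradedTop
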