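import Pool.Agent.Lib.GradedTop.Split

namespace GradedTop

open IsLocalRing Submodule

section Count

variable {R : Type} [CommRing R]

/-- Powers of `u` are separated modulo the maximal ideal up to exponent `W`. -/
def Sep (u : Rˣ) (W : ℕ) : Prop := ∀ j : ℕ, 0 < j → j < W → IsUnit (((u ^ j : Rˣ) : R) - 1)

lemma Sep.isUnit_sub {u : Rˣ} {W : ℕ} (h : Sep u W) {ι : Type} (w : ι → ℕ)
    (hinj : Function.Injective w) (hW : ∀ i, w i < W) (i j : ι) (hij : i ≠ j) :
    IsUnit (((u ^ w i : Rˣ) : R) - ((u ^ w j : Rˣ) : R)) := by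
  have key : ∀ a b : ℕ, a < b → b < W → IsUnit (((u ^ b : Rˣ) : R) - ((u ^ a : Rˣ) : R)) := by
    intro a b hab hb
    obtain ⟨c, rfl⟩ := Nat.exists_eq_add_of_lt hab
    have h1 := h (c + 1) (by omega) (by omega)
    have h2 : ((u ^ (a + c + 1) : Rˣ) : R) - ((u ^ a : Rˣ) : R) =
        ((u ^ a : Rˣ) : R) * (((u ^ (c + 1) : Rˣ) : R) - 1) := by
      rw [add_assoc, pow_add, Units.val_mul]; ring
    rw [h2]
    exact (Units.isUnit _).mul h1
  rcases lt_or_gt_of_ne (hinj.ne hij) with h1 | h1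
  · have := key _ _ h1 (hW j)
    rw [← neg_sub]; exact this.neg
  · exact key _ _ h1 (hW i)

variable [IsDomain R] [IsDiscreteValuationRing R] [CharZero R] [Finite (ResidueField R)]
variable {ι : Type} [Fintype ι] [DecidableEq ι]

lemma count_super_std {ϖ : R} (hϖ : Irreducible ϖ) (ε : ι → ℕ) (m : ℕ) (u : Rˣ) (ℓ : ℕ)
    (hℓ : ℓ.Prime) (e κ : ℕ) (hu : u ^ (ℓ ^ e) = 1) (hsep : Sep (u ^ (ℓ ^ κ)) (Fintype.card ι)) :
    Nat.card {N : Submodule R (ι → R) // stdLat ϖ ε ≤ N ∧ cardQuot N = resCard R ^ m} ≡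
      Nat.card {E : ι → ℕ // E ≤ ε ∧ ∑ i, E i = m} [MOD ℓ ^ (κ + 1)] := by
  have hfin : Finite {N : Submodule R (ι → R) // stdLat ϖ ε ≤ N ∧ cardQuot N = resCard R ^ m} := by
    have := finite_ge (ι := ι) hϖ ε
    exact Finite.of_injective
      (fun N : {N : Submodule R (ι → R) // stdLat ϖ ε ≤ N ∧ cardQuot N = resCard R ^ m} =>
        (⟨N.1, N.2.1⟩ : {N : Submodule R (ι → R) // stdLat ϖ ε ≤ N}))
      (fun N N' h => Subtype.ext (congrArg
        (fun z : {N : Submodule R (ι → R) // stdLat ϖ ε ≤ N} => z.1) h))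
  set w : ι → ℕ := fun i => (Fintype.equivFin ι i : ℕ) with hw
  have hwinj : Function.Injective w := fun i j hij =>
    (Fintype.equivFin ι).injective (Fin.ext hij)
  have hwlt : ∀ i, w i < Fintype.card ι := fun i => (Fintype.equivFin ι i).2
  have h1 := card_modEq_act (lact w) (fun N : Submodule R (ι → R) =>
    stdLat ϖ ε ≤ N ∧ cardQuot N = resCard R ^ m) (by
      rintro g N ⟨h1, h2⟩
      refine ⟨?_, by rw [cardQuot_lact]; exact h2⟩
      rw [← lact_stdLat w g ϖ ε]
      exact Submodule.map_mono h1) u ℓ hℓ e κ hu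
  refine h1.trans ?_
  have h2 : Nat.card {E : ι → ℕ // E ≤ ε ∧ ∑ i, E i = m} =
      Nat.card {N : Submodule R (ι → R) // (stdLat ϖ ε ≤ N ∧ cardQuot N = resCard R ^ m) ∧
        lact w (u ^ ℓ ^ κ) N = N} := by
    refine Nat.card_congr (Equiv.ofBijective (fun E => ⟨stdLat ϖ E.1,
      ⟨(stdLat_le_iff hϖ _ _).2 E.2.1, by rw [cardQuot_stdLat hϖ, E.2.2]⟩, lact_stdLat _ _ _ _⟩)
      ⟨?_, ?_⟩)
    · intro E E' h
      apply Subtype.ext
      apply stdLat_injective hϖ
      exact congrArg Subtype.val h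
    · rintro ⟨N, ⟨h3, h4⟩, h5⟩
      have hq := resCard_pos (R := R)
      have h6 : cardQuot N ≠ 0 := by rw [h4]; positivity
      obtain ⟨E, hE⟩ := exists_stdLat hϖ N h6 (fun v hv i =>
        stable_single N w (u ^ ℓ ^ κ) h5 (hsep.isUnit_sub w hwinj hwlt) v hv i)
      subst hE
      refine ⟨⟨E, (stdLat_le_iff hϖ _ _).1 h3, ?_⟩, rfl⟩
      rw [cardQuot_stdLat hϖ] at h4
      exact Nat.pow_right_injective hq h4
  rw [h2]

/-- Smith normal form of a lattice of finite index. -/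
lemma exists_smith {ϖ : R} (hϖ : Irreducible ϖ) (L : Submodule R (ι → R)) (hL : cardQuot L ≠ 0) :
    ∃ (g : (ι → R) ≃ₗ[R] (ι → R)) (ε : ι → ℕ),
      L.map (g : (ι → R) →ₗ[R] (ι → R)) = stdLat ϖ ε ∧
      ∀ M : ℕ, (∀ v ∈ L, ∀ i, ϖ ^ M ∣ v i) → ∀ i, M ≤ ε i := by
  have hL' : ((cardQuot L : ℕ) : R) ≠ 0 := by exact_mod_cast hL
  have hrank : Module.finrank R L = Module.finrank R (ι → R) := by
    apply le_antisymm (Submodule.finrank_le L)
    let f : (ι → R) →ₗ[R] L :=
      LinearMap.codRestrict L (((cardQuot L : ℕ) : R) • LinearMap.id) (fun v => index_smul_mem L v)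
    apply LinearMap.finrank_le_finrank_of_injective (f := f)
    intro v v' h
    have h1 := congrArg Subtype.val h
    have h2 : ((cardQuot L : ℕ) : R) • v = ((cardQuot L : ℕ) : R) • v' := h1
    exact smul_right_injective _ hL' h2
  obtain ⟨b', a, ab', hab⟩ := Submodule.exists_smith_normal_form_of_rank_eq (Pi.basisFun R ι) hrank
  have ha0 : ∀ i, a i ≠ 0 := by
    intro i h0
    have h1 := hab i
    rw [h0, zero_smul] at h1
    exact ab'.ne_zero i (Subtype.ext h1)
  have ha : ∀ i, ∃ n : ℕ, Associated (a i) (ϖ ^ n) := fun i =>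
    IsDiscreteValuationRing.associated_pow_irreducible (ha0 i) hϖ
  choose ε hε using ha
  refine ⟨b'.equivFun, ε, ?_, ?_⟩
  · apply le_antisymm
    · rintro _ ⟨x, hx, rfl⟩
      rw [mem_stdLat]
      intro i
      refine (hε i).symm.dvd.trans ?_
      change a i ∣ b'.equivFun x i
      have h1 : x = ∑ j, (ab'.repr ⟨x, hx⟩ j) • (a j • b' j) := by
        have h2 := congrArg Subtype.val (ab'.sum_repr ⟨x, hx⟩)
        rw [AddSubmonoidClass.coe_finsetSum] at h2
        simp only [Submodule.coe_smul, hab] at h2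
        exact h2.symm
      rw [h1, map_sum, Finset.sum_apply]
      refine Finset.dvd_sum fun j _ => ?_
      rw [map_smul, map_smul, Pi.smul_apply, Pi.smul_apply, Module.Basis.equivFun_self]
      by_cases hij : i = j
      · subst hij; simp
      · simp [Ne.symm hij]
    · intro y hy
      rw [mem_stdLat] at hy
      have h1 : ∀ i, ∃ c, y i = a i * c := fun i => (hε i).dvd.trans (hy i)
      choose c hc using h1
      refine ⟨∑ i, c i • (a i • b' i), ?_, ?_⟩
      · refine L.sum_mem fun i _ => L.smul_mem _ ?_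
        rw [← hab i]; exact (ab' i).2
      · change b'.equivFun _ = y
        have h2 : ∑ i, c i • (a i • b' i) = ∑ i, y i • b' i := by
          refine Finset.sum_congr rfl fun i _ => ?_
          rw [smul_smul, hc i, mul_comm]
        rw [h2]
        exact b'.equivFun.apply_symm_apply y |> fun h => by
          rwa [Module.Basis.equivFun_symm_apply] at h
  · intro M hM i
    have h1 : a i • b' i ∈ L := by rw [← hab i]; exact (ab' i).2
    have h2 := hM _ h1
    choose c hc using h2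
    have h3 : a i • b' i = ϖ ^ M • c := by
      funext k; rw [hc k]; rfl
    have h4 := congrArg (fun x => b'.equivFun x i) h3
    simp only [map_smul, Pi.smul_apply, Module.Basis.equivFun_self, smul_eq_mul] at h4
    simp only [if_true, mul_one] at h4
    have h5 : ϖ ^ M ∣ ϖ ^ ε i := (Dvd.intro _ h4.symm).trans (hε i).dvd
    exact (pow_dvd_pow_iff hϖ.ne_zero hϖ.not_isUnit).1 h5

/-- Counting superlattices. -/
lemma count_super {ϖ : R} (hϖ : Irreducible ϖ) (L : Submodule R (ι → R)) (hL : cardQuot L ≠ 0) :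
    ∃ ε : ι → ℕ, (∀ M : ℕ, (∀ v ∈ L, ∀ i, ϖ ^ M ∣ v i) → ∀ i, M ≤ ε i) ∧
      ∀ (m : ℕ) (u : Rˣ) (ℓ : ℕ) (_ : ℓ.Prime) (e κ : ℕ) (_ : u ^ (ℓ ^ e) = 1)
        (_ : Sep (u ^ (ℓ ^ κ)) (Fintype.card ι)),
        Nat.card {N : Submodule R (ι → R) // L ≤ N ∧ cardQuot N = resCard R ^ m} ≡
          Nat.card {E : ι → ℕ // E ≤ ε ∧ ∑ i, E i = m} [MOD ℓ ^ (κ + 1)] := by
  obtain ⟨g, ε, h1, h2⟩ := exists_smith hϖ L hL
  refine ⟨ε, h2, ?_⟩
  intro m u ℓ hℓ e κ hu hsep
  have h3 : Nat.card {N : Submodule R (ι → R) // L ≤ N ∧ cardQuot N = resCard R ^ m} =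
      Nat.card {N : Submodule R (ι → R) // stdLat ϖ ε ≤ N ∧ cardQuot N = resCard R ^ m} := by
    refine Nat.card_congr ((Submodule.orderIsoMapComap g).toEquiv.subtypeEquiv fun N => ?_)
    change _ ↔ stdLat ϖ ε ≤ N.map (g : (ι → R) →ₗ[R] (ι → R)) ∧
      cardQuot (N.map (g : (ι → R) →ₗ[R] (ι → R))) = resCard R ^ m
    have h4 : cardQuot (N.map (g : (ι → R) →ₗ[R] (ι → R))) = cardQuot N := by
      rw [cardQuot_apply, cardQuot_apply]
      exact (Nat.card_congr (Submodule.Quotient.equiv N _ g rfl).toEquiv).symm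
    rw [h4, ← h1, Submodule.map_le_map_iff_of_injective g.injective]
  rw [h3]
  exact count_super_std hϖ ε m u ℓ hℓ e κ hu hsep

end Count

end GradedTop
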