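import Mathlib

/-!
# Graded ideal zeta functions of free nilpotent Lie rings and their topological versions

Definitions used in the statements about `MP_7f9cd3_al`.
-/

namespace GradedTop

open Filter Topology

/-- `comp R d n` is the homogeneous component of degree `n` of the free Lie algebra over `R` on `d`
generators `x_0, ..., x_{d-1}`: it is `0` for `n = 0`, the span of the generators for `n = 1`, and
the span of all brackets `[u, x_j]` with `u` of degree `n` in degree `n + 1`.
The free nilpotent Lie algebra `f_{c,d}` over `R` is the sum of these components for `1 ≤ n ≤ c`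
(all brackets of degree `> c` being zero). -/
noncomputable def comp (R : Type) [CommRing R] (d : ℕ) :
    ℕ → Submodule R (FreeLieAlgebra R (Fin d))
  | 0 => ⊥
  | 1 => Submodule.span R (Set.range (FreeLieAlgebra.of R))
  | n + 2 => Submodule.span R
      {z | ∃ u ∈ comp R d (n + 1), ∃ j : Fin d, z = ⁅u, FreeLieAlgebra.of R j⁆}

/-- The Witt function `W_d(i) = (1/i) ∑_{k ∣ i} μ(k) d^{i/k}`. -/
def witt (d i : ℕ) : ℤ :=
  (∑ k ∈ i.divisors, ArithmeticFunction.moebius k * (d : ℤ) ^ (i / k)) / (i : ℤ)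

/-- The rank `r = ∑_{i=1}^c W_d(i)` of `f_{c,d}`. -/
def rk (c d : ℕ) : ℤ := ∑ i ∈ Finset.Icc 1 c, witt d i

/-- A graded ideal of finite index of `f_{c,d}(R)`, given by its homogeneous components
`Λ 0, ..., Λ (c-1)` (`Λ i` has degree `i + 1`): each `Λ i` has finite index in the component of
degree `i + 1`, and `[Λ i, f^{(1)}] ⊆ Λ (i + 1)`. -/
structure IsGradedIdeal (R : Type) [CommRing R] (c d : ℕ)
    (Λ : Fin c → Submodule R (FreeLieAlgebra R (Fin d))) : Prop where
  le : ∀ i : Fin c, Λ i ≤ comp R d (i + 1)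
  fin : ∀ i : Fin c,
    (Λ i).toAddSubgroup.relIndex (comp R d (i + 1)).toAddSubgroup ≠ 0
  lie : ∀ i j : Fin c, (j : ℕ) = i + 1 → ∀ u ∈ Λ i, ∀ v ∈ comp R d 1, ⁅u, v⁆ ∈ Λ j

/-- The index of a graded ideal in `f_{c,d}(R)`. -/
noncomputable def idx (R : Type) [CommRing R] (c d : ℕ)
    (Λ : Fin c → Submodule R (FreeLieAlgebra R (Fin d))) : ℕ :=
  ∏ i : Fin c, (Λ i).toAddSubgroup.relIndex (comp R d (i + 1)).toAddSubgroup

/-- The number of graded ideals of index `n` of `f_{c,d}(R)`. -/
noncomputable def numIdeals (R : Type) [CommRing R] (c d n : ℕ) : ℕ :=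
  Nat.card {Λ : Fin c → Submodule R (FreeLieAlgebra R (Fin d)) //
    IsGradedIdeal R c d Λ ∧ idx R c d Λ = n}

/-- The size `q` of the residue field of a local ring. -/
noncomputable def resCard (R : Type) [CommRing R] [IsLocalRing R] : ℕ :=
  Nat.card (IsLocalRing.ResidueField R)

/-- The graded ideal zeta function of `f_{c,d}(R)` as a power series in `Y = q^{-s}`: the
coefficient of `Y^k` is the number of graded ideals of index `q^k`. -/
noncomputable def zetaSeries (R : Type) [CommRing R] [IsLocalRing R] (c d : ℕ) : PowerSeries ℚ :=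
  PowerSeries.mk fun k => (numIdeals R c d (resCard R ^ k) : ℚ)

/-- A rational function `W(X, Y) = P(X, Y) / (X^κ ∏ (1 - X^a Y^b))`, where `P ∈ ℚ[X][Y]` is `num`,
`κ` is `shift` and `(a, b) ∈ ℤ × ℕ`, `(a, b) ≠ (0, 0)`, runs through the list `den`. -/
structure Term where
  num : Polynomial (Polynomial ℚ)
  shift : ℕ
  den : List (ℤ × ℕ)
  den_ne : ∀ ab ∈ den, ab ≠ ((0 : ℤ), (0 : ℕ))

/-- The value `W(x, y)` in a field. -/
noncomputable def Term.val (t : Term) {K : Type} [Field K] [Algebra ℚ K] (x y : K) : K :=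
  t.num.eval₂ ((Polynomial.aeval x : Polynomial ℚ →ₐ[ℚ] K) : Polynomial ℚ →+* K) y /
    (x ^ t.shift * (t.den.map fun ab => 1 - x ^ ab.1 * y ^ ab.2).prod)

/-- The expansion of `W(q, Y)` as a power series in `Y`. -/
noncomputable def Term.series (t : Term) (q : ℚ) : PowerSeries ℚ :=
  ((t.num.map (Polynomial.evalRingHom q) : Polynomial ℚ) : PowerSeries ℚ) *
    (PowerSeries.C (q ^ t.shift) *
      (t.den.map fun ab => 1 - PowerSeries.C (q ^ ab.1) * (PowerSeries.X : PowerSeries ℚ) ^ ab.2).prod)⁻¹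

/-- `Z ∈ ℚ(s)` is the topological graded ideal zeta function of `f_{c,d}`: there is a formula of
Denef type `ζ(s) = ∑_i n_i(q) W_i(q, q^{-s})` for almost all `p` and all finite extensions of
`ℤ_p` (complete discrete valuation rings of characteristic `0` with finite residue field of
characteristic `p` and size `q`), where

* `n_i(q)` plays the role of the number of points over the field with `q` elements of a variety and
  `χ_i ∈ ℤ` that of its Euler characteristic: for almost all `p`, `n_i(p^{k!}) → χ_i` in the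
  field of `ℓ`-adic numbers for every prime `ℓ ≠ p`;
* `(q-1)^r W_i(q, q^{-s})` has a (finite) limit `z_i(s)` for `q → 1`, the coefficient of
  `(q-1)^{-r}` in the expansion of `W_i(q, q^{-s})` at `q = 1`, for all large integers `s`;

and `Z(s) = ∑_i χ_i z_i(s)`. -/
def IsTop (c d : ℕ) (Z : RatFunc ℚ) : Prop :=
  ∃ (m : ℕ) (t : Fin m → Term) (n : Fin m → ℕ → ℤ) (χ : Fin m → ℤ) (s₀ B : ℕ),
    (∀ s : ℕ, s₀ ≤ s → ∃ z : Fin m → ℝ,
      (∀ i, Tendsto (fun q : ℝ => (q - 1) ^ (rk c d) * (t i).val q (q ^ (-(s : ℤ))))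
        (𝓝[>] 1) (𝓝 (z i))) ∧
      ((Z.eval (RingHom.id ℚ) (s : ℚ) : ℚ) : ℝ) = ∑ i, (χ i : ℝ) * z i) ∧
    ∀ p : ℕ, p.Prime → B < p →
      (∀ (ℓ : ℕ) [Fact ℓ.Prime], ℓ ≠ p → ∀ i,
        Tendsto (fun k : ℕ => ((n i (p ^ k.factorial) : ℤ) : ℚ_[ℓ])) atTop (𝓝 (χ i : ℚ_[ℓ]))) ∧
      ∀ (R : Type) [CommRing R] [IsDomain R] [IsDiscreteValuationRing R] [CharZero R]
        [IsAdicComplete (IsLocalRing.maximalIdeal R) R] [Finite (IsLocalRing.ResidueField R)]
        [CharP (IsLocalRing.ResidueField R) p],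
        zetaSeries R c d =
          ∑ i, PowerSeries.C ((n i (resCard R) : ℤ) : ℚ) * (t i).series (resCard R : ℚ)

end GradedTop
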