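import Pool.Agent.Lib.GradedTop.Ranks

namespace GradedTop

open Filter Topology IsLocalRing

lemma pow_lower (M : ℕ) (hM : 2 ≤ M) : (1 / 8 : ℝ) ≤ (1 - 1 / (M : ℝ)) ^ M := by
  have hMpos : (0 : ℝ) < M := by positivity
  have hM2 : (2 : ℝ) ≤ M := by exact_mod_cast hM
  set y : ℝ := 1 - 1 / (M : ℝ) with hy
  have hinv : 1 / (M : ℝ) ≤ 1 / 2 := one_div_le_one_div_of_le (by norm_num) hM2
  have hy0 : 1 / 2 ≤ y := by rw [hy]; linarith
  have hy1 : y ≤ 1 := by rw [hy]; have : 0 < 1 / (M : ℝ) := by positivity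
                         linarith
  set k := M / 2 with hk
  have h1 : 1 / 2 ≤ y ^ k := by
    have h2 := one_add_mul_le_pow (a := -(1 / (M : ℝ))) (by linarith) k
    have h3 : (k : ℝ) ≤ M / 2 := by
      have : 2 * k ≤ M := by omega
      have : (2 : ℝ) * k ≤ M := by exact_mod_cast this
      linarith
    have h4 : (k : ℝ) * (1 / (M : ℝ)) ≤ 1 / 2 := by
      rw [mul_one_div, div_le_iff₀ hMpos]; linarith
    have h5 : 1 + -(1 / (M : ℝ)) = y := by rw [hy]; ring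
    rw [h5] at h2
    linarith
  have h6 : y ^ (2 * k + 1) ≤ y ^ M := pow_le_pow_of_le_one (by linarith) hy1 (by omega)
  refine le_trans ?_ h6
  have h7 : y ^ (2 * k + 1) = y ^ k * y ^ k * y := by ring
  rw [h7]
  have h8 : (1 / 2 : ℝ) * (1 / 2) ≤ y ^ k * y ^ k := mul_le_mul h1 h1 (by norm_num) (by linarith)
  nlinarith

lemma region_bound (I1 I2 I3 : Type) [Fintype I1] [Fintype I2] [Fintype I3] [DecidableEq I1]
    [DecidableEq I2] [DecidableEq I3] (ρ : ℕ)
    (hρ : ρ = Fintype.card I1 + Fintype.card I2 + Fintype.card I3) (M : ℕ) (hM : 2 ≤ M) :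
    ∃ s : Finset ℕ, (1 / 8 : ℝ) ^ (3 * ρ) * (M : ℝ) ^ ρ ≤
      ∑ k ∈ s, (Nat.card (Reg I1 I2 I3 M k) : ℝ) * (1 - 1 / (M : ℝ)) ^ k := by
  classical
  have hMpos : (0 : ℝ) < M := by positivity
  have hM2 : (2 : ℝ) ≤ M := by exact_mod_cast hM
  set y : ℝ := 1 - 1 / (M : ℝ) with hy
  have hinv : 1 / (M : ℝ) ≤ 1 / 2 := one_div_le_one_div_of_le (by norm_num) hM2
  have hy0 : 0 ≤ y := by rw [hy]; linarith
  have hy1 : y ≤ 1 := by rw [hy]; have : 0 < 1 / (M : ℝ) := by positivity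
                         linarith
  set F : Finset ((I1 → ℕ) × (I2 → ℕ) × (I3 → ℕ)) :=
    (Fintype.piFinset fun _ => Finset.Ico (2 * M) (3 * M)) ×ˢ
      ((Fintype.piFinset fun _ => Finset.Ico M (2 * M)) ×ˢ
        (Fintype.piFinset fun _ => Finset.range M)) with hF
  set σ : (I1 → ℕ) × (I2 → ℕ) × (I3 → ℕ) → ℕ :=
    fun E => ∑ i, E.1 i + ∑ i, E.2.1 i + ∑ i, E.2.2 i with hσ
  have hFcard : F.card = M ^ ρ := by
    rw [hF, Finset.card_product, Finset.card_product, Fintype.card_piFinset,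
      Fintype.card_piFinset, Fintype.card_piFinset, Finset.prod_const, Finset.prod_const,
      Finset.prod_const, Finset.card_univ, Finset.card_univ, Finset.card_univ,
      Nat.card_Ico, Nat.card_Ico,
      Finset.card_range, hρ, pow_add, pow_add]
    have h1 : 3 * M - 2 * M = M := by omega
    have h2 : 2 * M - M = M := by omega
    rw [h1, h2, mul_assoc]
  have hσle : ∀ E ∈ F, σ E ≤ 3 * M * ρ := by
    intro E hE
    rw [hF, Finset.mem_product, Finset.mem_product, Fintype.mem_piFinset, Fintype.mem_piFinset,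
      Fintype.mem_piFinset] at hE
    obtain ⟨h1, h2, h3⟩ := hE
    have b1 : ∑ i, E.1 i ≤ Fintype.card I1 * (3 * M) := by
      rw [← smul_eq_mul, ← Finset.card_univ]
      exact Finset.sum_le_card_nsmul _ _ _ fun i _ => (Finset.mem_Ico.1 (h1 i)).2.le
    have b2 : ∑ i, E.2.1 i ≤ Fintype.card I2 * (3 * M) := by
      rw [← smul_eq_mul, ← Finset.card_univ]
      exact Finset.sum_le_card_nsmul _ _ _ fun i _ => by
        have := (Finset.mem_Ico.1 (h2 i)).2; omega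
    have b3 : ∑ i, E.2.2 i ≤ Fintype.card I3 * (3 * M) := by
      rw [← smul_eq_mul, ← Finset.card_univ]
      exact Finset.sum_le_card_nsmul _ _ _ fun i _ => by
        have := Finset.mem_range.1 (h3 i); omega
    calc σ E ≤ Fintype.card I1 * (3 * M) + Fintype.card I2 * (3 * M) +
        Fintype.card I3 * (3 * M) := by rw [hσ]; exact add_le_add (add_le_add b1 b2) b3
      _ = 3 * M * ρ := by rw [hρ]; ring
  have hReg : ∀ k, Nat.card (Reg I1 I2 I3 M k) = (F.filter fun E => σ E = k).card := by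
    intro k
    rw [← Fintype.card_coe, ← Nat.card_eq_fintype_card]
    refine Nat.card_congr (Equiv.subtypeEquivRight fun E => ?_)
    rw [Finset.mem_filter, hF, Finset.mem_product, Finset.mem_product, Fintype.mem_piFinset,
      Fintype.mem_piFinset, Fintype.mem_piFinset]
    simp only [Finset.mem_Ico, Finset.mem_range, and_assoc]
    rfl
  refine ⟨Finset.range (3 * M * ρ + 1), ?_⟩
  have h1 : ∑ k ∈ Finset.range (3 * M * ρ + 1), (Nat.card (Reg I1 I2 I3 M k) : ℝ) * y ^ k =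
      ∑ E ∈ F, y ^ σ E := by
    rw [← Finset.sum_fiberwise_of_maps_to (s := F) (t := Finset.range (3 * M * ρ + 1)) (g := σ)
      (fun E hE => Finset.mem_range.2 (by have := hσle E hE; omega))]
    refine Finset.sum_congr rfl fun k _ => ?_
    rw [hReg k, Finset.sum_congr rfl (g := fun _ => y ^ k) (fun E hE => by
      rw [(Finset.mem_filter.1 hE).2]), Finset.sum_const, nsmul_eq_mul]
  rw [h1]
  have h2 : ∀ E ∈ F, (1 / 8 : ℝ) ^ (3 * ρ) ≤ y ^ σ E := by
    intro E hE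
    calc (1 / 8 : ℝ) ^ (3 * ρ) ≤ (y ^ M) ^ (3 * ρ) :=
          pow_le_pow_left₀ (by norm_num) (pow_lower M hM) _
      _ = y ^ (3 * M * ρ) := by rw [← pow_mul]; congr 1; ring
      _ ≤ y ^ σ E := pow_le_pow_of_le_one hy0 hy1 (hσle E hE)
  calc (1 / 8 : ℝ) ^ (3 * ρ) * (M : ℝ) ^ ρ = F.card • (1 / 8 : ℝ) ^ (3 * ρ) := by
        rw [hFcard, nsmul_eq_mul]; push_cast; ring
    _ ≤ ∑ E ∈ F, y ^ σ E := Finset.card_nsmul_le_sum _ _ _ h2

/-- the uniform bound for the weights -/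
noncomputable def Wb (d : ℕ) : ℕ := 2 ^ (d + 1) + Fintype.card (J3 d) + 1

theorem class_three (d : ℕ) (Z : RatFunc ℚ) (h : IsTop 3 d Z) :
    Z ≠ 0 ∧ Z.intDegree = -rk 3 d := by
  obtain ⟨m, t, n, χ, s₀, B, hreal, hloc⟩ := h
  obtain ⟨p, hpB, hp⟩ := Nat.exists_infinite_primes (B + 3)
  have : Fact p.Prime := ⟨hp⟩
  have : Fact (Nat.Prime 2) := ⟨Nat.prime_two⟩
  have hne : (2 : ℕ) ≠ p := by omega
  obtain ⟨h1, h2⟩ := hloc p hp (by omega)
  rw [rk_three] at hreal ⊢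
  set ρ := Fintype.card (Fin d) + Fintype.card (J2 d) + Fintype.card (J3 d) with hρ
  set U : Ultrafilter ℕ := hyperfilter ℕ with hU
  have hUle : (U : Filter ℕ) ≤ atTop := Nat.hyperfilter_le_atTop
  -- the counting functions
  have hcount : ∀ N : ℕ, ∃ A : ℕ → ℕ, (∀ k, A k ≤ (k + 1) ^ ρ) ∧
      (∀ M k, Nat.card (Reg (Fin d) (J2 d) (J3 d) M k) ≤ A k) ∧
      ∀ (k : ℕ) (u : (WR p N.factorial)ˣ) (ℓ : ℕ) (_ : ℓ.Prime) (e κ : ℕ) (_ : u ^ (ℓ ^ e) = 1)
        (_ : Sep (u ^ (ℓ ^ κ)) (Wb d)),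
        numIdeals (WR p N.factorial) 3 d (resCard (WR p N.factorial) ^ k) ≡ A k
          [MOD ℓ ^ (κ + 1)] := by
    intro N
    obtain ⟨S, hS1, hS2, hS3⟩ := exists_lieSys (WR p N.factorial) d
    obtain ⟨A, hA1, hA2, hA3⟩ := S.count (WittVector.irreducible p)
    refine ⟨A, hA1, hA2, ?_⟩
    intro k u ℓ hℓ e κ hu hsep
    have hq := resCard_pos (R := WR p N.factorial)
    rw [hS3 _ (by positivity)]
    refine hA3 k u ℓ hℓ e κ hu (Wb d) hsep ?_ ?_ ?_
    · intro i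
      rw [hS1, wt1, Wb]
      have h3 : 2 ^ (i : ℕ) < 2 ^ (d + 1) :=
        Nat.pow_lt_pow_right (by norm_num) (i.2.trans (Nat.lt_succ_self d))
      omega
    · intro i
      rw [hS2, wt2, Wb]
      have h3 : 2 ^ (i.1.1 : ℕ) < 2 ^ d := Nat.pow_lt_pow_right (by norm_num) i.1.1.2
      have h4 : 2 ^ (i.1.2 : ℕ) < 2 ^ d := Nat.pow_lt_pow_right (by norm_num) i.1.2.2
      have h5 : 2 ^ (d + 1) = 2 ^ d + 2 ^ d := by rw [pow_succ]; ring
      rw [h5]
      linarith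
    · rw [Wb]
      have := Nat.zero_le (2 ^ (d + 1))
      linarith
  choose A hA1 hA2 hA3 using hcount
  -- limits along the ultrafilter
  have hlimc : ∀ k, ∃ c : ℕ, ∀ᶠ N in (U : Filter ℕ), A N k = c := by
    intro k
    have h3 : ∀ᶠ N in (U : Filter ℕ), ∃ c ∈ Set.Iic ((k + 1) ^ ρ), A N k = c :=
      Eventually.of_forall fun N => ⟨A N k, hA1 N k, rfl⟩
    obtain ⟨c, _, hc⟩ := (Ultrafilter.eventually_exists_mem_iff (Set.finite_Iic _)).1 h3
    exact ⟨c, hc⟩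
  choose c hc using hlimc
  have hclow : ∀ M k, Nat.card (Reg (Fin d) (J2 d) (J3 d) M k) ≤ c k := by
    intro M k
    obtain ⟨N, hN⟩ := (hc k).exists
    rw [← hN]; exact hA2 N M k
  have hcup : ∀ k, c k ≤ (k + 1) ^ ρ := by
    intro k
    obtain ⟨N, hN⟩ := (hc k).exists
    rw [← hN]; exact hA1 N k
  -- congruences
  obtain ⟨C, hC⟩ : ∃ C : ℕ, Wb d ≤ 2 ^ C := ⟨Wb d, Nat.lt_two_pow_self.le⟩
  have hmod : ∀ κ : ℕ, ∀ᶠ N in atTop, ∀ k,
      numIdeals (WR p N.factorial) 3 d (resCard (WR p N.factorial) ^ k) ≡ A N k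
        [MOD 2 ^ (κ + 1)] := by
    intro κ
    filter_upwards [eventually_ge_atTop ((2 ^ (κ + C)).totient)] with N hN k
    have hcop : Nat.Coprime p (2 ^ (κ + C)) :=
      Nat.Coprime.pow_right _ ((Nat.coprime_primes hp Nat.prime_two).2 hne.symm)
    have h3 : (2 ^ (κ + C)).totient ∣ N.factorial := by
      apply Nat.dvd_factorial _ hN
      exact Nat.totient_pos.2 (by positivity)
    have h4 : 2 ^ (κ + C) ∣ p ^ N.factorial - 1 := by
      obtain ⟨e, he⟩ := h3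
      have h5 : p ^ N.factorial ≡ 1 [MOD 2 ^ (κ + C)] := by
        rw [he, pow_mul]
        simpa using (Nat.ModEq.pow_totient hcop).pow e
      exact (Nat.modEq_iff_dvd' (Nat.one_le_pow _ _ hp.pos)).1 h5.symm
    obtain ⟨u, hu1, hu2⟩ := exists_root p N.factorial N.factorial_ne_zero 2 Nat.prime_two κ C h4
    refine hA3 N k u 2 Nat.prime_two (κ + C) κ hu1 ?_
    intro j hj0 hj
    exact hu2 j hj0 (by omega)
  have htend : ∀ k, Tendsto (fun N : ℕ =>
      (((numIdeals (WR p N.factorial) 3 d (resCard (WR p N.factorial) ^ k) : ℕ) : ℤ) : ℚ_[2]))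
      U (𝓝 ((c k : ℕ) : ℚ_[2])) := by
    intro k
    rw [Metric.tendsto_nhds]
    intro ε hε
    obtain ⟨κ, hκ⟩ := PadicInt.exists_pow_neg_lt 2 hε
    filter_upwards [hUle (hmod κ), hc k] with N hN1 hN2
    have h3 := hN1 k
    rw [hN2] at h3
    have h4 : ((2 ^ κ : ℕ) : ℤ) ∣
        ((numIdeals (WR p N.factorial) 3 d (resCard (WR p N.factorial) ^ k) : ℕ) : ℤ) - (c k : ℤ) := by
      have h5 := Nat.modEq_iff_dvd.1 h3.symm
      refine dvd_trans ?_ h5
      exact_mod_cast pow_dvd_pow 2 (Nat.le_succ κ)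
    rw [dist_eq_norm]
    have h6 : ((((numIdeals (WR p N.factorial) 3 d (resCard (WR p N.factorial) ^ k) : ℕ) : ℤ) :
        ℚ_[2])) - ((c k : ℕ) : ℚ_[2]) =
        (((((numIdeals (WR p N.factorial) 3 d (resCard (WR p N.factorial) ^ k) : ℕ) : ℤ) -
          (c k : ℤ) : ℤ)) : ℚ_[2]) := by push_cast; ring
    rw [h6]
    refine lt_of_le_of_lt ?_ hκ
    rw [Padic.norm_int_le_pow_iff_dvd]
    exact_mod_cast h4
  refine lower_core t χ ρ Z s₀ hreal 2 U (fun k => p ^ k.factorial) ?_ ?_ ?_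
    (fun i k => n i (p ^ k.factorial)) (fun i => (h1 2 hne i).mono_left hUle)
    (fun k j => (numIdeals (WR p k.factorial) 3 d (resCard (WR p k.factorial) ^ j) : ℤ)) ?_
    c htend hcup ((1 / 8 : ℝ) ^ (3 * ρ)) (by positivity) ?_
  · intro k
    calc 2 ≤ p ^ 1 := by rw [pow_one]; omega
      _ ≤ p ^ k.factorial := Nat.pow_le_pow_right hp.pos k.factorial_pos
  · exact (tendsto_pow_factorial p 2 hne).mono_left hUle
  · intro k; exact norm_prime_pow p 2 hne _
  · intro k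
    have h3 := h2 (WR p k.factorial)
    rw [WR_resCard p _ k.factorial_ne_zero] at h3
    rw [← h3, zetaSeries, WR_resCard p _ k.factorial_ne_zero]
    ext j
    simp
  · intro M hM
    obtain ⟨s, hs⟩ := region_bound (Fin d) (J2 d) (J3 d) ρ hρ M hM
    refine ⟨s, hs.trans (Finset.sum_le_sum fun k _ => ?_)⟩
    have hM2 : (2 : ℝ) ≤ M := by exact_mod_cast hM
    have hinv : 1 / (M : ℝ) ≤ 1 / 2 := one_div_le_one_div_of_le (by norm_num) hM2
    refine mul_le_mul_of_nonneg_right ?_ (pow_nonneg (by linarith) _)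
    exact_mod_cast hclow M k

end GradedTop
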