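import Pool.Agent.Lib.GradedTop.SysCount

namespace GradedTop

open IsLocalRing Submodule

attribute [local instance 100] LieRing.ofAssociativeRing

section Matrices

variable (R : Type) [CommRing R] (d : ℕ)

variable {R} in
/-- a strictly upper triangular matrix -/
def m4 (α β γ : R) : Matrix (Fin 4) (Fin 4) R :=
  !![0, α, 0, 0; 0, 0, β, 0; 0, 0, 0, γ; 0, 0, 0, 0]

variable {R} in
lemma m4_ent2 (α β γ α' β' γ' : R) :
    (m4 α β γ * m4 α' β' γ' - m4 α' β' γ' * m4 α β γ) 0 2 = α * β' - α' * β := by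
  simp [m4]

variable {R} in
lemma m4_ent3 (α β γ α' β' γ' α'' β'' γ'' : R) :
    ((m4 α β γ * m4 α' β' γ' - m4 α' β' γ' * m4 α β γ) * m4 α'' β'' γ'' -
      m4 α'' β'' γ'' * (m4 α β γ * m4 α' β' γ' - m4 α' β' γ' * m4 α β γ)) 0 3 =
      (α * β' - α' * β) * γ'' - α'' * (β * γ' - β' * γ) := by
  simp [m4]

/-- the matrix representing the letter `i` with respect to the word `abc` -/
def wmat (a b c i : Fin d) : Matrix (Fin 4) (Fin 4) R :=
  m4 (if i = a then 1 else 0) (if i = b then 1 else 0) (if i = c then 1 else 0)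

/-- representation of the free Lie algebra -/
noncomputable def wrep (a b c : Fin d) : FreeLieAlgebra R (Fin d) →ₗ⁅R⁆ Matrix (Fin 4) (Fin 4) R :=
  FreeLieAlgebra.lift R (wmat R d a b c)

/-- entry of the representation -/
noncomputable def went (a b c : Fin d) (s t : Fin 4) : FreeLieAlgebra R (Fin d) →ₗ[R] R :=
  { toFun := fun u => wrep R d a b c u s t
    map_add' := fun u v => by rw [map_add]; rfl
    map_smul' := fun r u => by rw [map_smul]; rfl }

lemma went_apply (a b c : Fin d) (s t : Fin 4) (u : FreeLieAlgebra R (Fin d)) :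
    went R d a b c s t u = wrep R d a b c u s t := rfl

lemma went1 (a b c i : Fin d) :
    went R d a b c 0 1 (FreeLieAlgebra.of R i) = if i = a then 1 else 0 := by
  rw [went_apply, wrep, FreeLieAlgebra.lift_of_apply]
  simp [wmat, m4]

lemma went2 (a b c i j : Fin d) :
    went R d a b c 0 2 ⁅FreeLieAlgebra.of R i, FreeLieAlgebra.of R j⁆ =
      (if i = a then 1 else 0) * (if j = b then 1 else 0) -
      (if j = a then 1 else 0) * (if i = b then 1 else 0) := by
  rw [went_apply, LieHom.map_lie, wrep, FreeLieAlgebra.lift_of_apply, FreeLieAlgebra.lift_of_apply,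
    Ring.lie_def]
  exact m4_ent2 _ _ _ _ _ _

lemma went3 (a b c i j k : Fin d) :
    went R d a b c 0 3 ⁅⁅FreeLieAlgebra.of R i, FreeLieAlgebra.of R j⁆, FreeLieAlgebra.of R k⁆ =
      ((if i = a then 1 else 0) * (if j = b then 1 else 0) -
      (if j = a then 1 else 0) * (if i = b then 1 else 0)) * (if k = c then 1 else 0) -
      (if k = a then 1 else 0) * ((if i = b then 1 else 0) * (if j = c then 1 else 0) -
      (if j = b then 1 else 0) * (if i = c then 1 else 0)) := by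
  rw [went_apply, LieHom.map_lie, LieHom.map_lie, wrep, FreeLieAlgebra.lift_of_apply,
    FreeLieAlgebra.lift_of_apply, FreeLieAlgebra.lift_of_apply, Ring.lie_def, Ring.lie_def]
  exact m4_ent3 _ _ _ _ _ _ _ _ _

end Matrices

section Basis

variable (R : Type) [CommRing R] (d : ℕ)

/-- index set in degree two -/
abbrev J2 : Type := {p : Fin d × Fin d // p.2 < p.1}

/-- index set in degree three -/
abbrev J3 : Type := {p : Fin d × Fin d × Fin d // p.2.1 < p.1 ∧ p.2.1 ≤ p.2.2}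

/-- generators -/
noncomputable def b1 (i : Fin d) : FreeLieAlgebra R (Fin d) := FreeLieAlgebra.of R i

/-- degree two basis -/
noncomputable def b2 (p : J2 d) : FreeLieAlgebra R (Fin d) :=
  ⁅FreeLieAlgebra.of R p.1.1, FreeLieAlgebra.of R p.1.2⁆

/-- degree three basis -/
noncomputable def b3 (p : J3 d) : FreeLieAlgebra R (Fin d) :=
  ⁅⁅FreeLieAlgebra.of R p.1.1, FreeLieAlgebra.of R p.1.2.1⁆, FreeLieAlgebra.of R p.1.2.2⁆

variable {R d}

/-- linear combination map -/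
noncomputable def lc {ι : Type} [Fintype ι] (b : ι → FreeLieAlgebra R (Fin d)) :
    (ι → R) →ₗ[R] FreeLieAlgebra R (Fin d) := Fintype.linearCombination R b

lemma lc_apply {ι : Type} [Fintype ι] (b : ι → FreeLieAlgebra R (Fin d)) (v : ι → R) :
    lc b v = ∑ i, v i • b i := rfl

lemma lc_range {ι : Type} [Fintype ι] (b : ι → FreeLieAlgebra R (Fin d)) :
    LinearMap.range (lc b) = Submodule.span R (Set.range b) :=
  Fintype.range_linearCombination R b

lemma lc_injective {ι : Type} [Fintype ι] [DecidableEq ι] (b : ι → FreeLieAlgebra R (Fin d))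
    (Φ : ι → FreeLieAlgebra R (Fin d) →ₗ[R] R) (s : ι → R) (hs : ∀ i, s i * s i = 1)
    (h : ∀ p p', Φ p (b p') = if p' = p then s p else 0) : Function.Injective (lc b) := by
  rw [injective_iff_map_eq_zero]
  intro v hv
  funext p
  have h1 := congrArg (Φ p) hv
  rw [lc_apply, map_sum, map_zero] at h1
  simp only [map_smul, h, smul_eq_mul, mul_ite, mul_zero] at h1
  rw [Finset.sum_ite_eq' Finset.univ p] at h1
  simp only [Finset.mem_univ, if_true] at h1
  have h2 : v p * (s p * s p) = 0 := by rw [← mul_assoc, h1, zero_mul]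
  rwa [hs, mul_one] at h2

lemma b1_injective : Function.Injective (lc (b1 R d)) := by
  refine lc_injective _ (fun p => went R d p p p 0 1) (fun _ => 1) (by simp) ?_
  intro p p'
  rw [b1, went1]

lemma b2_injective : Function.Injective (lc (b2 R d)) := by
  refine lc_injective _ (fun p => went R d p.1.1 p.1.2 p.1.2 0 2) (fun _ => 1) (by simp) ?_
  rintro ⟨⟨i, j⟩, h⟩ ⟨⟨i', j'⟩, h'⟩
  simp only at h h'
  rw [b2, went2]
  simp only [Subtype.mk.injEq, Prod.mk.injEq]
  have h1 : ¬ (j' = i ∧ i' = j) := by rintro ⟨rfl, rfl⟩; exact absurd h (not_lt.2 h'.le)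
  by_cases h2 : i' = i <;> by_cases h3 : j' = j <;> by_cases h4 : j' = i <;>
    by_cases h5 : i' = j <;> simp_all

/-- the word used to detect `b3 p` -/
def wd3 (p : J3 d) : Fin d × Fin d × Fin d :=
  if p.1.2.2 = p.1.2.1 then (p.1.2.1, p.1.2.1, p.1.1) else (p.1.2.1, p.1.1, p.1.2.2)

lemma b3_injective : Function.Injective (lc (b3 R d)) := by
  refine lc_injective _ (fun p => went R d (wd3 p).1 (wd3 p).2.1 (wd3 p).2.2 0 3)
    (fun p => if p.1.2.2 = p.1.2.1 then 1 else -1) (by intro i; split_ifs <;> simp) ?_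
  rintro ⟨⟨i, j, k⟩, h⟩ ⟨⟨i', j', k'⟩, h'⟩
  simp only at h h'
  rw [b3, went3]
  simp only [Subtype.mk.injEq, Prod.mk.injEq, wd3]
  by_cases hk : k = j
  · subst hk
    simp only [if_true]
    have e1 : ¬ (i' = k ∧ j' = k) := by rintro ⟨rfl, rfl⟩; exact lt_irrefl _ h'.1
    have e2 : ¬ (i' = k ∧ j' = i) := by
      rintro ⟨rfl, rfl⟩; exact absurd h.1 (not_lt.2 h'.1.le)
    by_cases f1 : i' = k <;> by_cases f2 : j' = k <;> by_cases f3 : j' = i <;>
      by_cases f4 : i' = i <;> by_cases f5 : k' = k <;> simp_all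
  · simp only [if_neg hk]
    have hjk : j < k := lt_of_le_of_ne h.2 (Ne.symm hk)
    have e1 : ¬ (i' = j ∧ j' = i) := by
      rintro ⟨rfl, rfl⟩; exact absurd h.1 (not_lt.2 h'.1.le)
    have e2 : ¬ (k' = j ∧ j' = k) := by
      rintro ⟨rfl, rfl⟩; exact absurd hjk (not_lt.2 h'.2)
    have e3 : ¬ (k' = j ∧ j' = i) := by
      rintro ⟨rfl, rfl⟩; exact absurd h.1 (not_lt.2 h'.2)
    by_cases f1 : i' = j <;> by_cases f2 : j' = i <;> by_cases f3 : k' = j <;>
      by_cases f4 : i' = i <;> by_cases f5 : j' = j <;> by_cases f6 : k' = k <;>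
      by_cases f7 : j' = k <;> simp_all

/-- bracket with a generator -/
noncomputable def brk (j : Fin d) : FreeLieAlgebra R (Fin d) →ₗ[R] FreeLieAlgebra R (Fin d) where
  toFun u := ⁅u, FreeLieAlgebra.of R j⁆
  map_add' u v := by rw [add_lie]
  map_smul' r u := by rw [smul_lie]; rfl

lemma brk_apply (j : Fin d) (u : FreeLieAlgebra R (Fin d)) :
    brk j u = ⁅u, FreeLieAlgebra.of R j⁆ := rfl

lemma comp_succ (n : ℕ) : comp R d (n + 2) = ⨆ j, (comp R d (n + 1)).map (brk j) := by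
  apply le_antisymm
  · rw [comp, Submodule.span_le]
    rintro _ ⟨u, hu, j, rfl⟩
    exact Submodule.mem_iSup_of_mem j ⟨u, hu, rfl⟩
  · refine iSup_le fun j => ?_
    rintro _ ⟨u, hu, rfl⟩
    rw [comp]
    exact Submodule.subset_span ⟨u, hu, j, rfl⟩

lemma jacobi' {A : Type} [LieRing A] (x y z : A) : ⁅⁅x, y⁆, z⁆ = ⁅⁅x, z⁆, y⁆ - ⁅⁅y, z⁆, x⁆ := by
  have h := lie_jacobi x y z
  have h4 : ⁅y, ⁅z, x⁆⁆ = -⁅y, ⁅x, z⁆⁆ := by rw [← lie_skew z x, lie_neg]
  rw [h4] at h
  rw [← lie_skew ⁅x, y⁆ z, ← lie_skew ⁅x, z⁆ y, ← lie_skew ⁅y, z⁆ x, ← sub_eq_zero]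
  have h5 : -⁅z, ⁅x, y⁆⁆ - (-⁅y, ⁅x, z⁆⁆ - -⁅x, ⁅y, z⁆⁆) =
      -(⁅x, ⁅y, z⁆⁆ + -⁅y, ⁅x, z⁆⁆ + ⁅z, ⁅x, y⁆⁆) + (-2 : ℤ) • (-⁅y, ⁅x, z⁆⁆) +
        (2 : ℤ) • (-⁅y, ⁅x, z⁆⁆) := by abel
  rw [h5, h]; abel

lemma comp_one : comp R d 1 = LinearMap.range (lc (b1 R d)) := by
  rw [lc_range]; rfl

lemma comp_two : comp R d 2 = LinearMap.range (lc (b2 R d)) := by
  rw [lc_range]
  apply le_antisymm
  · rw [comp_succ 0]
    refine iSup_le fun j => ?_
    rw [comp_one, lc_range, Submodule.map_span, Submodule.span_le]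
    rintro _ ⟨_, ⟨i, rfl⟩, rfl⟩
    change ⁅FreeLieAlgebra.of R i, FreeLieAlgebra.of R j⁆ ∈ Submodule.span R (Set.range (b2 R d))
    rcases lt_trichotomy i j with h | h | h
    · rw [← lie_skew]
      exact Submodule.neg_mem _ (Submodule.subset_span ⟨⟨(j, i), h⟩, rfl⟩)
    · subst h; rw [lie_self]; exact Submodule.zero_mem _
    · exact Submodule.subset_span ⟨⟨(i, j), h⟩, rfl⟩
  · rw [Submodule.span_le]
    rintro _ ⟨p, rfl⟩
    rw [comp_succ 0]
    refine Submodule.mem_iSup_of_mem p.1.2 ⟨FreeLieAlgebra.of R p.1.1, ?_, rfl⟩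
    exact Submodule.subset_span ⟨_, rfl⟩

lemma comp_three : comp R d 3 = LinearMap.range (lc (b3 R d)) := by
  rw [lc_range]
  apply le_antisymm
  · rw [comp_succ 1]
    refine iSup_le fun k => ?_
    rw [comp_two, lc_range, Submodule.map_span, Submodule.span_le]
    rintro _ ⟨_, ⟨⟨⟨i, j⟩, h⟩, rfl⟩, rfl⟩
    change ⁅⁅FreeLieAlgebra.of R i, FreeLieAlgebra.of R j⁆, FreeLieAlgebra.of R k⁆ ∈
      Submodule.span R (Set.range (b3 R d))
    have h : j < i := h
    by_cases hjk : j ≤ k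
    · exact Submodule.subset_span ⟨⟨(i, j, k), h, hjk⟩, rfl⟩
    · push Not at hjk
      have hJ : ⁅⁅FreeLieAlgebra.of R i, FreeLieAlgebra.of R j⁆, FreeLieAlgebra.of R k⁆ =
          ⁅⁅FreeLieAlgebra.of R i, FreeLieAlgebra.of R k⁆, FreeLieAlgebra.of R j⁆ -
          ⁅⁅FreeLieAlgebra.of R j, FreeLieAlgebra.of R k⁆, FreeLieAlgebra.of R i⁆ := by
        exact jacobi' _ _ _
      rw [hJ]
      refine Submodule.sub_mem _ (Submodule.subset_span ⟨⟨(i, k, j), ?_, ?_⟩, rfl⟩)
        (Submodule.subset_span ⟨⟨(j, k, i), ?_, ?_⟩, rfl⟩)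
      · exact hjk.trans h
      · exact hjk.le
      · exact hjk
      · exact (hjk.trans h).le
  · rw [Submodule.span_le]
    rintro _ ⟨p, rfl⟩
    rw [comp_succ 1, comp_two, lc_range]
    exact Submodule.mem_iSup_of_mem p.1.2.2 ⟨b2 R d ⟨(p.1.1, p.1.2.1), p.2.1⟩,
      Submodule.subset_span ⟨_, rfl⟩, rfl⟩

end Basis

end GradedTop
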