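import Pool.Agent.Lib.GradedTop.Upper

namespace GradedTop

open Filter Topology Polynomial

section RealPart

/-- Evaluation of a product of a polynomial and a convergent power series. -/
lemma tsum_mul_poly (P : ℝ[X]) (c : ℕ → ℝ) (y : ℝ) (hs : Summable fun k => ‖c k * y ^ k‖) :
    ∑' k, PowerSeries.coeff k ((P : PowerSeries ℝ) * PowerSeries.mk c) * y ^ k =
      P.eval y * ∑' k, c k * y ^ k := by
  have hP : Summable fun k => ‖P.coeff k * y ^ k‖ := by
    refine summable_of_ne_finset_zero (s := Finset.range (P.natDegree + 1)) fun k hk => ?_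
    rw [coeff_eq_zero_of_natDegree_lt (by simpa using hk)]; simp
  have h1 : ∑' k, P.coeff k * y ^ k = P.eval y := by
    rw [eval_eq_sum_range, tsum_eq_sum]
    intro k hk
    rw [coeff_eq_zero_of_natDegree_lt (by simpa using hk)]; simp
  rw [← h1, tsum_mul_tsum_eq_tsum_sum_antidiagonal_of_summable_norm hP hs]
  refine tsum_congr fun k => ?_
  rw [PowerSeries.coeff_mul, Finset.sum_mul]
  refine Finset.sum_congr rfl fun x hx => ?_
  rw [Finset.HasAntidiagonal.mem_antidiagonal] at hx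
  rw [Polynomial.coeff_coe, PowerSeries.coeff_mk, ← hx, pow_add]
  ring

lemma DP_one_ge (J : List (ℤ × ℕ)) (hJ : ∀ ab ∈ J, 1 ≤ ab.2) (y : ℝ) (h0 : 0 ≤ y) (h1 : y ≤ 1) :
    (1 - y) ^ J.length ≤ (DP J (1 : ℝ)).eval y := by
  induction J with
  | nil => simp [DP_nil]
  | cons ab J ih =>
    have ih' := ih (fun ab' h' => hJ ab' (List.mem_cons_of_mem _ h'))
    rw [DP_cons, eval_mul, List.length_cons, pow_succ']
    have h2 : (1 - C ((1 : ℝ) ^ ab.1) * X ^ ab.2 : ℝ[X]).eval y = 1 - y ^ ab.2 := by simp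
    rw [h2]
    have h3 : y ^ ab.2 ≤ y := by
      have := pow_le_pow_of_le_one h0 h1 (hJ ab List.mem_cons_self)
      simpa using this
    have h4 : 0 ≤ 1 - y := by linarith
    exact mul_le_mul (by linarith) ih' (pow_nonneg h4 _) (by linarith)

/-- The contradiction from a polynomial identity and a lower bound. -/
lemma real_contra (J : List (ℤ × ℕ)) (hJ : ∀ ab ∈ J, 1 ≤ ab.2) (c : ℕ → ℝ)
    (hc0 : ∀ k, 0 ≤ c k) (ρ : ℕ) (hcb : ∀ k, c k ≤ (k + 1 : ℝ) ^ ρ) (Q : ℝ[X])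
    (hQ : (Q : PowerSeries ℝ) = ((DP J (1 : ℝ) : ℝ[X]) : PowerSeries ℝ) * PowerSeries.mk c)
    (k0 : ℕ) (hk0 : ∀ b < k0, (taylor 1 Q).coeff b = 0) (hk : J.length + 1 ≤ ρ + k0)
    (c0 : ℝ) (hc0' : 0 < c0)
    (hlow : ∀ M : ℕ, 2 ≤ M → ∃ s : Finset ℕ, c0 * (M : ℝ) ^ ρ ≤
      ∑ k ∈ s, c k * (1 - 1 / (M : ℝ)) ^ k) : False := by
  set K : ℝ := ∑ b ∈ Finset.range (Q.natDegree + 1), |(taylor 1 Q).coeff b| with hK
  have hK0 : 0 ≤ K := Finset.sum_nonneg fun _ _ => abs_nonneg _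
  obtain ⟨M, hM⟩ := exists_nat_gt (max 2 (K / c0))
  have hM2 : (2 : ℝ) < M := lt_of_le_of_lt (le_max_left _ _) hM
  have hMK : K / c0 < M := lt_of_le_of_lt (le_max_right _ _) hM
  have hM2' : 2 ≤ M := by exact_mod_cast hM2.le
  have hMpos : (0 : ℝ) < M := by linarith
  set y : ℝ := 1 - 1 / (M : ℝ) with hy
  have hy1 : y < 1 := by rw [hy]; have : 0 < 1 / (M : ℝ) := by positivity
                         linarith
  have hy0 : 0 ≤ y := by
    rw [hy]
    have : 1 / (M : ℝ) ≤ 1 := by rw [div_le_one hMpos]; linarith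
    linarith
  have hsum : Summable fun k => ‖c k * y ^ k‖ := by
    have h1 : Summable fun k : ℕ => ((k + 1 : ℕ) : ℝ) ^ ρ * y ^ (k + 1) :=
      (summable_nat_add_iff (f := fun k : ℕ => (k : ℝ) ^ ρ * y ^ k) 1).2
        (summable_pow_mul_geometric_of_norm_lt_one ρ (by rwa [Real.norm_of_nonneg hy0]))
    by_cases hy00 : y = 0
    · refine summable_of_ne_finset_zero (s := {0}) fun k hk => ?_
      have : k ≠ 0 := by simpa using hk
      simp [hy00, this]
    have hypos : 0 < y := lt_of_le_of_ne hy0 (Ne.symm hy00)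
    have h2 : Summable fun k : ℕ => ((k + 1 : ℕ) : ℝ) ^ ρ * y ^ k := by
      have := h1.mul_right y⁻¹
      refine this.congr fun k => ?_
      rw [pow_succ]; field_simp
    refine Summable.of_nonneg_of_le (fun k => norm_nonneg _) (fun k => ?_) h2
    rw [Real.norm_of_nonneg (mul_nonneg (hc0 k) (pow_nonneg hy0 k))]
    refine mul_le_mul_of_nonneg_right ?_ (pow_nonneg hy0 k)
    have := hcb k
    push_cast
    exact this
  set S : ℝ := ∑' k, c k * y ^ k with hS
  have hQy : Q.eval y = (DP J (1 : ℝ)).eval y * S := by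
    rw [hS, ← tsum_mul_poly _ c y hsum, ← hQ]
    rw [eval_eq_sum_range, tsum_eq_sum (s := Finset.range (Q.natDegree + 1))]
    · exact Finset.sum_congr rfl fun k _ => by rw [Polynomial.coeff_coe]
    · intro k hk
      rw [Polynomial.coeff_coe, coeff_eq_zero_of_natDegree_lt (by simpa using hk)]; simp
  obtain ⟨s, hs⟩ := hlow M hM2'
  have hSlow : c0 * (M : ℝ) ^ ρ ≤ S := by
    refine hs.trans ?_
    rw [hS]
    refine Summable.sum_le_tsum _ (fun k _ => mul_nonneg (hc0 k) (pow_nonneg hy0 k)) ?_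
    exact hsum.of_norm
  have h1y : 1 - y = 1 / (M : ℝ) := by rw [hy]; ring
  have hup : Q.eval y ≤ K * (1 / (M : ℝ)) ^ k0 := by
    rw [taylor_expand Q Q.natDegree le_rfl y, hK, Finset.sum_mul]
    refine Finset.sum_le_sum fun b _ => ?_
    by_cases hb : b < k0
    · rw [hk0 b hb]; simp
    · push Not at hb
      refine (le_abs_self _).trans ?_
      rw [abs_mul]
      refine mul_le_mul_of_nonneg_left ?_ (abs_nonneg _)
      rw [abs_pow, abs_sub_comm, h1y, abs_of_pos (by positivity)]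
      refine pow_le_pow_of_le_one (by positivity) ?_ hb
      rw [div_le_one hMpos]; linarith
  have hlow2 : (1 / (M : ℝ)) ^ J.length * (c0 * (M : ℝ) ^ ρ) ≤ Q.eval y := by
    rw [hQy, ← h1y]
    have h3 := DP_one_ge J hJ y hy0 hy1.le
    have h4 : 0 ≤ (1 - y) ^ J.length := pow_nonneg (by linarith) _
    exact mul_le_mul h3 hSlow (by positivity) (h4.trans h3)
  have hfin : (1 / (M : ℝ)) ^ J.length * (c0 * (M : ℝ) ^ ρ) ≤ K * (1 / (M : ℝ)) ^ k0 :=
    hlow2.trans hup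
  have h5 : c0 * (M : ℝ) ^ (ρ + k0) ≤ K * (M : ℝ) ^ J.length := by
    have h6 := mul_le_mul_of_nonneg_right hfin (by positivity : 0 ≤ (M : ℝ) ^ (J.length + k0))
    have h7 : (1 / (M : ℝ)) ^ J.length * (c0 * (M : ℝ) ^ ρ) * (M : ℝ) ^ (J.length + k0) =
        c0 * (M : ℝ) ^ (ρ + k0) := by
      rw [pow_add, pow_add, one_div, inv_pow]
      field_simp
    have h8 : K * (1 / (M : ℝ)) ^ k0 * (M : ℝ) ^ (J.length + k0) = K * (M : ℝ) ^ J.length := by
      rw [pow_add, one_div, inv_pow]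
      field_simp
    rwa [h7, h8] at h6
  obtain ⟨e, he⟩ := Nat.exists_eq_add_of_le hk
  have h9 : c0 * (M : ℝ) ≤ K := by
    have h10 : (M : ℝ) ^ (ρ + k0) = (M : ℝ) ^ J.length * (M : ℝ) * (M : ℝ) ^ e := by
      rw [he, pow_add, pow_add, pow_one]
    have h11 : (1 : ℝ) ≤ (M : ℝ) ^ e := one_le_pow₀ (by linarith)
    have h12 : c0 * ((M : ℝ) ^ J.length * (M : ℝ)) ≤ K * (M : ℝ) ^ J.length := by
      refine le_trans ?_ h5
      rw [h10]
      refine mul_le_mul_of_nonneg_left ?_ hc0'.le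
      exact le_mul_of_one_le_right (by positivity) h11
    have h13 : (c0 * (M : ℝ)) * (M : ℝ) ^ J.length ≤ K * (M : ℝ) ^ J.length := by
      calc _ = c0 * ((M : ℝ) ^ J.length * (M : ℝ)) := by ring
        _ ≤ _ := h12
    exact le_of_mul_le_mul_right h13 (by positivity)
  rw [div_lt_iff₀ hc0'] at hMK
  linarith

end RealPart

lemma DP_coeff_tendsto {K : Type} [NontriviallyNormedField K] (U : Filter ℕ) (J : List (ℤ × ℕ))
    (x : ℕ → K) (hx : Tendsto x U (𝓝 1)) (k : ℕ) :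
    Tendsto (fun N => (DP J (x N)).coeff k) U (𝓝 ((DP J (1 : K)).coeff k)) := by
  induction J generalizing k with
  | nil => simpa [DP_nil] using tendsto_const_nhds
  | cons ab J ih =>
    simp only [DP_cons, coeff_mul]
    refine tendsto_finsetSum _ fun e _ => Tendsto.mul ?_ (ih e.2)
    simp only [coeff_sub, coeff_one, coeff_C_mul, coeff_X_pow]
    refine Tendsto.sub tendsto_const_nhds (Tendsto.mul ?_ tendsto_const_nhds)
    have : ContinuousAt (fun y : K => y ^ ab.1) 1 := continuousAt_zpow₀ _ _ (Or.inl one_ne_zero)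
    exact this.tendsto.comp hx

theorem lower_core {m : ℕ} (t : Fin m → Term) (χ : Fin m → ℤ) (ρ : ℕ) (Z : RatFunc ℚ) (s₀ : ℕ)
    (hreal : ∀ s : ℕ, s₀ ≤ s → ∃ z : Fin m → ℝ,
      (∀ i, Tendsto (fun q : ℝ => (q - 1) ^ (ρ : ℤ) * (t i).val q (q ^ (-(s : ℤ))))
        (𝓝[>] 1) (𝓝 (z i))) ∧
      ((Z.eval (RingHom.id ℚ) (s : ℚ) : ℚ) : ℝ) = ∑ i, (χ i : ℝ) * z i)
    (ℓ : ℕ) [Fact ℓ.Prime] (U : Filter ℕ) [U.NeBot] (q : ℕ → ℕ) (hq2 : ∀ N, 2 ≤ q N)
    (hq1 : Tendsto (fun N => (q N : ℚ_[ℓ])) U (𝓝 1)) (hqn : ∀ N, ‖(q N : ℚ_[ℓ])‖ = 1)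
    (n : Fin m → ℕ → ℤ) (hn : ∀ i, Tendsto (fun N => (n i N : ℚ_[ℓ])) U (𝓝 (χ i : ℚ_[ℓ])))
    (a : ℕ → ℕ → ℤ)
    (ha : ∀ N, PowerSeries.mk (fun k => (a N k : ℚ)) =
      ∑ i, PowerSeries.C ((n i N : ℤ) : ℚ) * (t i).series (q N : ℚ))
    (c : ℕ → ℕ) (hc : ∀ k, Tendsto (fun N => (a N k : ℚ_[ℓ])) U (𝓝 (c k : ℚ_[ℓ])))
    (hcb : ∀ k, c k ≤ (k + 1) ^ ρ) (c0 : ℝ) (hc0 : 0 < c0)
    (hlow : ∀ M : ℕ, 2 ≤ M → ∃ s : Finset ℕ, c0 * (M : ℝ) ^ ρ ≤
      ∑ k ∈ s, (c k : ℝ) * (1 - 1 / (M : ℝ)) ^ k) :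
    Z ≠ 0 ∧ Z.intDegree = -(ρ : ℤ) := by
  obtain ⟨J, B, Q, γ, hJ, hQdeg, hQser, hγ2, hγ3, hγ4, hγ5⟩ :=
    upper_core t χ ρ Z s₀ hreal ℓ U q hq2 hq1 hqn n hn a ha
  have key : ∃ b : ℕ, (ρ : ℤ) - (J.length : ℤ) + b = 0 ∧ γ.coeff b ≠ 0 := by
    by_contra hcon
    push Not at hcon
    have hu0 : ∀ N, (q N : ℚ_[ℓ]) - 1 ≠ 0 := by
      intro N
      have := zpow_ne_one_K (K := ℚ_[ℓ]) (q N) (hq2 N) 1 one_ne_zero
      rw [zpow_one] at this
      exact sub_ne_zero.2 this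
    have hu : Tendsto (fun N => (q N : ℚ_[ℓ]) - 1) U (𝓝 0) := by
      simpa using hq1.sub_const 1
    -- Taylor coefficients of small order tend to zero
    have hsmall : ∀ b : ℕ, (ρ : ℤ) - (J.length : ℤ) + b ≤ 0 →
        Tendsto (fun N => (taylor 1 (Q N)).coeff b) U (𝓝 0) := by
      intro b hb
      rcases eq_or_lt_of_le hb with h0 | h0
      · have h1 := hγ2 b
        rw [hcon b h0] at h1
        refine h1.congr fun N => ?_
        rw [h0, zpow_zero, one_mul]
      · obtain ⟨j, hj⟩ : ∃ j : ℕ, (ρ : ℤ) - (J.length : ℤ) + b = -((j : ℤ) + 1) :=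
          ⟨(-((ρ : ℤ) - (J.length : ℤ) + b) - 1).toNat, by omega⟩
        have h1 := (hu.pow (j + 1)).mul (hγ2 b)
        rw [zero_pow (Nat.succ_ne_zero j), zero_mul] at h1
        refine h1.congr fun N => ?_
        rw [← mul_assoc, hj, ← zpow_natCast, ← zpow_add₀ (hu0 N)]
        simp
    -- the limit polynomial
    set e : ℕ → ℚ := fun k => PowerSeries.coeff k
      (((DP J (1 : ℚ) : ℚ[X]) : PowerSeries ℚ) * PowerSeries.mk (fun k => (c k : ℚ))) with he
    have heK : ∀ (K : Type) [Field K] [Algebra ℚ K] (k : ℕ), algebraMap ℚ K (e k) =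
        PowerSeries.coeff k (((DP J (1 : K) : K[X]) : PowerSeries K) *
          PowerSeries.mk (fun k => (c k : K))) := by
      intro K _ _ k
      have h1 : (((DP J (1 : K) : K[X]) : PowerSeries K) * PowerSeries.mk (fun k => (c k : K))) =
          PowerSeries.map (algebraMap ℚ K) (((DP J (1 : ℚ) : ℚ[X]) : PowerSeries ℚ) *
            PowerSeries.mk (fun k => (c k : ℚ))) := by
        rw [map_mul, ← Polynomial.polynomial_map_coe, DP_map, map_one]
        congr 1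
        ext j
        simp
      rw [h1, PowerSeries.coeff_map]
    have hcoef : ∀ k, Tendsto (fun N => (Q N).coeff k) U (𝓝 (algebraMap ℚ ℚ_[ℓ] (e k))) := by
      intro k
      rw [heK, PowerSeries.coeff_mul]
      have : ∀ N, (Q N).coeff k = ∑ x ∈ Finset.HasAntidiagonal.antidiagonal k,
          (DP J (q N : ℚ_[ℓ])).coeff x.1 * (a N x.2 : ℚ_[ℓ]) := by
        intro N
        rw [← Polynomial.coeff_coe, hQser N, PowerSeries.coeff_mul]
        refine Finset.sum_congr rfl fun x _ => ?_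
        rw [Polynomial.coeff_coe, PowerSeries.coeff_mk]
      simp only [this, Polynomial.coeff_coe, PowerSeries.coeff_mk]
      refine tendsto_finsetSum _ fun x _ => ?_
      exact (DP_coeff_tendsto U J _ hq1 x.1).mul (hc x.2)
    have he0 : ∀ k, B < k → e k = 0 := by
      intro k hk
      have h1 : Tendsto (fun N => (Q N).coeff k) U (𝓝 0) := by
        refine (tendsto_const_nhds (x := (0 : ℚ_[ℓ]))).congr fun N => ?_
        rw [coeff_eq_zero_of_natDegree_lt]
        exact lt_of_le_of_lt (hQdeg N) hk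
      have h2 := tendsto_nhds_unique (hcoef k) h1
      rwa [map_eq_zero] at h2
    set P : ℚ[X] := ∑ k ∈ Finset.range (B + 1), C (e k) * X ^ k with hP
    have hPcoeff : ∀ k, P.coeff k = e k := by
      intro k
      rw [hP, finsetSum_coeff]
      simp only [coeff_C_mul, coeff_X_pow, mul_ite, mul_one, mul_zero]
      rw [Finset.sum_ite_eq]
      split_ifs with h
      · rfl
      · exact (he0 k (by simpa using h)).symm
    have hPdeg : P.natDegree ≤ B := by
      rw [hP]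
      refine natDegree_sum_le_of_forall_le _ _ fun k hk => ?_
      exact (natDegree_C_mul_X_pow_le _ _).trans (by have := Finset.mem_range.1 hk; omega)
    have htay : ∀ b : ℕ, (ρ : ℤ) - (J.length : ℤ) + b ≤ 0 → (taylor 1 P).coeff b = 0 := by
      intro b hb
      have h1 : Tendsto (fun N => (taylor 1 (Q N)).coeff b) U
          (𝓝 (algebraMap ℚ ℚ_[ℓ] ((taylor 1 P).coeff b))) := by
        rw [taylor_coeff_sum P B hPdeg b, map_sum]
        refine (tendsto_finsetSum (Finset.range (B + 1)) (f := fun k N =>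
          ((k.choose b : ℕ) : ℚ_[ℓ]) * (Q N).coeff k)
          (a := fun k => algebraMap ℚ ℚ_[ℓ] (((k.choose b : ℕ) : ℚ) * P.coeff k))
          fun k _ => ?_).congr fun N => ?_
        · rw [map_mul, map_natCast, hPcoeff]
          exact tendsto_const_nhds.mul (hcoef k)
        · rw [taylor_coeff_sum (Q N) B (hQdeg N) b]
      have h2 := tendsto_nhds_unique h1 (hsmall b hb)
      rwa [map_eq_zero] at h2
    -- real contradiction
    refine real_contra J hJ (fun k => (c k : ℝ)) (fun k => Nat.cast_nonneg _) ρ ?_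
      (P.map (algebraMap ℚ ℝ)) ?_ (((J.length : ℤ) - ρ + 1).toNat) ?_ (by omega) c0 hc0 hlow
    · intro k
      exact_mod_cast hcb k
    · ext k
      rw [Polynomial.coeff_coe, coeff_map, hPcoeff, heK]
    · intro b hb
      have h1 : taylor 1 (P.map (algebraMap ℚ ℝ)) = (taylor 1 P).map (algebraMap ℚ ℝ) := by
        rw [taylor_apply, taylor_apply, Polynomial.map_comp]; simp
      rw [h1, coeff_map, htay b (by omega), map_zero]
  obtain ⟨b, hb0, hb1⟩ := key
  have hγ : γ ≠ 0 := by rintro rfl; simp at hb1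
  have hZ := hγ5 hγ
  refine ⟨hZ, ?_⟩
  obtain ⟨_, h2⟩ := hγ4 hZ
  rw [h2]
  have h3 : b ≤ γ.natDegree := le_natDegree_of_ne_zero hb1
  have h4 : (ρ : ℤ) - (J.length : ℤ) + γ.natDegree ≤ 0 := by
    by_contra hcon
    push Not at hcon
    have h5 := hγ3 γ.natDegree hcon
    rw [coeff_natDegree, leadingCoeff_eq_zero] at h5
    exact hγ h5
  omega

end GradedTop
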