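import Mathlib

namespace GradedTop

open Equiv Equiv.Perm

/-- A permutation of `ℓ`-power order all of whose cycles are long. -/
lemma card_dvd_of_no_fixed {Y : Type*} [Fintype Y] [DecidableEq Y] (τ : Perm Y) (ℓ : ℕ)
    (hℓ : ℓ.Prime) (e κ : ℕ) (h1 : τ ^ (ℓ ^ e) = 1) (h2 : ∀ y, (τ ^ (ℓ ^ κ)) y ≠ y) :
    ℓ ^ (κ + 1) ∣ Fintype.card Y := by
  have hsupp : τ.support = Finset.univ := by
    ext y
    simp only [mem_support, Finset.mem_univ, iff_true]
    intro h
    apply h2 y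
    have : ∀ k : ℕ, (τ ^ k) y = y := by
      intro k
      induction k with
      | zero => simp
      | succ k ih => rw [pow_succ, Perm.mul_apply, h, ih]
    exact this _
  have h3 : Fintype.card Y = τ.cycleType.sum := by
    rw [sum_cycleType, hsupp, Finset.card_univ]
  rw [h3]
  refine Multiset.dvd_sum fun n hn => ?_
  have h4 : n ∣ ℓ ^ e := (dvd_of_mem_cycleType hn).trans (orderOf_dvd_of_pow_eq_one h1)
  obtain ⟨j, _, rfl⟩ := (Nat.dvd_prime_pow hℓ).1 h4
  refine pow_dvd_pow _ ?_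
  by_contra hcon
  push Not at hcon
  have hjk : j ≤ κ := by omega
  obtain ⟨c, τ', hτ, hdisj, hcyc, hcard⟩ := mem_cycleType_iff.1 hn
  obtain ⟨y, hy⟩ := hcyc.nonempty_support
  have hy' : c y ≠ y := mem_support.1 hy
  have h5 : τ' y = y := (hdisj y).resolve_left hy'
  have h6 : ∀ k : ℕ, (τ' ^ k) y = y := by
    intro k
    induction k with
    | zero => simp
    | succ k ih => rw [pow_succ, Perm.mul_apply, h5, ih]
  have h7 : c ^ (ℓ ^ κ) = 1 := by
    have : orderOf c = ℓ ^ j := by rw [hcyc.orderOf, hcard]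
    rw [← orderOf_dvd_iff_pow_eq_one, this]
    exact pow_dvd_pow _ hjk
  apply h2 y
  rw [hτ, hdisj.commute.mul_pow, Perm.mul_apply, h6, h7, Perm.one_apply]

/-- The number of elements of a finite set with a permutation `σ` of `ℓ`-power order is congruent
modulo `ℓ^{κ+1}` to the number of fixed points of `σ^{ℓ^κ}`. -/
theorem card_modEq_fixed {X : Type*} [Finite X] (σ : Perm X) (ℓ : ℕ) (hℓ : ℓ.Prime) (e κ : ℕ)
    (h1 : σ ^ (ℓ ^ e) = 1) :
    Nat.card X ≡ Nat.card {x // (σ ^ (ℓ ^ κ)) x = x} [MOD ℓ ^ (κ + 1)] := by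
  classical
  have : Fintype X := Fintype.ofFinite X
  set ρ := σ ^ (ℓ ^ κ) with hρ
  have hcomm : ∀ x, ρ (σ x) = σ (ρ x) := by
    intro x
    rw [hρ, ← Perm.mul_apply, ← Perm.mul_apply, ← pow_succ, ← pow_succ']
  have hinv : ∀ x, ρ (σ x) ≠ σ x ↔ ρ x ≠ x := by
    intro x
    rw [hcomm, Ne, Ne, σ.injective.eq_iff]
  set τ : Perm {x // ρ x ≠ x} := σ.subtypePerm hinv with hτ
  have hpow : ∀ k : ℕ, ∀ y : {x // ρ x ≠ x}, (((τ ^ k) y : {x // ρ x ≠ x}) : X) = (σ ^ k) y := by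
    intro k y
    induction k generalizing y with
    | zero => simp
    | succ k ih => rw [pow_succ, Perm.mul_apply, ih, pow_succ, Perm.mul_apply]; rfl
  have h2 := card_dvd_of_no_fixed τ ℓ hℓ e κ (by
    ext y
    rw [hpow, h1]; simp) (by
    intro y h
    have h3 := congrArg Subtype.val h
    rw [hpow] at h3
    exact y.2 h3)
  have h3 : Nat.card X = Nat.card {x // ρ x = x} + Fintype.card {x // ρ x ≠ x} := by
    rw [Nat.card_eq_fintype_card, Nat.card_eq_fintype_card, Fintype.card_subtype_compl]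
    have := Fintype.card_subtype_le (fun x => ρ x = x)
    omega
  rw [h3]
  obtain ⟨c, hc⟩ := h2
  rw [hc]
  exact (Nat.modEq_iff_dvd' (by omega)).2 ⟨c, by omega⟩ |>.symm

end GradedTop
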