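import Pool.Agent.Lib.GradedTop.Upper

namespace GradedTop

open Filter Topology IsLocalRing

section Witt

variable (p : ℕ) [hp : Fact p.Prime] (f : ℕ)

/-- The ring of Witt vectors of the field with `p ^ f` elements. -/
abbrev WR : Type := WittVector p (GaloisField p f)

lemma WR_max : maximalIdeal (WR p f) = Ideal.span {(p : WR p f)} :=
  (WittVector.irreducible p).maximalIdeal_eq

instance WR_complete : IsAdicComplete (maximalIdeal (WR p f)) (WR p f) := by
  rw [WR_max]; infer_instance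

/-- the residue field of the ring of Witt vectors -/
noncomputable def WR_res : ResidueField (WR p f) ≃+* GaloisField p f :=
  (Ideal.quotEquivOfEq (WR_max p f)).trans WittVector.quotientPEquiv

instance WR_finite : Finite (ResidueField (WR p f)) := Finite.of_equiv _ (WR_res p f).symm.toEquiv

instance WR_charP : CharP (ResidueField (WR p f)) p :=
  charP_of_injective_ringHom (f := ((WR_res p f).symm : GaloisField p f →+* ResidueField (WR p f)))
    (WR_res p f).symm.injective p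

instance WR_charZero : CharZero (WR p f) := by
  obtain ⟨c, hc⟩ := CharP.exists (WR p f)
  rcases CharP.char_is_prime_or_zero (WR p f) c with h | h
  · exfalso
    have h1 : (c : WR p f) = 0 := CharP.cast_eq_zero _ c
    have h2 : (c : GaloisField p f) = 0 := by
      have := congrArg (WittVector.constantCoeff) h1
      rwa [map_natCast, map_zero] at this
    rw [CharP.cast_eq_zero_iff (GaloisField p f) p] at h2
    have h3 : p = c := (Nat.prime_dvd_prime_iff_eq hp.out h).1 h2
    rw [← h3] at h1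
    exact (WittVector.irreducible p (k := GaloisField p f)).ne_zero h1
  · subst h
    exact CharP.charP_to_charZero _

lemma WR_resCard (hf : f ≠ 0) : resCard (WR p f) = p ^ f := by
  rw [resCard, Nat.card_congr (WR_res p f).toEquiv, GaloisField.card p f hf]

end Witt

/-- `p^{k!} → 1` in the `ℓ`-adic numbers. -/
lemma tendsto_pow_factorial (p ℓ : ℕ) [hp : Fact p.Prime] [hl : Fact ℓ.Prime] (hne : ℓ ≠ p) :
    Tendsto (fun k : ℕ => ((p ^ k.factorial : ℕ) : ℚ_[ℓ])) atTop (𝓝 1) := by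
  rw [Metric.tendsto_atTop]
  intro ε hε
  obtain ⟨j, hj⟩ := PadicInt.exists_pow_neg_lt ℓ hε
  refine ⟨(ℓ ^ j).totient, fun k hk => ?_⟩
  have hcop : Nat.Coprime p (ℓ ^ j) :=
    Nat.Coprime.pow_right _ ((Nat.coprime_primes hp.out hl.out).2 hne.symm)
  have h1 : (ℓ ^ j).totient ∣ k.factorial := by
    apply Nat.dvd_factorial _ hk
    exact Nat.totient_pos.2 (pow_pos hl.out.pos _)
  obtain ⟨c, hc⟩ := h1
  have h2 : p ^ k.factorial ≡ 1 [MOD ℓ ^ j] := by
    rw [hc, pow_mul]
    simpa using (Nat.ModEq.pow_totient hcop).pow c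
  have h3 : ((ℓ ^ j : ℕ) : ℤ) ∣ ((p ^ k.factorial : ℕ) : ℤ) - 1 := by
    have := (Nat.modEq_iff_dvd.1 h2.symm)
    simpa using this
  rw [dist_eq_norm]
  have h4 : ((p ^ k.factorial : ℕ) : ℚ_[ℓ]) - 1 = ((((p ^ k.factorial : ℕ) : ℤ) - 1 : ℤ) : ℚ_[ℓ]) := by
    push_cast; ring
  rw [h4]
  refine lt_of_le_of_lt ?_ hj
  rw [Padic.norm_int_le_pow_iff_dvd]
  exact_mod_cast h3

lemma norm_prime_pow (p ℓ : ℕ) [hp : Fact p.Prime] [hl : Fact ℓ.Prime] (hne : ℓ ≠ p) (k : ℕ) :
    ‖((p ^ k : ℕ) : ℚ_[ℓ])‖ = 1 := by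
  push_cast
  rw [norm_pow]
  have : ‖(p : ℚ_[ℓ])‖ = 1 := by
    have h1 : ¬ ‖((p : ℤ) : ℚ_[ℓ])‖ < 1 := by
      rw [Padic.norm_intCast_lt_one_iff]
      intro h
      have h2 : ℓ ∣ p := by exact_mod_cast h
      exact hne ((Nat.prime_dvd_prime_iff_eq hl.out hp.out).1 h2)
    have h2 : ‖((p : ℤ) : ℚ_[ℓ])‖ ≤ 1 := Padic.norm_int_le_one _
    have := le_antisymm h2 (not_lt.1 h1)
    simpa using this
  rw [this, one_pow]

/-- For every `(c, d)`: the topological zeta function, if nonzero, has degree at most `-r`. -/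
theorem upper_bound (c d : ℕ) (Z : RatFunc ℚ) (h : IsTop c d Z) (hZ : Z ≠ 0) :
    Z.intDegree ≤ -rk c d := by
  obtain ⟨m, t, n, χ, s₀, B, hreal, hloc⟩ := h
  obtain ⟨p, hpB, hp⟩ := Nat.exists_infinite_primes (B + 3)
  have : Fact p.Prime := ⟨hp⟩
  have : Fact (Nat.Prime 2) := ⟨Nat.prime_two⟩
  have hne : (2 : ℕ) ≠ p := by omega
  obtain ⟨h1, h2⟩ := hloc p hp (by omega)
  refine upper_bound_core t χ (rk c d) Z s₀ hreal 2 atTop (fun k => p ^ k.factorial) ?_ ?_ ?_
    (fun i k => n i (p ^ k.factorial)) (fun i => h1 2 hne i)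
    (fun k j => (numIdeals (WR p k.factorial) c d (resCard (WR p k.factorial) ^ j) : ℤ)) ?_ hZ
  · intro k
    calc 2 ≤ p ^ 1 := by rw [pow_one]; omega
      _ ≤ p ^ k.factorial := Nat.pow_le_pow_right hp.pos k.factorial_pos
  · exact tendsto_pow_factorial p 2 hne
  · intro k; exact norm_prime_pow p 2 hne _
  · intro k
    have h3 := h2 (WR p k.factorial)
    rw [WR_resCard p _ k.factorial_ne_zero] at h3
    rw [← h3, zetaSeries, WR_resCard p _ k.factorial_ne_zero]
    ext j
    simp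

end GradedTop
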