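import Pool.Agent.Lib.GradedTop.LieSys
import Pool.Agent.Lib.GradedTop.Witt
import Pool.Agent.Lib.GradedTop.Lower

namespace GradedTop

open Filter Topology IsLocalRing

/-! ### Ranks -/

lemma card_J2 (d : ℕ) : (2 : ℤ) * Fintype.card (J2 d) = (d : ℤ) ^ 2 - d := by
  have h1 : Fintype.card (J2 d) = ∑ j : Fin d, (d - 1 - (j : ℕ)) := by
    rw [Fintype.card_subtype, Finset.card_filter, Fintype.sum_prod_type_right]
    refine Finset.sum_congr rfl fun j _ => ?_
    rw [← Finset.card_filter]
    have : (Finset.univ.filter fun i : Fin d => j < i) = Finset.Ioi j := by ext i; simp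
    rw [this, Fin.card_Ioi]
  rw [h1]
  clear h1
  induction d with
  | zero => simp
  | succ d ih =>
    rw [Fin.sum_univ_succ]
    have h2 : ∀ j : Fin d, d + 1 - 1 - (j.succ : ℕ) = d - 1 - (j : ℕ) := by
      intro j; simp; omega
    simp only [h2]
    push_cast at ih ⊢
    simp only [Fin.val_zero, Nat.add_sub_cancel, Nat.sub_zero]
    linarith

lemma card_J3 (d : ℕ) : (3 : ℤ) * Fintype.card (J3 d) = (d : ℤ) ^ 3 - d := by
  have h1 : Fintype.card (J3 d) = ∑ j : Fin d, (d - 1 - (j : ℕ)) * (d - (j : ℕ)) := by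
    rw [Fintype.card_subtype, Finset.card_filter, Fintype.sum_prod_type]
    simp only [Fintype.sum_prod_type]
    rw [Finset.sum_comm]
    refine Finset.sum_congr rfl fun j _ => ?_
    have h2 : ∀ i k : Fin d, (if j < i ∧ j ≤ k then 1 else 0) =
        (if j < i then 1 else 0) * (if j ≤ k then 1 else 0) := by
      intro i k
      by_cases a : j < i <;> by_cases b : j ≤ k <;> simp [a, b]
    simp only [h2]
    rw [← Finset.sum_mul_sum, ← Finset.card_filter, ← Finset.card_filter]
    have h3 : (Finset.univ.filter fun i : Fin d => j < i) = Finset.Ioi j := by ext i; simp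
    have h4 : (Finset.univ.filter fun i : Fin d => j ≤ i) = Finset.Ici j := by ext i; simp
    rw [h3, h4, Fin.card_Ioi, Fin.card_Ici]
  rw [h1]
  clear h1
  induction d with
  | zero => simp
  | succ d ih =>
    rw [Fin.sum_univ_succ]
    have h2 : ∀ j : Fin d, (d + 1 - 1 - (j.succ : ℕ)) * (d + 1 - (j.succ : ℕ)) =
        (d - 1 - (j : ℕ)) * (d - (j : ℕ)) := by
      intro j
      have : (j : ℕ) < d := j.2
      congr 1
      · simp; omega
      · simp
    simp only [h2]
    simp only [Fin.val_zero, Nat.add_sub_cancel, Nat.sub_zero]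
    push_cast at ih ⊢
    linarith

lemma divisors_three : Nat.divisors 3 = {1, 3} := by decide
lemma divisors_two : Nat.divisors 2 = {1, 2} := by decide

lemma witt_one (d : ℕ) : witt d 1 = d := by
  simp [witt]

lemma witt_two (d : ℕ) : witt d 2 = Fintype.card (J2 d) := by
  rw [witt, divisors_two, Finset.sum_pair (by norm_num)]
  rw [ArithmeticFunction.moebius_apply_one, ArithmeticFunction.moebius_apply_prime Nat.prime_two]
  have h := card_J2 d
  norm_num
  omega

lemma witt_three (d : ℕ) : witt d 3 = Fintype.card (J3 d) := by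
  rw [witt, divisors_three, Finset.sum_pair (by norm_num)]
  rw [ArithmeticFunction.moebius_apply_one, ArithmeticFunction.moebius_apply_prime Nat.prime_three]
  have h := card_J3 d
  norm_num
  omega

lemma rk_three (d : ℕ) :
    rk 3 d = ((Fintype.card (Fin d) + Fintype.card (J2 d) + Fintype.card (J3 d) : ℕ) : ℤ) := by
  have : Finset.Icc 1 3 = ({1, 2, 3} : Finset ℕ) := by decide
  rw [rk, this, Finset.sum_insert (by decide), Finset.sum_pair (by decide), witt_one, witt_two,
    witt_three, Fintype.card_fin]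
  push_cast; ring

/-! ### Roots of unity -/

lemma exists_root (p : ℕ) [hp : Fact p.Prime] (f : ℕ) (hf : f ≠ 0) (ℓ : ℕ) (hℓ : ℓ.Prime)
    (κ c : ℕ) (hdvd : ℓ ^ (κ + c) ∣ p ^ f - 1) :
    ∃ u : (WR p f)ˣ, u ^ (ℓ ^ (κ + c)) = 1 ∧ Sep (u ^ (ℓ ^ κ)) (ℓ ^ c) := by
  obtain ⟨g, hg⟩ := IsCyclic.exists_ofOrder_eq_natCard (α := (GaloisField p f)ˣ)
  have hcard : Nat.card (GaloisField p f)ˣ = p ^ f - 1 := by
    rw [Nat.card_units, GaloisField.card p f hf]
  obtain ⟨m, hm⟩ := hdvd
  have hpos : 0 < p ^ f - 1 := by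
    have : 2 ≤ p ^ f := by
      calc 2 ≤ p := hp.out.two_le
        _ = p ^ 1 := (pow_one p).symm
        _ ≤ p ^ f := Nat.pow_le_pow_right hp.out.pos (Nat.one_le_iff_ne_zero.2 hf)
    omega
  have hm0 : m ≠ 0 := by rintro rfl; simp at hm; omega
  have hord : orderOf (g ^ m) = ℓ ^ (κ + c) := by
    rw [orderOf_pow' g hm0, hg, hcard, hm, Nat.gcd_eq_right (Dvd.intro_left _ rfl)]
    exact Nat.mul_div_cancel _ (Nat.pos_of_ne_zero hm0)
  refine ⟨Units.map (WittVector.teichmuller p) (g ^ m), ?_, ?_⟩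
  · rw [← map_pow, ← hord, pow_orderOf_eq_one, map_one]
  · intro j hj0 hj
    rw [← pow_mul, ← map_pow]
    apply WittVector.isUnit_of_coeff_zero_ne_zero
    intro h0
    have h1 : WittVector.constantCoeff ((((Units.map (WittVector.teichmuller p))
        ((g ^ m) ^ (ℓ ^ κ * j)) : (WR p f)ˣ) : WR p f) - 1) = 0 := h0
    rw [map_sub, map_one, sub_eq_zero] at h1
    have h2 : (((g ^ m) ^ (ℓ ^ κ * j) : (GaloisField p f)ˣ) : GaloisField p f) = 1 := by
      rw [← h1]
      exact (WittVector.teichmuller_coeff_zero p _).symm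
    have h3 : (g ^ m) ^ (ℓ ^ κ * j) = 1 := Units.ext h2
    have h4 := orderOf_dvd_of_pow_eq_one h3
    rw [hord, pow_add] at h4
    have h5 : ℓ ^ c ∣ j := Nat.dvd_of_mul_dvd_mul_left (pow_pos hℓ.pos _) h4
    exact absurd (Nat.le_of_dvd hj0 h5) (not_le.2 hj)

end GradedTop
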