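import Pool.Agent.Lib.GradedTop.Transfer

namespace GradedTop

open Filter Topology Polynomial

/-- The product `∏ (1 - x^a Y^b)` over a list, as a polynomial in `Y`. -/
noncomputable def DP (J : List (ℤ × ℕ)) {K : Type} [Field K] (x : K) : K[X] :=
  (J.map fun ab => 1 - C (x ^ ab.1) * X ^ ab.2).prod

section DP

variable {K : Type} [Field K]

lemma DP_nil (x : K) : DP [] x = 1 := rfl

lemma DP_cons (ab : ℤ × ℕ) (J : List (ℤ × ℕ)) (x : K) :
    DP (ab :: J) x = (1 - C (x ^ ab.1) * X ^ ab.2) * DP J x := by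
  simp [DP]

lemma DP_append (J L : List (ℤ × ℕ)) (x : K) : DP (J ++ L) x = DP J x * DP L x := by
  simp [DP]

lemma DP_perm {J L : List (ℤ × ℕ)} (h : J.Perm L) (x : K) : DP J x = DP L x :=
  (h.map _).prod_eq

lemma DP_eval (J : List (ℤ × ℕ)) (x y : K) :
    (DP J x).eval y = (J.map fun ab => 1 - x ^ ab.1 * y ^ ab.2).prod := by
  induction J with
  | nil => simp [DP_nil]
  | cons ab J ih => rw [DP_cons, eval_mul, ih]; simp

lemma DP_coe (J : List (ℤ × ℕ)) (x : K) :
    ((DP J x : K[X]) : PowerSeries K) =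
      (J.map fun ab => 1 - PowerSeries.C (x ^ ab.1) * (PowerSeries.X : PowerSeries K) ^ ab.2).prod := by
  induction J with
  | nil => simp [DP_nil]
  | cons ab J ih => rw [DP_cons, Polynomial.coe_mul, ih]; simp

lemma DP_map {L : Type} [Field L] (f : K →+* L) (J : List (ℤ × ℕ)) (x : K) :
    (DP J x).map f = DP J (f x) := by
  induction J with
  | nil => simp [DP_nil]
  | cons ab J ih => rw [DP_cons, DP_cons, Polynomial.map_mul, ih]; simp

lemma DP_natDegree (J : List (ℤ × ℕ)) (x : K) : (DP J x).natDegree ≤ (J.map Prod.snd).sum := by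
  induction J with
  | nil => simp [DP_nil]
  | cons ab J ih =>
    rw [DP_cons, List.map_cons, List.sum_cons]
    refine natDegree_mul_le.trans (add_le_add ?_ ih)
    refine (natDegree_sub_le _ _).trans ?_
    rw [natDegree_one]
    simpa using natDegree_C_mul_X_pow_le (x ^ ab.1) ab.2

lemma DP_constCoeff (J : List (ℤ × ℕ)) (hJ : ∀ ab ∈ J, 1 ≤ ab.2) (x : K) :
    PowerSeries.constantCoeff ((DP J x : K[X]) : PowerSeries K) = 1 := by
  induction J with
  | nil => simp [DP_nil]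
  | cons ab J ih =>
    rw [DP_cons, Polynomial.coe_mul, map_mul, ih (fun ab' h' => hJ ab' (List.mem_cons_of_mem _ h'))]
    have : ab.2 ≠ 0 := by have := hJ ab List.mem_cons_self; omega
    simp [this]

end DP

lemma prod_split {α M : Type*} [CommMonoid M] (l : List α) (p : α → Bool) (f : α → M) :
    (l.map f).prod = ((l.filter p).map f).prod * ((l.filter fun x => !p x).map f).prod := by
  induction l with
  | nil => simp
  | cons a l ih =>
    by_cases h : p a
    · simp [h, ih, mul_assoc]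
    · simp only [Bool.not_eq_true] at h
      simp [h, ih, mul_left_comm]

/-- denominators containing `Y` -/
def pos (t : Term) : List (ℤ × ℕ) := t.den.filter fun ab => decide (1 ≤ ab.2)

/-- denominators not containing `Y` -/
def zer (t : Term) : List (ℤ × ℕ) := t.den.filter fun ab => !decide (1 ≤ ab.2)

lemma mem_pos {t : Term} {ab : ℤ × ℕ} : ab ∈ pos t ↔ ab ∈ t.den ∧ 1 ≤ ab.2 := by
  simp [pos]

lemma mem_zer {t : Term} {ab : ℤ × ℕ} : ab ∈ zer t ↔ ab ∈ t.den ∧ ab.2 = 0 := by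
  simp [zer]

/-- constant part of the denominator -/
noncomputable def cst (t : Term) {K : Type} [Field K] (x : K) : K :=
  x ^ t.shift * ((zer t).map fun ab => 1 - x ^ ab.1).prod

/-- numerator over the common denominator -/
noncomputable def QT (t : Term) (L : List (ℤ × ℕ)) {K : Type} [Field K] [Algebra ℚ K] (x : K) :
    K[X] :=
  C ((cst t x)⁻¹) * (DP L x * t.num.map ((aeval x : ℚ[X] →ₐ[ℚ] K) : ℚ[X] →+* K))

lemma zer_prod (t : Term) {K : Type} [Field K] (x y : K) :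
    ((zer t).map fun ab => 1 - x ^ ab.1 * y ^ ab.2).prod =
      ((zer t).map fun ab => 1 - x ^ ab.1).prod := by
  congr 1
  refine List.map_congr_left fun ab hab => ?_
  rw [(mem_zer.1 hab).2]; simp

lemma zer_prod_ser (t : Term) {K : Type} [Field K] (x : K) :
    ((zer t).map fun ab =>
      1 - PowerSeries.C (x ^ ab.1) * (PowerSeries.X : PowerSeries K) ^ ab.2).prod =
      PowerSeries.C ((zer t).map fun ab => 1 - x ^ ab.1).prod := by
  rw [map_list_prod, List.map_map]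
  congr 1
  refine List.map_congr_left fun ab hab => ?_
  rw [(mem_zer.1 hab).2]; simp

lemma cst_ne (t : Term) (q : ℕ) (hq : 2 ≤ q) : cst t (q : ℚ) ≠ 0 := by
  unfold cst
  refine mul_ne_zero (pow_ne_zero _ (by positivity)) ?_
  rw [Ne, List.prod_eq_zero_iff, List.mem_map]
  rintro ⟨ab, hab, h⟩
  have h1 := mem_zer.1 hab
  have h2 : ab.1 ≠ 0 := fun h0 => t.den_ne ab h1.1 (Prod.ext h0 h1.2)
  rw [sub_eq_zero] at h
  have h3 : (1 : ℚ) < q := by exact_mod_cast (by omega : 1 < q)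
  exact h2 ((zpow_eq_one_iff_right₀ (by positivity) h3.ne').1 h.symm)

/-- The power series identity `D_J(q) * series = Q`. -/
lemma DP_mul_series (t : Term) (J L : List (ℤ × ℕ)) (hJ : J.Perm (pos t ++ L)) (q : ℕ) :
    ((DP J (q : ℚ) : ℚ[X]) : PowerSeries ℚ) * t.series (q : ℚ) =
      ((QT t L (q : ℚ) : ℚ[X]) : PowerSeries ℚ) := by
  have h1 : (t.den.map fun ab => 1 - PowerSeries.C ((q : ℚ) ^ ab.1) *
      (PowerSeries.X : PowerSeries ℚ) ^ ab.2).prod =
      ((DP (pos t) (q : ℚ) : ℚ[X]) : PowerSeries ℚ) *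
        PowerSeries.C ((zer t).map fun ab => 1 - (q : ℚ) ^ ab.1).prod := by
    rw [DP_coe, ← zer_prod_ser]
    exact prod_split _ _ _
  unfold Term.series QT
  rw [h1, DP_perm hJ, DP_append]
  have h2 : PowerSeries.C ((q : ℚ) ^ t.shift) * (((DP (pos t) (q : ℚ) : ℚ[X]) : PowerSeries ℚ) *
        PowerSeries.C ((zer t).map fun ab => 1 - (q : ℚ) ^ ab.1).prod) =
      ((DP (pos t) (q : ℚ) : ℚ[X]) : PowerSeries ℚ) * PowerSeries.C (cst t (q : ℚ)) := by
    unfold cst
    rw [map_mul]; ring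
  rw [h2, PowerSeries.mul_inv_rev, Polynomial.coe_mul, Polynomial.coe_mul, Polynomial.coe_mul,
    Polynomial.coe_C, PowerSeries.C_inv]
  have h3 : ((DP (pos t) (q : ℚ) : ℚ[X]) : PowerSeries ℚ) *
      ((DP (pos t) (q : ℚ) : ℚ[X]) : PowerSeries ℚ)⁻¹ = 1 := by
    apply PowerSeries.mul_inv_cancel
    rw [DP_constCoeff _ (fun ab h => (mem_pos.1 h).2)]
    exact one_ne_zero
  have h4 : (t.num.map ((aeval (q : ℚ) : ℚ[X] →ₐ[ℚ] ℚ) : ℚ[X] →+* ℚ)) =
      t.num.map (evalRingHom (q : ℚ)) := by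
    congr 1
  rw [h4]
  calc _ = (((DP (pos t) (q : ℚ) : ℚ[X]) : PowerSeries ℚ) *
      ((DP (pos t) (q : ℚ) : ℚ[X]) : PowerSeries ℚ)⁻¹) * (PowerSeries.C (cst t (q : ℚ))⁻¹ *
        (((DP L (q : ℚ) : ℚ[X]) : PowerSeries ℚ) *
          ((t.num.map (evalRingHom (q : ℚ)) : ℚ[X]) : PowerSeries ℚ))) := by ring
    _ = _ := by rw [h3, one_mul]

lemma cst_map (t : Term) {K : Type} [Field K] [Algebra ℚ K] (x : ℚ) :
    algebraMap ℚ K (cst t x) = cst t (algebraMap ℚ K x) := by
  unfold cst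
  rw [map_mul, map_pow, map_list_prod, List.map_map]
  congr 2
  refine List.map_congr_left fun ab _ => ?_
  rw [Function.comp_apply, map_sub, map_one, map_zpow₀]

lemma QT_map (t : Term) (L : List (ℤ × ℕ)) {K : Type} [Field K] [Algebra ℚ K] (x : ℚ) :
    (QT t L x).map (algebraMap ℚ K) = QT t L (algebraMap ℚ K x) := by
  unfold QT
  rw [Polynomial.map_mul, Polynomial.map_mul, DP_map, Polynomial.map_C, map_inv₀, cst_map,
    Polynomial.map_map]
  congr 3
  ext y <;> simp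

lemma QT_eval (t : Term) (J L : List (ℤ × ℕ)) (hJ : J.Perm (pos t ++ L)) {K : Type} [Field K]
    [Algebra ℚ K] (x y : K) (h : (DP (pos t) x).eval y ≠ 0) :
    (QT t L x).eval y = (DP J x).eval y * t.val x y := by
  unfold Term.val
  rw [prod_split t.den (fun ab => decide (1 ≤ ab.2)) (fun ab => 1 - x ^ ab.1 * y ^ ab.2)]
  change _ = _ * (_ / (x ^ t.shift * (((pos t).map fun ab => 1 - x ^ ab.1 * y ^ ab.2).prod *
    ((zer t).map fun ab => 1 - x ^ ab.1 * y ^ ab.2).prod)))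
  rw [zer_prod, ← DP_eval, DP_perm hJ, DP_append, eval_mul]
  unfold QT
  rw [eval_mul, eval_mul, eval_C, Polynomial.eval_map]
  unfold cst
  by_cases h0 : x ^ t.shift * ((zer t).map fun ab => 1 - x ^ ab.1).prod = 0
  · have h1 : x ^ t.shift * ((DP (pos t) x).eval y * ((zer t).map fun ab => 1 - x ^ ab.1).prod) = 0 := by
      rw [mul_left_comm, h0, mul_zero]
    rw [h0, h1]; simp
  · have h2 : x ^ t.shift ≠ 0 := left_ne_zero_of_mul h0
    have h3 : ((zer t).map fun ab => 1 - x ^ ab.1).prod ≠ 0 := right_ne_zero_of_mul h0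
    field_simp

lemma QT_natDegree (t : Term) (L : List (ℤ × ℕ)) {K : Type} [Field K] [Algebra ℚ K] (x : K) :
    (QT t L x).natDegree ≤ (L.map Prod.snd).sum + t.num.natDegree := by
  unfold QT
  refine (natDegree_C_mul_le _ _).trans (natDegree_mul_le.trans (add_le_add (DP_natDegree L x) ?_))
  exact natDegree_map_le

/-- `Δ(s) = ∏ (b s - a)` -/
noncomputable def Del (J : List (ℤ × ℕ)) : ℚ[X] := (J.map fun ab => C (ab.2 : ℚ) * X - C (ab.1 : ℚ)).prod

lemma Del_natDegree (J : List (ℤ × ℕ)) (hJ : ∀ ab ∈ J, 1 ≤ ab.2) :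
    Del J ≠ 0 ∧ (Del J).natDegree = J.length := by
  induction J with
  | nil => simp [Del]
  | cons ab J ih =>
    obtain ⟨h1, h2⟩ := ih (fun ab' h' => hJ ab' (List.mem_cons_of_mem _ h'))
    have h3 : (ab.2 : ℚ) ≠ 0 := by
      have := hJ ab List.mem_cons_self
      exact_mod_cast (by omega : ab.2 ≠ 0)
    have h4 : (C (ab.2 : ℚ) * X - C (ab.1 : ℚ)).natDegree = 1 := by
      rw [sub_eq_add_neg, ← C_neg]; exact natDegree_linear h3
    have h5 : C (ab.2 : ℚ) * X - C (ab.1 : ℚ) ≠ 0 := by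
      intro h; rw [h] at h4; simp at h4
    have h6 : Del (ab :: J) = (C (ab.2 : ℚ) * X - C (ab.1 : ℚ)) * Del J := by simp [Del]
    refine ⟨by rw [h6]; exact mul_ne_zero h5 h1, ?_⟩
    rw [h6, natDegree_mul h5 h1, h4, h2, List.length_cons]; ring

lemma slope_zpow {K : Type} [NontriviallyNormedField K] (m : ℤ) :
    Tendsto (fun x : K => (1 - x ^ m) / (x - 1)) (𝓝[≠] 1) (𝓝 (-(m : K))) := by
  have h := (hasDerivAt_zpow m (1 : K) (Or.inl one_ne_zero))
  rw [hasDerivAt_iff_tendsto_slope] at h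
  simp only [one_zpow, mul_one] at h
  refine (h.neg).congr fun x => ?_
  rw [slope_def_field, one_zpow, ← neg_div]
  congr 1; ring

lemma DP_tendsto {K : Type} [NontriviallyNormedField K] [Algebra ℚ K] (J : List (ℤ × ℕ)) (s : ℕ) :
    Tendsto (fun x : K => (x - 1) ^ (-(J.length : ℤ)) * (DP J x).eval (x ^ (-(s : ℤ)))) (𝓝[≠] 1)
      (𝓝 (algebraMap ℚ K ((Del J).eval (s : ℚ)))) := by
  induction J with
  | nil => simp [DP_nil, Del]
  | cons ab J ih =>
    have h6 : Del (ab :: J) = (C (ab.2 : ℚ) * X - C (ab.1 : ℚ)) * Del J := by simp [Del]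
    rw [h6, eval_mul, map_mul]
    have h1 := slope_zpow (K := K) (ab.1 - (ab.2 : ℤ) * s)
    have h2 : (-(((ab.1 - (ab.2 : ℤ) * s : ℤ)) : K)) =
        algebraMap ℚ K ((C (ab.2 : ℚ) * X - C (ab.1 : ℚ)).eval (s : ℚ)) := by
      rw [eval_sub, eval_mul, eval_C, eval_X, eval_C, map_sub, map_mul, map_natCast, map_natCast,
        map_intCast]
      push_cast; ring
    rw [h2] at h1
    refine (h1.mul ih).congr' ?_
    have hne : ∀ᶠ x : K in 𝓝[≠] 1, x ≠ 1 := eventually_nhdsWithin_of_forall fun x hx => hx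
    have hne0 : ∀ᶠ x : K in 𝓝[≠] 1, x ≠ 0 :=
      (eventually_ne_nhds (one_ne_zero)).filter_mono nhdsWithin_le_nhds
    filter_upwards [hne, hne0] with x hx hx0
    have hx' : x - 1 ≠ 0 := sub_ne_zero.2 hx
    rw [DP_cons, eval_mul, List.length_cons]
    have h3 : (x - 1) ^ (-(((J.length + 1 : ℕ)) : ℤ)) = (x - 1)⁻¹ * (x - 1) ^ (-(J.length : ℤ)) := by
      rw [← zpow_neg_one, ← zpow_add₀ hx']
      congr 1; push_cast; ring
    rw [h3]
    have h4 : (1 - C (x ^ ab.1) * X ^ ab.2 : K[X]).eval (x ^ (-(s : ℤ))) =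
        1 - x ^ (ab.1 - (ab.2 : ℤ) * s) := by
      simp only [eval_sub, eval_one, eval_mul, eval_C, eval_pow, eval_X]
      congr 1
      rw [← zpow_natCast (x ^ (-(s : ℤ))), ← zpow_mul, ← zpow_add₀ hx0]
      congr 1; ring
    rw [h4]
    ring

end GradedTop
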