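import Pool.Agent.Lib.GradedTop.Defs
import Pool.Agent.Lib.GradedTop.Perm

namespace GradedTop

open IsLocalRing Submodule

section Act

lemma card_modEq_act {S G : Type*} [Group G] (φ : G →* Equiv.Perm S) (P : S → Prop)
    [Finite {x // P x}] (hP : ∀ g x, P x → P (φ g x)) (ζ : G) (ℓ : ℕ) (hℓ : ℓ.Prime) (e κ : ℕ)
    (hζ : ζ ^ (ℓ ^ e) = 1) :
    Nat.card {x // P x} ≡ Nat.card {x // P x ∧ φ (ζ ^ (ℓ ^ κ)) x = x} [MOD ℓ ^ (κ + 1)] := by
  have hiff : ∀ x, P (φ ζ x) ↔ P x := by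
    intro x
    refine ⟨fun h => ?_, hP ζ x⟩
    have := hP ζ⁻¹ _ h
    rwa [← Equiv.Perm.mul_apply, ← map_mul, inv_mul_cancel, map_one, Equiv.Perm.one_apply] at this
  set σ : Equiv.Perm {x // P x} := (φ ζ).subtypePerm hiff with hσ
  have hpow : ∀ k : ℕ, ∀ y : {x // P x}, (((σ ^ k) y : {x // P x}) : S) = φ (ζ ^ k) y := by
    intro k y
    rw [map_pow]
    induction k generalizing y with
    | zero => simp
    | succ k ih => rw [pow_succ, Equiv.Perm.mul_apply, ih, pow_succ, Equiv.Perm.mul_apply]; rfl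
  have h1 := card_modEq_fixed σ ℓ hℓ e κ (by
    ext y
    rw [hpow, hζ]; simp)
  refine h1.trans ?_
  have h2 : Nat.card {x : {x // P x} // (σ ^ (ℓ ^ κ)) x = x} =
      Nat.card {x // P x ∧ φ (ζ ^ (ℓ ^ κ)) x = x} := by
    refine Nat.card_congr ?_
    refine
      { toFun := fun x => ⟨x.1.1, x.1.2, by
          have := congrArg Subtype.val x.2
          rwa [hpow] at this⟩
        invFun := fun x => ⟨⟨x.1, x.2.1⟩, by
          apply Subtype.ext
          rw [hpow]; exact x.2.2⟩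
        left_inv := fun x => rfl
        right_inv := fun x => rfl }
  rw [h2]

lemma card_modEq_sub {S G : Type*} [Group G] (φ : G →* Equiv.Perm S) (P Q : S → Prop)
    [Finite {x // P x}] (hP : ∀ g x, P x → P (φ g x)) (hQ : ∀ g x, Q x → Q (φ g x))
    (ζ : G) (ℓ : ℕ) (hℓ : ℓ.Prime) (e κ : ℕ)
    (hζ : ζ ^ (ℓ ^ e) = 1) (hfix : ∀ x, P x → φ (ζ ^ (ℓ ^ κ)) x = x → Q x) :
    Nat.card {x // P x} ≡ Nat.card {x // P x ∧ Q x} [MOD ℓ ^ (κ + 1)] := by
  have hfin : Finite {x // P x ∧ Q x} :=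
    Finite.of_injective (fun x : {x // P x ∧ Q x} => (⟨x.1, x.2.1⟩ : {x // P x}))
      (fun a b h => Subtype.ext (congrArg (fun z : {x // P x} => z.1) h))
  have h1 := card_modEq_act φ P hP ζ ℓ hℓ e κ hζ
  have h2 := card_modEq_act φ (fun x => P x ∧ Q x) (fun g x h => ⟨hP g x h.1, hQ g x h.2⟩)
    ζ ℓ hℓ e κ hζ
  refine h1.trans (Nat.ModEq.symm ?_)
  refine h2.trans ?_
  have h3 : Nat.card {x // (P x ∧ Q x) ∧ φ (ζ ^ (ℓ ^ κ)) x = x} =
      Nat.card {x // P x ∧ φ (ζ ^ (ℓ ^ κ)) x = x} := by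
    refine Nat.card_congr (Equiv.subtypeEquivRight fun x => ?_)
    constructor
    · rintro ⟨⟨h1, _⟩, h2⟩; exact ⟨h1, h2⟩
    · rintro ⟨h1, h2⟩; exact ⟨⟨h1, hfix x h1 h2⟩, h2⟩
  rw [h3]

end Act

section Lattice

variable {R : Type} [CommRing R] {ι : Type} [Fintype ι] [DecidableEq ι]

/-- the lattice `⊕ ϖ^{E_i} R` -/
def stdLat (ϖ : R) (E : ι → ℕ) : Submodule R (ι → R) :=
  Submodule.pi Set.univ (fun i => (Ideal.span {ϖ ^ E i} : Ideal R))

omit [Fintype ι] [DecidableEq ι] in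
lemma mem_stdLat {ϖ : R} {E : ι → ℕ} {v : ι → R} : v ∈ stdLat ϖ E ↔ ∀ i, ϖ ^ E i ∣ v i := by
  simp [stdLat, Submodule.mem_pi, Ideal.mem_span_singleton]

/-- diagonal operator -/
def dg (w : ι → ℕ) (u : Rˣ) : (ι → R) ≃ₗ[R] (ι → R) where
  toFun v i := ((u ^ w i : Rˣ) : R) * v i
  invFun v i := (((u ^ w i)⁻¹ : Rˣ) : R) * v i
  map_add' v v' := by funext i; simp [mul_add]
  map_smul' r v := by funext i; simp [mul_left_comm]
  left_inv v := by
    funext i
    change (((u ^ w i)⁻¹ : Rˣ) : R) * (((u ^ w i : Rˣ) : R) * v i) = v i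
    rw [← mul_assoc, ← Units.val_mul, inv_mul_cancel, Units.val_one, one_mul]
  right_inv v := by
    funext i
    change ((u ^ w i : Rˣ) : R) * ((((u ^ w i)⁻¹ : Rˣ) : R) * v i) = v i
    rw [← mul_assoc, ← Units.val_mul, mul_inv_cancel, Units.val_one, one_mul]

omit [Fintype ι] [DecidableEq ι] in
lemma dg_apply (w : ι → ℕ) (u : Rˣ) (v : ι → R) (i : ι) :
    dg w u v i = ((u ^ w i : Rˣ) : R) * v i := rfl

omit [Fintype ι] [DecidableEq ι] in
lemma dg_mul (w : ι → ℕ) (u u' : Rˣ) (v : ι → R) : dg w (u * u') v = dg w u (dg w u' v) := by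
  funext i; simp only [dg_apply, mul_pow, Units.val_mul, mul_assoc]

omit [Fintype ι] [DecidableEq ι] in
lemma dg_one (w : ι → ℕ) (v : ι → R) : dg w (1 : Rˣ) v = v := by
  funext i; simp [dg_apply]

/-- action on submodules -/
def lact (w : ι → ℕ) : Rˣ →* Equiv.Perm (Submodule R (ι → R)) :=
  MonoidHom.mk' (fun u =>
    { toFun := fun N => N.map (dg w u : (ι → R) →ₗ[R] (ι → R))
      invFun := fun N => N.map (dg w u⁻¹ : (ι → R) →ₗ[R] (ι → R))
      left_inv := fun N => by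
        change (N.map (dg w u : (ι → R) →ₗ[R] (ι → R))).map
          (dg w u⁻¹ : (ι → R) →ₗ[R] (ι → R)) = N
        rw [← Submodule.map_comp]
        have : (dg w u⁻¹ : (ι → R) →ₗ[R] (ι → R)) ∘ₗ (dg w u : (ι → R) →ₗ[R] (ι → R)) =
            LinearMap.id := by
          refine LinearMap.ext fun v => ?_
          change dg w u⁻¹ (dg w u v) = v
          rw [← dg_mul, inv_mul_cancel, dg_one]
        rw [this, Submodule.map_id]
      right_inv := fun N => by
        change (N.map (dg w u⁻¹ : (ι → R) →ₗ[R] (ι → R))).map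
          (dg w u : (ι → R) →ₗ[R] (ι → R)) = N
        rw [← Submodule.map_comp]
        have : (dg w u : (ι → R) →ₗ[R] (ι → R)) ∘ₗ (dg w u⁻¹ : (ι → R) →ₗ[R] (ι → R)) =
            LinearMap.id := by
          refine LinearMap.ext fun v => ?_
          change dg w u (dg w u⁻¹ v) = v
          rw [← dg_mul, mul_inv_cancel, dg_one]
        rw [this, Submodule.map_id] }) (by
    intro u u'
    ext1 N
    change N.map (dg w (u * u') : (ι → R) →ₗ[R] (ι → R)) =
      (N.map (dg w u' : (ι → R) →ₗ[R] (ι → R))).map (dg w u : (ι → R) →ₗ[R] (ι → R))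
    rw [← Submodule.map_comp]
    congr 1
    refine LinearMap.ext fun v => ?_
    exact dg_mul w u u' v)

omit [Fintype ι] [DecidableEq ι] in
lemma lact_apply (w : ι → ℕ) (u : Rˣ) (N : Submodule R (ι → R)) :
    lact w u N = N.map (dg w u : (ι → R) →ₗ[R] (ι → R)) := rfl

omit [Fintype ι] [DecidableEq ι] in
lemma cardQuot_lact (w : ι → ℕ) (u : Rˣ) (N : Submodule R (ι → R)) :
    cardQuot (lact w u N) = cardQuot N := by
  rw [cardQuot_apply, cardQuot_apply, lact_apply]
  exact (Nat.card_congr (Submodule.Quotient.equiv N _ (dg w u) rfl).toEquiv).symm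

omit [Fintype ι] [DecidableEq ι] in
lemma lact_stdLat (w : ι → ℕ) (u : Rˣ) (ϖ : R) (E : ι → ℕ) :
    lact w u (stdLat ϖ E) = stdLat ϖ E := by
  have h1 : ∀ u : Rˣ, ∀ v ∈ stdLat ϖ E, dg w u v ∈ stdLat ϖ E := by
    intro u v hv
    rw [mem_stdLat] at hv ⊢
    intro i
    rw [dg_apply]
    exact (hv i).mul_left _
  apply le_antisymm
  · rw [lact_apply, Submodule.map_le_iff_le_comap]
    intro v hv
    exact h1 u v hv
  · intro v hv
    refine ⟨dg w u⁻¹ v, h1 _ v hv, ?_⟩
    change dg w u (dg w u⁻¹ v) = v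
    rw [← dg_mul, mul_inv_cancel, dg_one]

/-- A submodule stable under a diagonal operator with separated eigenvalues is homogeneous. -/
lemma stable_single (N : Submodule R (ι → R)) (w : ι → ℕ) (u : Rˣ)
    (hN : lact w u N = N)
    (hu : ∀ i j, i ≠ j → IsUnit (((u ^ w i : Rˣ) : R) - ((u ^ w j : Rˣ) : R)))
    (v : ι → R) (hv : v ∈ N) (i : ι) : Pi.single i (v i) ∈ N := by
  have hN' : ∀ v ∈ N, dg w u v ∈ N := by
    intro v hv
    rw [← hN]
    exact ⟨v, hv, rfl⟩
  have key : ∀ s : Finset ι,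
      (fun k => (∏ j ∈ s, (((u ^ w k : Rˣ) : R) - ((u ^ w j : Rˣ) : R))) * v k) ∈ N := by
    intro s
    induction s using Finset.induction_on with
    | empty => simpa using hv
    | insert j s hj ih =>
      have h1 := N.sub_mem (hN' _ ih) (N.smul_mem (((u ^ w j : Rˣ) : R)) ih)
      convert h1 using 1
      funext k
      rw [Finset.prod_insert hj, Pi.sub_apply, Pi.smul_apply, dg_apply, smul_eq_mul]
      ring
  have h2 := key (Finset.univ.erase i)
  have hunit : IsUnit (∏ j ∈ Finset.univ.erase i, (((u ^ w i : Rˣ) : R) - ((u ^ w j : Rˣ) : R))) := by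
    rw [IsUnit.prod_iff]
    intro j hj
    exact hu i j (Finset.ne_of_mem_erase hj).symm
  obtain ⟨c, hc⟩ := hunit
  have h3 := N.smul_mem ((c⁻¹ : Rˣ) : R) h2
  convert h3 using 1
  funext k
  by_cases hk : k = i
  · subst hk
    rw [Pi.single_eq_same, Pi.smul_apply, smul_eq_mul, ← mul_assoc, ← hc]
    simp
  · rw [Pi.single_eq_of_ne hk, Pi.smul_apply, smul_eq_mul]
    rw [Finset.prod_eq_zero (i := k) (Finset.mem_erase.2 ⟨hk, Finset.mem_univ _⟩) (sub_self _)]
    simp

variable [IsDomain R] [IsDiscreteValuationRing R]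

lemma cardQuot_max : cardQuot (maximalIdeal R) = resCard R := rfl

lemma cardQuot_span_pow {ϖ : R} (hϖ : Irreducible ϖ) (n : ℕ) :
    cardQuot (Ideal.span {ϖ ^ n} : Ideal R) = resCard R ^ n := by
  rw [← Ideal.span_singleton_pow, ← hϖ.maximalIdeal_eq, cardQuot_pow_of_prime, cardQuot_max]
  exact IsDiscreteValuationRing.not_a_field R

lemma cardQuot_stdLat {ϖ : R} (hϖ : Irreducible ϖ) (E : ι → ℕ) :
    cardQuot (stdLat ϖ E) = resCard R ^ (∑ i, E i) := by
  rw [cardQuot_apply]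
  unfold stdLat
  rw [Nat.card_congr (Submodule.quotientPi (fun i => (Ideal.span {ϖ ^ E i} : Ideal R))).toEquiv,
    Nat.card_pi, ← Finset.prod_pow_eq_pow_sum]
  refine Finset.prod_congr rfl fun i _ => ?_
  rw [← cardQuot_span_pow hϖ]
  rfl

omit [DecidableEq ι] in
lemma resCard_pos [Finite (ResidueField R)] : 2 ≤ resCard R := by
  have : 1 < Nat.card (ResidueField R) := Finite.one_lt_card
  exact this

lemma index_smul_mem (N : Submodule R (ι → R)) (v : ι → R) : ((cardQuot N : ℕ) : R) • v ∈ N := by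
  have h := AddSubgroup.nsmul_index_mem N.toAddSubgroup v
  rw [Nat.cast_smul_eq_nsmul]
  exact h

lemma exists_stdLat [CharZero R] {ϖ : R} (hϖ : Irreducible ϖ) (N : Submodule R (ι → R))
    (hfin : cardQuot N ≠ 0) (hs : ∀ v ∈ N, ∀ i, Pi.single i (v i) ∈ N) :
    ∃ E : ι → ℕ, N = stdLat ϖ E := by
  have h1 : ∀ i, ∃ n : ℕ, (N.comap (LinearMap.single R (fun _ : ι => R) i) : Ideal R) =
      Ideal.span {ϖ ^ n} := by
    intro i
    refine IsDiscreteValuationRing.ideal_eq_span_pow_irreducible ?_ hϖ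
    intro h0
    have h2 : ((cardQuot N : ℕ) : R) ∈ (N.comap (LinearMap.single R (fun _ : ι => R) i) : Ideal R) := by
      have := index_smul_mem N (Pi.single i (1 : R))
      rw [Submodule.mem_comap, LinearMap.single_apply]
      convert this using 1
      funext k
      by_cases hk : k = i
      · subst hk; simp
      · simp [Pi.single_eq_of_ne hk]
    rw [h0] at h2
    have h3 : ((cardQuot N : ℕ) : R) = 0 := h2
    exact hfin (by exact_mod_cast h3)
  choose E hE using h1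
  refine ⟨E, ?_⟩
  ext v
  have hmem : ∀ i (r : R), Pi.single i r ∈ N ↔ ϖ ^ E i ∣ r := by
    intro i r
    rw [← Ideal.mem_span_singleton, ← hE i, Submodule.mem_comap, LinearMap.single_apply]
  rw [mem_stdLat]
  constructor
  · intro hv i
    rw [← hmem]; exact hs v hv i
  · intro hv
    have : v = ∑ i, Pi.single i (v i) := by
      funext k; simp
    rw [this]
    exact N.sum_mem fun i _ => (hmem i _).2 (hv i)

lemma stdLat_le_iff {ϖ : R} (hϖ : Irreducible ϖ) (E E' : ι → ℕ) :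
    stdLat ϖ E ≤ stdLat ϖ E' ↔ E' ≤ E := by
  constructor
  · intro h i
    have h1 : Pi.single i (ϖ ^ E i) ∈ stdLat ϖ E := by
      rw [mem_stdLat]
      intro k
      by_cases hk : k = i
      · subst hk; simp
      · simp [Pi.single_eq_of_ne hk]
    have h2 := mem_stdLat.1 (h h1) i
    rw [Pi.single_eq_same] at h2
    exact (pow_dvd_pow_iff hϖ.ne_zero hϖ.not_isUnit).1 h2
  · intro h v hv
    rw [mem_stdLat] at hv ⊢
    exact fun i => (pow_dvd_pow ϖ (h i)).trans (hv i)

lemma stdLat_injective {ϖ : R} (hϖ : Irreducible ϖ) :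
    Function.Injective (stdLat (ι := ι) ϖ) := by
  intro E E' h
  exact le_antisymm ((stdLat_le_iff hϖ E' E).1 h.ge) ((stdLat_le_iff hϖ E E').1 h.le)

lemma exists_stdLat_le [CharZero R] {ϖ : R} (hϖ : Irreducible ϖ) (n : ℕ) (hn : n ≠ 0) :
    ∃ a : ℕ, ∀ N : Submodule R (ι → R), cardQuot N = n → stdLat ϖ (fun _ => a) ≤ N := by
  have hn' : (n : R) ≠ 0 := by exact_mod_cast hn
  obtain ⟨a, ha⟩ := IsDiscreteValuationRing.associated_pow_irreducible hn' hϖ
  refine ⟨a, fun N hN v hv => ?_⟩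
  rw [mem_stdLat] at hv
  have h1 : ∀ i, ∃ c, v i = (n : R) * c := fun i => (ha.dvd.trans (hv i))
  choose c hc using h1
  have h2 := index_smul_mem N c
  rw [hN] at h2
  convert h2 using 1
  funext i
  rw [hc i]; rfl

lemma finite_ge {ϖ : R} (hϖ : Irreducible ϖ) [Finite (ResidueField R)] (a : ι → ℕ) :
    Finite {N : Submodule R (ι → R) // stdLat ϖ a ≤ N} := by
  have hq : Finite ((ι → R) ⧸ stdLat ϖ a) := by
    apply Nat.finite_of_card_ne_zero
    have := cardQuot_stdLat hϖ a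
    rw [cardQuot_apply] at this
    rw [this]
    have := resCard_pos (R := R)
    positivity
  refine Finite.of_injective
    (fun N : {N : Submodule R (ι → R) // stdLat ϖ a ≤ N} => N.1.map (stdLat ϖ a).mkQ) ?_
  intro N N' h
  apply Subtype.ext
  have h1 := congrArg (Submodule.comap (stdLat ϖ a).mkQ) h
  simp only [Submodule.comap_map_mkQ] at h1
  rwa [sup_eq_right.2 N.2, sup_eq_right.2 N'.2] at h1

lemma finite_cardQuot [CharZero R] [Finite (ResidueField R)] (n : ℕ) (hn : n ≠ 0) :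
    Finite {N : Submodule R (ι → R) // cardQuot N = n} := by
  obtain ⟨ϖ, hϖ⟩ := IsDiscreteValuationRing.exists_irreducible R
  obtain ⟨a, ha⟩ := exists_stdLat_le (ι := ι) hϖ n hn
  have := finite_ge (ι := ι) hϖ (fun _ => a)
  exact Finite.of_injective (fun N : {N : Submodule R (ι → R) // cardQuot N = n} =>
    (⟨N.1, ha N.1 N.2⟩ : {N : Submodule R (ι → R) // stdLat ϖ (fun _ => a) ≤ N}))
    (fun N N' h => Subtype.ext (congrArg
      (fun z : {N : Submodule R (ι → R) // stdLat ϖ (fun _ => a) ≤ N} => z.1) h))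

end Lattice

end GradedTop
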