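import Pool.Agent.Lib.GradedTop.Count

namespace GradedTop

open IsLocalRing Submodule

/-- Coordinate model of a three step graded system: brackets with `x_j` in coordinates. -/
structure Sys (R : Type) [CommRing R] (d : ℕ) (I1 I2 I3 : Type) where
  T1 : Fin d → (I1 → R) →ₗ[R] (I2 → R)
  T2 : Fin d → (I2 → R) →ₗ[R] (I3 → R)
  w0 : Fin d → ℕ
  w1 : I1 → ℕ
  w2 : I2 → ℕ
  w3 : I3 → ℕ
  c1 : ∀ (j : Fin d) (u : Rˣ) (v : I1 → R),
    ((u ^ w0 j : Rˣ) : R) • T1 j (dg w1 u v) = dg w2 u (T1 j v)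
  c2 : ∀ (j : Fin d) (u : Rˣ) (v : I2 → R),
    ((u ^ w0 j : Rˣ) : R) • T2 j (dg w2 u v) = dg w3 u (T2 j v)
  top : ⨆ j, LinearMap.range (T2 j) = ⊤
  inj1 : Function.Injective w1
  inj2 : Function.Injective w2

section

variable {R : Type} [CommRing R] {d : ℕ} {I1 I2 I3 : Type}

/-- triples of lattices forming an ideal, with index `n` -/
def Sys.P (S : Sys R d I1 I2 I3) (n : ℕ)
    (N : Submodule R (I1 → R) × Submodule R (I2 → R) × Submodule R (I3 → R)) : Prop :=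
  (∀ j, N.1.map (S.T1 j) ≤ N.2.1) ∧ (∀ j, N.2.1.map (S.T2 j) ≤ N.2.2) ∧
    cardQuot N.1 * (cardQuot N.2.1 * cardQuot N.2.2) = n

/-- the action on triples -/
def Sys.act (S : Sys R d I1 I2 I3) : Rˣ →* Equiv.Perm
    (Submodule R (I1 → R) × Submodule R (I2 → R) × Submodule R (I3 → R)) :=
  MonoidHom.mk' (fun u => (lact S.w1 u).prodCongr ((lact S.w2 u).prodCongr (lact S.w3 u))) (by
    intro a b
    rw [map_mul, map_mul, map_mul]
    rfl)

lemma Sys.act_apply (S : Sys R d I1 I2 I3) (u : Rˣ)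
    (N : Submodule R (I1 → R) × Submodule R (I2 → R) × Submodule R (I3 → R)) :
    S.act u N = (lact S.w1 u N.1, lact S.w2 u N.2.1, lact S.w3 u N.2.2) := rfl

lemma Sys.act_P (S : Sys R d I1 I2 I3) (n : ℕ) (u : Rˣ)
    (N : Submodule R (I1 → R) × Submodule R (I2 → R) × Submodule R (I3 → R)) (h : S.P n N) :
    S.P n (S.act u N) := by
  obtain ⟨h1, h2, h3⟩ := h
  have key : ∀ {A B : Type} (T : (A → R) →ₗ[R] (B → R)) (wA : A → ℕ) (wB : B → ℕ) (k : ℕ)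
      (_ : ∀ v, ((u ^ k : Rˣ) : R) • T (dg wA u v) = dg wB u (T v))
      (NA : Submodule R (A → R)) (NB : Submodule R (B → R)) (_ : NA.map T ≤ NB),
      (lact wA u NA).map T ≤ lact wB u NB := by
    intro A B T wA wB k hc NA NB hle
    rw [Submodule.map_le_iff_le_comap]
    rintro _ ⟨v, hv, rfl⟩
    rw [Submodule.mem_comap]
    change T (dg wA u v) ∈ NB.map (dg wB u : (B → R) →ₗ[R] (B → R))
    have h4 : T (dg wA u v) = (((u ^ k)⁻¹ : Rˣ) : R) • dg wB u (T v) := by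
      rw [← hc v, smul_smul, ← Units.val_mul, inv_mul_cancel, Units.val_one, one_smul]
    rw [h4]
    refine Submodule.smul_mem _ _ ⟨T v, hle ⟨v, hv, rfl⟩, rfl⟩
  refine ⟨fun j => key (S.T1 j) S.w1 S.w2 (S.w0 j) (S.c1 j u) _ _ (h1 j),
    fun j => key (S.T2 j) S.w2 S.w3 (S.w0 j) (S.c2 j u) _ _ (h2 j), ?_⟩
  change cardQuot (lact S.w1 u N.1) * (cardQuot (lact S.w2 u N.2.1) *
    cardQuot (lact S.w3 u N.2.2)) = n
  rw [cardQuot_lact, cardQuot_lact, cardQuot_lact, h3]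

end

section

variable {R : Type} [CommRing R] [IsDomain R] [IsDiscreteValuationRing R] [CharZero R]
  [Finite (ResidueField R)]
variable {d : ℕ} {I1 I2 I3 : Type} [Fintype I1] [Fintype I2] [Fintype I3]
  [DecidableEq I1] [DecidableEq I2] [DecidableEq I3]

omit [IsDomain R] [IsDiscreteValuationRing R] [Finite (ResidueField R)] [CharZero R]
  [DecidableEq I1] in
lemma dvd_smul_mem (n : ℕ) (N : Submodule R (I1 → R)) (h : cardQuot N ∣ n) (v : I1 → R) :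
    (n : R) • v ∈ N := by
  obtain ⟨c, rfl⟩ := h
  have h1 := AddSubgroup.nsmul_index_mem N.toAddSubgroup v
  have h2 : (cardQuot N : R) • v ∈ N := by rw [Nat.cast_smul_eq_nsmul]; exact h1
  rw [Nat.cast_mul, mul_comm, mul_smul]
  exact N.smul_mem _ h2

omit [DecidableEq I1] [Finite (ResidueField R)] in
lemma exists_stdLat_le' {ϖ : R} (hϖ : Irreducible ϖ) (n : ℕ) (hn : n ≠ 0) :
    ∃ a : ℕ, ∀ N : Submodule R (I1 → R), cardQuot N ∣ n → stdLat ϖ (fun _ => a) ≤ N := by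
  have hn' : (n : R) ≠ 0 := by exact_mod_cast hn
  obtain ⟨a, ha⟩ := IsDiscreteValuationRing.associated_pow_irreducible hn' hϖ
  refine ⟨a, fun N hN v hv => ?_⟩
  rw [mem_stdLat] at hv
  have h1 : ∀ i, ∃ c, v i = (n : R) * c := fun i => (ha.dvd.trans (hv i))
  choose c hc using h1
  have h2 := dvd_smul_mem n N hN c
  convert h2 using 1
  funext i
  rw [hc i]; rfl

lemma Sys.finite_P (S : Sys R d I1 I2 I3) (n : ℕ) (hn : n ≠ 0) : Finite {N // S.P n N} := by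
  obtain ⟨ϖ, hϖ⟩ := IsDiscreteValuationRing.exists_irreducible R
  obtain ⟨a1, h1⟩ := exists_stdLat_le' (I1 := I1) hϖ n hn
  obtain ⟨a2, h2⟩ := exists_stdLat_le' (I1 := I2) hϖ n hn
  obtain ⟨a3, h3⟩ := exists_stdLat_le' (I1 := I3) hϖ n hn
  have f1 := finite_ge (ι := I1) hϖ (fun _ => a1)
  have f2 := finite_ge (ι := I2) hϖ (fun _ => a2)
  have f3 := finite_ge (ι := I3) hϖ (fun _ => a3)
  refine Finite.of_injective (β := {N : Submodule R (I1 → R) // stdLat ϖ (fun _ => a1) ≤ N} ×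
    {N : Submodule R (I2 → R) // stdLat ϖ (fun _ => a2) ≤ N} ×
    {N : Submodule R (I3 → R) // stdLat ϖ (fun _ => a3) ≤ N})
    (fun N => (⟨N.1.1, h1 _ ?_⟩, ⟨N.1.2.1, h2 _ ?_⟩, ⟨N.1.2.2, h3 _ ?_⟩)) ?_
  · exact Dvd.intro _ N.2.2.2
  · exact ⟨cardQuot N.1.1 * cardQuot N.1.2.2, N.2.2.2.symm.trans (by ring)⟩
  · exact ⟨cardQuot N.1.1 * cardQuot N.1.2.1, N.2.2.2.symm.trans (by ring)⟩
  · intro N N' h
    simp only [Prod.mk.injEq, Subtype.mk.injEq] at h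
    apply Subtype.ext
    exact Prod.ext h.1 (Prod.ext h.2.1 h.2.2)

/-- first two components are coordinate lattices -/
def Sys.Q (_S : Sys R d I1 I2 I3) (ϖ : R)
    (N : Submodule R (I1 → R) × Submodule R (I2 → R) × Submodule R (I3 → R)) : Prop :=
  (∃ E1, N.1 = stdLat ϖ E1) ∧ (∃ E2, N.2.1 = stdLat ϖ E2)

lemma Sys.stepA (S : Sys R d I1 I2 I3) {ϖ : R} (hϖ : Irreducible ϖ) (k : ℕ) (u : Rˣ) (ℓ : ℕ)
    (hℓ : ℓ.Prime) (e κ : ℕ) (hu : u ^ (ℓ ^ e) = 1) (W : ℕ) (hsep : Sep (u ^ (ℓ ^ κ)) W)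
    (hW1 : ∀ i, S.w1 i < W) (hW2 : ∀ i, S.w2 i < W) :
    Nat.card {N // S.P (resCard R ^ k) N} ≡
      Nat.card {N // S.P (resCard R ^ k) N ∧ S.Q ϖ N} [MOD ℓ ^ (κ + 1)] := by
  have hq := resCard_pos (R := R)
  have hne : resCard R ^ k ≠ 0 := by positivity
  have := S.finite_P (resCard R ^ k) hne
  refine card_modEq_sub S.act _ _ (fun g N h => S.act_P _ g N h) ?_ u ℓ hℓ e κ hu ?_
  · rintro g N ⟨⟨E1, h1⟩, ⟨E2, h2⟩⟩
    rw [Sys.act_apply]
    refine ⟨⟨E1, ?_⟩, ⟨E2, ?_⟩⟩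
    · rw [h1]; exact lact_stdLat _ _ _ _
    · rw [h2]; exact lact_stdLat _ _ _ _
  · rintro N ⟨_, _, h3⟩ hfix
    rw [Sys.act_apply] at hfix
    have hf1 := congrArg (fun x => x.1) hfix
    have hf2 := congrArg (fun x => x.2.1) hfix
    have hc1 : cardQuot N.1 ≠ 0 := by
      intro h0; rw [h0, zero_mul] at h3; exact hne h3.symm
    have hc2 : cardQuot N.2.1 ≠ 0 := by
      intro h0; rw [h0, zero_mul, mul_zero] at h3; exact hne h3.symm
    exact ⟨exists_stdLat hϖ _ hc1 (fun v hv i => stable_single _ S.w1 _ hf1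
        (hsep.isUnit_sub S.w1 S.inj1 hW1) v hv i),
      exists_stdLat hϖ _ hc2 (fun v hv i => stable_single _ S.w2 _ hf2
        (hsep.isUnit_sub S.w2 S.inj2 hW2) v hv i)⟩

/-- lattice generated by the brackets of `stdLat ϖ E` -/
def Sys.L (S : Sys R d I1 I2 I3) (ϖ : R) (E : I2 → ℕ) : Submodule R (I3 → R) :=
  ⨆ j, (stdLat ϖ E).map (S.T2 j)

omit [IsDomain R] [IsDiscreteValuationRing R] [CharZero R] [Finite (ResidueField R)]
  [Fintype I1] [Fintype I2] [Fintype I3] [DecidableEq I1] [DecidableEq I2] [DecidableEq I3] in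
lemma smul_mem_stdLat (ϖ : R) (E : I2 → ℕ) (a : ℕ) (ha : ∀ i, E i ≤ a) (v : I2 → R) :
    ϖ ^ a • v ∈ stdLat ϖ E := by
  rw [mem_stdLat]
  intro i
  exact (pow_dvd_pow ϖ (ha i)).trans (Dvd.intro _ rfl)

lemma Sys.L_index (S : Sys R d I1 I2 I3) {ϖ : R} (hϖ : Irreducible ϖ) (E : I2 → ℕ) :
    cardQuot (S.L ϖ E) ≠ 0 := by
  set a := ∑ i, E i with ha
  have h1 : stdLat ϖ (fun _ : I3 => a) ≤ S.L ϖ E := by
    intro v hv
    rw [mem_stdLat] at hv
    choose c hc using hv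
    have h2 : v = ϖ ^ a • c := by funext i; rw [hc i]; rfl
    have h3 : c ∈ ⨆ j, LinearMap.range (S.T2 j) := by rw [S.top]; trivial
    have h4 : (⨆ j, LinearMap.range (S.T2 j)) ≤ (S.L ϖ E).comap (LinearMap.lsmul R _ (ϖ ^ a)) := by
      refine iSup_le fun j => ?_
      rintro _ ⟨x, rfl⟩
      rw [Submodule.mem_comap, LinearMap.lsmul_apply, ← map_smul]
      refine Submodule.mem_iSup_of_mem j ⟨ϖ ^ a • x, ?_, rfl⟩
      refine smul_mem_stdLat ϖ E a (fun i => ?_) x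
      exact Finset.single_le_sum (f := E) (fun _ _ => Nat.zero_le _) (Finset.mem_univ i)
    have h5 := h4 h3
    rw [Submodule.mem_comap, LinearMap.lsmul_apply] at h5
    rw [h2]; exact h5
  intro h0
  have h6 : (stdLat ϖ (fun _ : I3 => a)).toAddSubgroup ≤ (S.L ϖ E).toAddSubgroup := h1
  have h7 := AddSubgroup.index_dvd_of_le h6
  have h8 : (S.L ϖ E).toAddSubgroup.index = 0 := h0
  rw [h8, zero_dvd_iff] at h7
  have h9 : (stdLat ϖ (fun _ : I3 => a)).toAddSubgroup.index = _ := cardQuot_stdLat hϖ _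
  rw [h9] at h7
  have := resCard_pos (R := R)
  have h10 : resCard R ^ (∑ _i : I3, a) ≠ 0 := by positivity
  exact h10 h7

/-- index type of the decomposition -/
abbrev Sys.Base (S : Sys R d I1 I2 I3) (ϖ : R) (k : ℕ) : Type :=
  {E : (I1 → ℕ) × (I2 → ℕ) // (∀ j, (stdLat ϖ E.1).map (S.T1 j) ≤ stdLat ϖ E.2) ∧
    ∑ i, E.1 i + ∑ i, E.2 i ≤ k}

lemma Sys.finite_base (S : Sys R d I1 I2 I3) (ϖ : R) (k : ℕ) : Finite (S.Base ϖ k) := by
  refine Finite.of_injective (β := (I1 → Fin (k + 1)) × (I2 → Fin (k + 1)))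
    (fun E => (fun i => ⟨E.1.1 i, ?_⟩, fun i => ⟨E.1.2 i, ?_⟩)) ?_
  · have h1 := E.2.2
    have h2 : E.1.1 i ≤ ∑ i, E.1.1 i :=
      Finset.single_le_sum (f := E.1.1) (fun _ _ => Nat.zero_le _) (Finset.mem_univ i)
    omega
  · have h1 := E.2.2
    have h2 : E.1.2 i ≤ ∑ i, E.1.2 i :=
      Finset.single_le_sum (f := E.1.2) (fun _ _ => Nat.zero_le _) (Finset.mem_univ i)
    omega
  · intro E E' h
    apply Subtype.ext
    simp only [Prod.mk.injEq] at h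
    refine Prod.ext ?_ ?_
    · funext i
      exact congrArg Fin.val (congrFun h.1 i)
    · funext i
      exact congrArg Fin.val (congrFun h.2 i)

/-- decomposition of the set of ideals with split first two components -/
lemma Sys.decomp (S : Sys R d I1 I2 I3) {ϖ : R} (hϖ : Irreducible ϖ) (k : ℕ) :
    Nat.card {N // S.P (resCard R ^ k) N ∧ S.Q ϖ N} =
      Nat.card (Σ E : S.Base ϖ k, {N : Submodule R (I3 → R) // S.L ϖ E.1.2 ≤ N ∧
        cardQuot N = resCard R ^ (k - (∑ i, E.1.1 i + ∑ i, E.1.2 i))}) := by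
  have hq := resCard_pos (R := R)
  have hidx : ∀ x : (Σ E : S.Base ϖ k, {N : Submodule R (I3 → R) // S.L ϖ E.1.2 ≤ N ∧
        cardQuot N = resCard R ^ (k - (∑ i, E.1.1 i + ∑ i, E.1.2 i))}),
      cardQuot (stdLat ϖ x.1.1.1) * (cardQuot (stdLat ϖ x.1.1.2) * cardQuot x.2.1) =
        resCard R ^ k := by
    intro x
    rw [cardQuot_stdLat hϖ, cardQuot_stdLat hϖ, x.2.2.2, ← pow_add, ← pow_add]
    congr 1
    have := x.1.2.2
    omega
  refine (Nat.card_congr (Equiv.ofBijective (fun x => ⟨(stdLat ϖ x.1.1.1, stdLat ϖ x.1.1.2, x.2.1),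
    ⟨x.1.2.1, fun j => (le_iSup (fun j => (stdLat ϖ x.1.1.2).map (S.T2 j)) j).trans x.2.2.1,
      hidx x⟩, ⟨x.1.1.1, rfl⟩, ⟨x.1.1.2, rfl⟩⟩) ⟨?_, ?_⟩)).symm
  · rintro ⟨⟨⟨E1, E2⟩, hE⟩, N, hN⟩ ⟨⟨⟨E1', E2'⟩, hE'⟩, N', hN'⟩ h
    have h1 := congrArg Subtype.val h
    simp only [Prod.mk.injEq] at h1
    obtain ⟨ha, hb, hc⟩ := h1
    have ha' := stdLat_injective hϖ ha
    have hb' := stdLat_injective hϖ hb
    subst ha'; subst hb'; subst hc
    rfl
  · rintro ⟨⟨N1, N2, N3⟩, ⟨h1, h2, h3⟩, ⟨E1, hE1⟩, ⟨E2, hE2⟩⟩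
    change N1 = _ at hE1
    change N2 = _ at hE2
    subst hE1; subst hE2
    change cardQuot (stdLat ϖ E1) * (cardQuot (stdLat ϖ E2) * cardQuot N3) = _ at h3
    rw [cardQuot_stdLat hϖ, cardQuot_stdLat hϖ, ← mul_assoc, ← pow_add] at h3
    have h4 : resCard R ^ (∑ i, E1 i + ∑ i, E2 i) ∣ resCard R ^ k := Dvd.intro _ h3
    have h5 : ∑ i, E1 i + ∑ i, E2 i ≤ k :=
      (Nat.pow_dvd_pow_iff_le_right (by omega : 1 < resCard R)).1 h4
    have h6 : cardQuot N3 = resCard R ^ (k - (∑ i, E1 i + ∑ i, E2 i)) := by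
      have h7 : resCard R ^ (∑ i, E1 i + ∑ i, E2 i) * cardQuot N3 =
          resCard R ^ (∑ i, E1 i + ∑ i, E2 i) * resCard R ^ (k - (∑ i, E1 i + ∑ i, E2 i)) := by
        rw [h3, ← pow_add]; congr 1; omega
      exact Nat.eq_of_mul_eq_mul_left (by positivity) h7
    exact ⟨⟨⟨(E1, E2), h1, h5⟩, N3, iSup_le h2, h6⟩, rfl⟩

end

end GradedTop
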