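import Pool.Agent.Lib.GradedTop.Sys

namespace GradedTop

open IsLocalRing Submodule

/-- exponents in the dominating region -/
def Reg (I1 I2 I3 : Type) [Fintype I1] [Fintype I2] [Fintype I3] (M k : ℕ) : Type :=
  {E : (I1 → ℕ) × (I2 → ℕ) × (I3 → ℕ) // (∀ i, 2 * M ≤ E.1 i ∧ E.1 i < 3 * M) ∧
    (∀ i, M ≤ E.2.1 i ∧ E.2.1 i < 2 * M) ∧ (∀ i, E.2.2 i < M) ∧
    ∑ i, E.1 i + ∑ i, E.2.1 i + ∑ i, E.2.2 i = k}

lemma finite_bounded_sum {ι : Type} [Fintype ι] (ε : ι → ℕ) (m : ℕ) :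
    Finite {E : ι → ℕ // E ≤ ε ∧ ∑ i, E i = m} := by
  refine Finite.of_injective (β := ι → Fin (m + 1)) (fun E i => ⟨E.1 i, ?_⟩) ?_
  · have h1 : E.1 i ≤ ∑ i, E.1 i :=
      Finset.single_le_sum (f := E.1) (fun _ _ => Nat.zero_le _) (Finset.mem_univ i)
    have := E.2.2
    omega
  · intro E E' h
    apply Subtype.ext
    funext i
    exact congrArg Fin.val (congrFun h i)

variable {R : Type} [CommRing R] [IsDomain R] [IsDiscreteValuationRing R] [CharZero R]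
  [Finite (ResidueField R)]
variable {d : ℕ} {I1 I2 I3 : Type} [Fintype I1] [Fintype I2] [Fintype I3]
  [DecidableEq I1] [DecidableEq I2] [DecidableEq I3]

theorem Sys.count (S : Sys R d I1 I2 I3) {ϖ : R} (hϖ : Irreducible ϖ) :
    ∃ A : ℕ → ℕ,
      (∀ k, A k ≤ (k + 1) ^ (Fintype.card I1 + Fintype.card I2 + Fintype.card I3)) ∧
      (∀ M k, Nat.card (Reg I1 I2 I3 M k) ≤ A k) ∧
      ∀ (k : ℕ) (u : Rˣ) (ℓ : ℕ) (_ : ℓ.Prime) (e κ : ℕ) (_ : u ^ (ℓ ^ e) = 1) (W : ℕ)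
        (_ : Sep (u ^ (ℓ ^ κ)) W) (_ : ∀ i, S.w1 i < W) (_ : ∀ i, S.w2 i < W)
        (_ : Fintype.card I3 ≤ W),
        Nat.card {N // S.P (resCard R ^ k) N} ≡ A k [MOD ℓ ^ (κ + 1)] := by
  have hq := resCard_pos (R := R)
  choose ε hε1 hε2 using fun E : I2 → ℕ => count_super hϖ (S.L ϖ E) (S.L_index hϖ E)
  have hfin : ∀ k, Finite (Σ E : S.Base ϖ k, {E3 : I3 → ℕ // E3 ≤ ε E.1.2 ∧
      ∑ i, E3 i = k - (∑ i, E.1.1 i + ∑ i, E.1.2 i)}) := by
    intro k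
    have := S.finite_base ϖ k
    have : ∀ E : S.Base ϖ k, Finite {E3 : I3 → ℕ // E3 ≤ ε E.1.2 ∧
      ∑ i, E3 i = k - (∑ i, E.1.1 i + ∑ i, E.1.2 i)} := fun E => finite_bounded_sum _ _
    infer_instance
  refine ⟨fun k => Nat.card (Σ E : S.Base ϖ k, {E3 : I3 → ℕ // E3 ≤ ε E.1.2 ∧
      ∑ i, E3 i = k - (∑ i, E.1.1 i + ∑ i, E.1.2 i)}), ?_, ?_, ?_⟩
  · intro k
    have h1 : (k + 1) ^ (Fintype.card I1 + Fintype.card I2 + Fintype.card I3) =
        Nat.card ((I1 → Fin (k + 1)) × (I2 → Fin (k + 1)) × (I3 → Fin (k + 1))) := by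
      simp [pow_add, mul_assoc]
    rw [h1]
    refine Nat.card_le_card_of_injective (fun x => (fun i => ⟨x.1.1.1 i, ?_⟩,
      fun i => ⟨x.1.1.2 i, ?_⟩, fun i => ⟨x.2.1 i, ?_⟩)) ?_
    · have h1 := x.1.2.2
      have h2 : x.1.1.1 i ≤ ∑ i, x.1.1.1 i :=
        Finset.single_le_sum (f := x.1.1.1) (fun _ _ => Nat.zero_le _) (Finset.mem_univ i)
      omega
    · have h1 := x.1.2.2
      have h2 : x.1.1.2 i ≤ ∑ i, x.1.1.2 i :=
        Finset.single_le_sum (f := x.1.1.2) (fun _ _ => Nat.zero_le _) (Finset.mem_univ i)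
      omega
    · have h1 := x.2.2.2
      have h2 : x.2.1 i ≤ ∑ i, x.2.1 i :=
        Finset.single_le_sum (f := x.2.1) (fun _ _ => Nat.zero_le _) (Finset.mem_univ i)
      omega
    · rintro ⟨⟨⟨E1, E2⟩, hE⟩, E3, h3⟩ ⟨⟨⟨E1', E2'⟩, hE'⟩, E3', h3'⟩ h
      simp only [Prod.mk.injEq] at h
      have ha : E1 = E1' := by funext i; exact congrArg Fin.val (congrFun h.1 i)
      have hb : E2 = E2' := by funext i; exact congrArg Fin.val (congrFun h.2.1 i)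
      have hc : E3 = E3' := by funext i; exact congrArg Fin.val (congrFun h.2.2 i)
      subst ha; subst hb; subst hc
      rfl
  · intro M k
    have hf := hfin k
    have key : ∀ {A B : Type} (T : (A → R) →ₗ[R] (B → R)) (a : ℕ) (EA : A → ℕ) (EB : B → ℕ)
        (_ : ∀ i, a ≤ EA i) (_ : ∀ i, EB i ≤ a), (stdLat ϖ EA).map T ≤ stdLat ϖ EB := by
      intro A B T a EA EB h1 h2
      rw [Submodule.map_le_iff_le_comap]
      intro v hv
      rw [mem_stdLat] at hv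
      have h3 : ∀ i, ∃ c, v i = ϖ ^ a * c := fun i => (pow_dvd_pow ϖ (h1 i)).trans (hv i)
      choose c hc using h3
      have h4 : v = ϖ ^ a • c := by funext i; rw [hc i]; rfl
      rw [Submodule.mem_comap, h4, map_smul, mem_stdLat]
      intro i
      exact (pow_dvd_pow ϖ (h2 i)).trans (Dvd.intro _ rfl)
    have hL : ∀ E2 : I2 → ℕ, (∀ i, M ≤ E2 i) → ∀ i, M ≤ ε E2 i := by
      intro E2 h2
      apply hε1 E2 M
      intro v hv i
      have h3 : S.L ϖ E2 ≤ stdLat ϖ (fun _ => M) :=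
        iSup_le fun j => key (S.T2 j) M _ _ h2 (fun _ => le_rfl)
      exact mem_stdLat.1 (h3 hv) i
    refine Nat.card_le_card_of_injective (fun x : Reg I1 I2 I3 M k =>
      (⟨⟨(x.1.1, x.1.2.1), ?_, ?_⟩, ⟨x.1.2.2, ?_, ?_⟩⟩ :
        Σ E : S.Base ϖ k, {E3 : I3 → ℕ // E3 ≤ ε E.1.2 ∧
          ∑ i, E3 i = k - (∑ i, E.1.1 i + ∑ i, E.1.2 i)})) ?_
    · intro j
      exact key (S.T1 j) (2 * M) _ _ (fun i => (x.2.1 i).1) (fun i => (x.2.2.1 i).2.le)
    · have := x.2.2.2.2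
      change ∑ i, x.1.1 i + ∑ i, x.1.2.1 i ≤ k
      omega
    · intro i
      exact (x.2.2.2.1 i).le.trans (hL x.1.2.1 (fun i => (x.2.2.1 i).1) i)
    · have := x.2.2.2.2
      change ∑ i, x.1.2.2 i = k - (∑ i, x.1.1 i + ∑ i, x.1.2.1 i)
      omega
    · rintro ⟨⟨E1, E2, E3⟩, h⟩ ⟨⟨E1', E2', E3'⟩, h'⟩ hxy
      have h1 : E1 = E1' := congrArg (fun y => y.1.1.1) hxy
      have h2 : E2 = E2' := congrArg (fun y => y.1.1.2) hxy
      have h3 : E3 = E3' := by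
        have := congrArg (fun y => y.2.1) hxy
        exact this
      subst h1; subst h2; subst h3
      rfl
  · intro k u ℓ hℓ e κ hu W hsep hW1 hW2 hW3
    refine (S.stepA hϖ k u ℓ hℓ e κ hu W hsep hW1 hW2).trans ?_
    rw [S.decomp hϖ k]
    have hfb := S.finite_base ϖ k
    have : Fintype (S.Base ϖ k) := Fintype.ofFinite _
    have hf1 : ∀ E : S.Base ϖ k, Finite {N : Submodule R (I3 → R) // S.L ϖ E.1.2 ≤ N ∧
        cardQuot N = resCard R ^ (k - (∑ i, E.1.1 i + ∑ i, E.1.2 i))} := by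
      intro E
      have := finite_cardQuot (R := R) (ι := I3)
        (resCard R ^ (k - (∑ i, E.1.1 i + ∑ i, E.1.2 i))) (by positivity)
      exact Finite.of_injective (fun N : {N : Submodule R (I3 → R) // S.L ϖ E.1.2 ≤ N ∧
        cardQuot N = resCard R ^ (k - (∑ i, E.1.1 i + ∑ i, E.1.2 i))} =>
        (⟨N.1, N.2.2⟩ : {N : Submodule R (I3 → R) //
          cardQuot N = resCard R ^ (k - (∑ i, E.1.1 i + ∑ i, E.1.2 i))}))
        (fun N N' h => Subtype.ext (congrArg (fun z : {N : Submodule R (I3 → R) //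
          cardQuot N = resCard R ^ (k - (∑ i, E.1.1 i + ∑ i, E.1.2 i))} => z.1) h))
    have hf2 : ∀ E : S.Base ϖ k, Finite {E3 : I3 → ℕ // E3 ≤ ε E.1.2 ∧
      ∑ i, E3 i = k - (∑ i, E.1.1 i + ∑ i, E.1.2 i)} := fun E => finite_bounded_sum _ _
    beta_reduce
    rw [Nat.card_sigma, Nat.card_sigma, ← ZMod.natCast_eq_natCast_iff, Nat.cast_sum, Nat.cast_sum]
    refine Finset.sum_congr rfl fun E _ => ?_
    rw [ZMod.natCast_eq_natCast_iff]
    refine hε2 E.1.2 _ u ℓ hℓ e κ hu ?_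
    intro j hj1 hj2
    exact hsep j hj1 (by omega)

end GradedTop
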