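import Pool.Agent.Lib.GradedTop.Defs

namespace GradedTop

open Filter Topology Polynomial

/-! ### Values of terms along `y = x^{-s}` are rational functions of `x` -/

section Ratio

lemma sum_shift (P : Polynomial (Polynomial ℚ)) (s : ℕ) {K : Type} [Field K] [Algebra ℚ K]
    (x : K) (hx : x ≠ 0) :
    P.eval₂ ((aeval x : ℚ[X] →ₐ[ℚ] K) : ℚ[X] →+* K) (x ^ (-(s : ℤ))) =
      aeval x (∑ k ∈ Finset.range (P.natDegree + 1), P.coeff k * X ^ (s * (P.natDegree - k))) /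
        aeval x ((X : ℚ[X]) ^ (s * P.natDegree)) := by
  rw [eval₂_eq_sum_range, map_sum]
  simp only [map_mul, map_pow, aeval_X]
  rw [Finset.sum_div]
  refine Finset.sum_congr rfl fun k hk => ?_
  have hk' : k ≤ P.natDegree := by
    have := Finset.mem_range.1 hk; omega
  obtain ⟨m, hm⟩ := Nat.exists_eq_add_of_le hk'
  rw [hm, Nat.add_sub_cancel_left, Nat.mul_add, pow_add, mul_div_assoc]
  have h1 : x ^ (s * m) / (x ^ (s * k) * x ^ (s * m)) = (x ^ (-(s : ℤ))) ^ k := by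
    rw [div_mul_cancel_right₀ (pow_ne_zero _ hx), zpow_neg, zpow_natCast, inv_pow, ← pow_mul]
  rw [h1]
  rfl

lemma one_sub_ratio (m : ℤ) (hm : m ≠ 0) : ∃ N D : ℚ[X], N ≠ 0 ∧ D ≠ 0 ∧
    ∀ (K : Type) [Field K] [Algebra ℚ K] (x : K), x ≠ 0 → 1 - x ^ m = aeval x N / aeval x D := by
  refine ⟨X ^ ((-m).toNat) - X ^ (m.toNat), X ^ ((-m).toNat), ?_, pow_ne_zero _ X_ne_zero, ?_⟩
  · intro h
    rw [sub_eq_zero] at h
    have := congrArg Polynomial.natDegree h
    simp only [natDegree_pow, natDegree_X, mul_one] at this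
    omega
  · intro K _ _ x hx
    simp only [map_sub, map_pow, aeval_X]
    rw [sub_div, div_self (pow_ne_zero _ hx)]
    congr 1
    rw [← zpow_natCast, ← zpow_natCast, ← zpow_sub₀ hx]
    congr 1
    omega

lemma prod_ratio (s : ℕ) (J : List (ℤ × ℕ)) (hJ : ∀ ab ∈ J, ab.1 - (ab.2 : ℤ) * s ≠ 0) :
    ∃ N D : ℚ[X], N ≠ 0 ∧ D ≠ 0 ∧
    ∀ (K : Type) [Field K] [Algebra ℚ K] (x : K), x ≠ 0 →
      (J.map fun ab => 1 - x ^ ab.1 * (x ^ (-(s : ℤ))) ^ ab.2).prod = aeval x N / aeval x D := by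
  induction J with
  | nil => exact ⟨1, 1, one_ne_zero, one_ne_zero, fun K _ _ x _ => by simp⟩
  | cons ab J ih =>
    obtain ⟨N, D, hN, hD, h⟩ := ih (fun ab' h' => hJ ab' (List.mem_cons_of_mem _ h'))
    obtain ⟨N', D', hN', hD', h'⟩ := one_sub_ratio (ab.1 - (ab.2 : ℤ) * s)
      (hJ ab List.mem_cons_self)
    refine ⟨N' * N, D' * D, mul_ne_zero hN' hN, mul_ne_zero hD' hD, ?_⟩
    intro K _ _ x hx
    rw [List.map_cons, List.prod_cons, h K x hx, map_mul, map_mul, mul_div_mul_comm,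
      ← h' K x hx]
    congr 2
    rw [← zpow_natCast (x ^ (-(s : ℤ))), ← zpow_mul, ← zpow_add₀ hx]
    congr 1
    ring

lemma val_ratio (t : Term) (s : ℕ) (hs : ∀ ab ∈ t.den, ab.1 - (ab.2 : ℤ) * s ≠ 0) :
    ∃ N D : ℚ[X], D ≠ 0 ∧ ∀ (K : Type) [Field K] [Algebra ℚ K] (x : K), x ≠ 0 →
      t.val x (x ^ (-(s : ℤ))) = aeval x N / aeval x D := by
  obtain ⟨N, D, hN, hD, h⟩ := prod_ratio s t.den hs
  refine ⟨(∑ k ∈ Finset.range (t.num.natDegree + 1),
    t.num.coeff k * X ^ (s * (t.num.natDegree - k))) * D,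
    X ^ (s * t.num.natDegree) * (X ^ t.shift * N), ?_, ?_⟩
  · exact mul_ne_zero (pow_ne_zero _ X_ne_zero) (mul_ne_zero (pow_ne_zero _ X_ne_zero) hN)
  · intro K _ _ x hx
    unfold Term.val
    rw [sum_shift t.num s x hx, h K x hx, map_mul, map_mul, map_mul]
    have h3 : (aeval x) ((X : ℚ[X]) ^ t.shift) = x ^ t.shift := by simp
    rw [h3, div_div]
    rw [← mul_div_assoc, mul_div_assoc', div_div_eq_mul_div]

end Ratio

/-! ### Transfer of limits -/

section Transfer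

lemma factor_one (N : ℚ[X]) (hN : N ≠ 0) : ∃ (a : ℕ) (N' : ℚ[X]), N = (X - C 1) ^ a * N' ∧
    N'.eval 1 ≠ 0 := by
  obtain ⟨q, hq, hnd⟩ := Polynomial.exists_eq_pow_rootMultiplicity_mul_and_not_dvd N hN 1
  refine ⟨_, q, hq, ?_⟩
  rwa [Polynomial.dvd_iff_isRoot] at hnd

lemma tendsto_ratio {K : Type} [Field K] [TopologicalSpace K] [IsTopologicalDivisionRing K]
    [Algebra ℚ K] (a : ℕ) (N D : ℚ[X]) (hD : D.eval 1 ≠ 0) :
    Tendsto (fun x : K => (x - 1) ^ a * (aeval x N / aeval x D)) (𝓝 1)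
      (𝓝 (algebraMap ℚ K (0 ^ a * (N.eval 1 / D.eval 1)))) := by
  have h1 : ∀ P : ℚ[X], Tendsto (fun x : K => aeval x P) (𝓝 1) (𝓝 (algebraMap ℚ K (P.eval 1))) := by
    intro P
    have := (P.continuous_aeval (A := K)).tendsto 1
    convert this using 2
    rw [← Polynomial.aeval_algebraMap_apply_eq_algebraMap_eval, map_one]
  have h2 : Tendsto (fun x : K => (x - 1) ^ a) (𝓝 1) (𝓝 (algebraMap ℚ K (0 ^ a))) := by
    have : Continuous fun x : K => (x - 1) ^ a := by fun_prop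
    convert this.tendsto 1 using 2
    simp
  rw [map_mul, map_div₀]
  refine h2.mul ((h1 N).div (h1 D) ?_)
  rw [Ne, map_eq_zero]
  exact hD

/-- The value at `1` of a rational function with a finite real limit from the right. -/
lemma transfer (r : ℤ) (N D : ℚ[X]) (hD : D ≠ 0) (z : ℝ)
    (hz : Tendsto (fun x : ℝ => (x - 1) ^ r * (aeval x N / aeval x D)) (𝓝[>] 1) (𝓝 z)) :
    ∃ w : ℚ, z = w ∧ ∀ (K : Type) [Field K] [TopologicalSpace K] [IsTopologicalDivisionRing K]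
      [Algebra ℚ K],
      Tendsto (fun x : K => (x - 1) ^ r * (aeval x N / aeval x D)) (𝓝[≠] 1)
        (𝓝 (algebraMap ℚ K w)) := by
  by_cases hN : N = 0
  · subst hN
    refine ⟨0, ?_, ?_⟩
    · simp only [map_zero, zero_div, mul_zero] at hz
      rw [tendsto_nhds_unique hz tendsto_const_nhds]; simp
    · intro K _ _ _ _
      simp only [map_zero, zero_div, mul_zero]
      exact tendsto_const_nhds
  obtain ⟨a, N', hN', hN1⟩ := factor_one N hN
  obtain ⟨b, D', hD', hD1⟩ := factor_one D hD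
  have key : ∀ (K : Type) [Field K] [Algebra ℚ K] (x : K), x ≠ 1 →
      (x - 1) ^ r * (aeval x N / aeval x D) =
        (x - 1) ^ (r + a - b) * (aeval x N' / aeval x D') := by
    intro K _ _ x hx
    have hx' : x - 1 ≠ 0 := sub_ne_zero.2 hx
    rw [hN', hD']
    simp only [map_mul, map_pow, map_sub, aeval_X, map_one]
    rw [mul_div_mul_comm, zpow_sub₀ hx', zpow_add₀ hx', zpow_natCast, zpow_natCast]
    ring
  have hself : (𝓝[>] (1:ℝ)) ≤ 𝓝[≠] 1 := nhdsWithin_mono _ (fun x hx => ne_of_gt hx)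
  have hreal : ∀ᶠ x : ℝ in 𝓝[>] 1, x ≠ 1 := eventually_nhdsWithin_of_forall fun x hx => ne_of_gt hx
  have he : 0 ≤ r + a - b := by
    by_contra hneg
    push Not at hneg
    obtain ⟨m, hm⟩ : ∃ m : ℕ, r + a - b = -((m : ℤ) + 1) := ⟨(-(r + a - b) - 1).toNat, by omega⟩
    have h1 : Tendsto (fun x : ℝ => (x - 1) ^ (m + 1) *
        ((x - 1) ^ r * (aeval x N / aeval x D))) (𝓝[>] 1) (𝓝 (0 * z)) := by
      refine Tendsto.mul ?_ hz
      have : Continuous fun x : ℝ => (x - 1) ^ (m + 1) := by fun_prop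
      have h := this.tendsto 1
      simp only [sub_self, ne_eq, Nat.add_eq_zero_iff, one_ne_zero, and_false, not_false_eq_true,
        zero_pow] at h
      exact h.mono_left nhdsWithin_le_nhds
    have h2 : Tendsto (fun x : ℝ => (x - 1) ^ 0 * (aeval x N' / aeval x D')) (𝓝[>] 1)
        (𝓝 (algebraMap ℚ ℝ (0 ^ 0 * (N'.eval 1 / D'.eval 1)))) :=
      (tendsto_ratio 0 N' D' hD1).mono_left nhdsWithin_le_nhds
    have h3 : (fun x : ℝ => (x - 1) ^ (m + 1) *
        ((x - 1) ^ r * (aeval x N / aeval x D))) =ᶠ[𝓝[>] 1]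
        (fun x : ℝ => (x - 1) ^ 0 * (aeval x N' / aeval x D')) := by
      filter_upwards [hreal] with x hx
      have hx' : x - 1 ≠ 0 := sub_ne_zero.2 hx
      rw [key ℝ x hx, hm, ← mul_assoc, ← zpow_natCast, ← zpow_add₀ hx']
      simp
    have h4 := tendsto_nhds_unique (h1.congr' h3) h2
    simp only [zero_mul, pow_zero, one_mul] at h4
    have h5 : N'.eval 1 / D'.eval 1 = 0 := by
      rw [← map_eq_zero (algebraMap ℚ ℝ)]; exact h4.symm
    rw [div_eq_zero_iff] at h5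
    exact h5.elim hN1 hD1
  obtain ⟨m, hm⟩ : ∃ m : ℕ, r + a - b = (m : ℤ) := ⟨(r + a - b).toNat, by omega⟩
  refine ⟨0 ^ m * (N'.eval 1 / D'.eval 1), ?_, ?_⟩
  · refine tendsto_nhds_unique hz ?_
    have h2 : Tendsto (fun x : ℝ => (x - 1) ^ m * (aeval x N' / aeval x D')) (𝓝[>] 1)
        (𝓝 (algebraMap ℚ ℝ (0 ^ m * (N'.eval 1 / D'.eval 1)))) :=
      (tendsto_ratio m N' D' hD1).mono_left nhdsWithin_le_nhds
    refine (h2.congr' ?_).trans (le_of_eq ?_)
    · filter_upwards [hreal] with x hx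
      rw [key ℝ x hx, hm, zpow_natCast]
    · simp
  · intro K _ _ _ _
    have h2 : Tendsto (fun x : K => (x - 1) ^ m * (aeval x N' / aeval x D')) (𝓝[≠] 1)
        (𝓝 (algebraMap ℚ K (0 ^ m * (N'.eval 1 / D'.eval 1)))) :=
      (tendsto_ratio m N' D' hD1).mono_left nhdsWithin_le_nhds
    refine h2.congr' ?_
    have : ∀ᶠ x : K in 𝓝[≠] 1, x ≠ 1 := eventually_nhdsWithin_of_forall fun x hx => hx
    filter_upwards [this] with x hx
    rw [key K x hx, hm, zpow_natCast]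

end Transfer

end GradedTop
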