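import Pool.Agent.Lib.GradedTop.Vander

namespace GradedTop

open Filter Topology Polynomial

section Norm

variable {ℓ : ℕ} [Fact ℓ.Prime]

lemma norm_sum_le_one {ι : Type*} (s : Finset ι) (f : ι → ℚ_[ℓ]) (hf : ∀ i ∈ s, ‖f i‖ ≤ 1) :
    ‖∑ i ∈ s, f i‖ ≤ 1 :=
  IsUltrametricDist.norm_sum_le_of_forall_le_of_nonneg zero_le_one hf

lemma norm_coeff_mul (f g : PowerSeries ℚ_[ℓ]) (hf : ∀ n, ‖PowerSeries.coeff n f‖ ≤ 1)
    (hg : ∀ n, ‖PowerSeries.coeff n g‖ ≤ 1) (n : ℕ) : ‖PowerSeries.coeff n (f * g)‖ ≤ 1 := by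
  rw [PowerSeries.coeff_mul]
  refine norm_sum_le_one _ _ fun x _ => ?_
  rw [norm_mul]
  exact mul_le_one₀ (hf _) (norm_nonneg _) (hg _)

lemma norm_coeff_DP (J : List (ℤ × ℕ)) (x : ℚ_[ℓ]) (hx : ‖x‖ = 1) (n : ℕ) :
    ‖PowerSeries.coeff n ((DP J x : ℚ_[ℓ][X]) : PowerSeries ℚ_[ℓ])‖ ≤ 1 := by
  induction J generalizing n with
  | nil =>
    rw [DP_nil, Polynomial.coe_one, PowerSeries.coeff_one]
    split_ifs <;> simp
  | cons ab J ih =>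
    rw [DP_cons, Polynomial.coe_mul]
    refine norm_coeff_mul _ _ (fun k => ?_) ih n
    rw [Polynomial.coeff_coe, coeff_sub, coeff_one, coeff_C_mul, coeff_X_pow]
    rw [sub_eq_add_neg]
    refine (Padic.nonarchimedean _ _).trans (max_le ?_ ?_)
    · split_ifs <;> simp
    · rw [norm_neg]
      split_ifs
      · simp [norm_zpow, hx]
      · simp

lemma taylor_coeff_sum {K : Type} [Field K] (Q : K[X]) (B : ℕ) (hQ : Q.natDegree ≤ B) (b : ℕ) :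
    (taylor 1 Q).coeff b = ∑ k ∈ Finset.range (B + 1), (k.choose b : K) * Q.coeff k := by
  rw [taylor_coeff, hasseDeriv_apply, eval_sum]
  rw [sum_over_range' _ _ (B + 1) (by omega)]
  · refine Finset.sum_congr rfl fun k _ => ?_
    rw [eval_monomial, one_pow, mul_one]
  · intro k; simp

lemma norm_taylor (Q : ℚ_[ℓ][X]) (hQ : ∀ n, ‖Q.coeff n‖ ≤ 1) (b : ℕ) :
    ‖(taylor 1 Q).coeff b‖ ≤ 1 := by
  rw [taylor_coeff_sum Q Q.natDegree le_rfl b]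
  refine norm_sum_le_one _ _ fun k _ => ?_
  rw [norm_mul]
  refine mul_le_one₀ ?_ (norm_nonneg _) (hQ k)
  exact_mod_cast Padic.norm_int_le_one ((k.choose b : ℕ) : ℤ)

end Norm

/-- Comparison of degrees from an identity of values at large integers. -/
lemma degree_compare {K : Type} [Field K] [CharZero K] [Algebra ℚ K] (J : List (ℤ × ℕ))
    (hJ : ∀ ab ∈ J, 1 ≤ ab.2) (Z : RatFunc ℚ) (γ : K[X]) (s₁ : ℕ)
    (h : ∀ s : ℕ, s₁ ≤ s → algebraMap ℚ K ((Del J).eval (s : ℚ) * Z.eval (RingHom.id ℚ) (s : ℚ)) =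
      γ.eval (-(s : K))) :
    (Z ≠ 0 → γ ≠ 0 ∧ Z.intDegree = (γ.natDegree : ℤ) - J.length) ∧ (γ ≠ 0 → Z ≠ 0) := by
  obtain ⟨hD0, hDdeg⟩ := Del_natDegree J hJ
  have hden : Z.denom ≠ 0 := Z.denom_ne_zero
  set P1 : K[X] := (Del J * Z.num).map (algebraMap ℚ K) with hP1
  set P2 : K[X] := γ.comp (-X) * Z.denom.map (algebraMap ℚ K) with hP2
  have hinf : {s : ℕ | s₁ ≤ s ∧ Z.denom.eval (s : ℚ) ≠ 0}.Infinite := by
    have h1 : {s : ℕ | Z.denom.eval (s : ℚ) = 0}.Finite := by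
      have h2 : {x : ℚ | Z.denom.IsRoot x}.Finite := Polynomial.finite_setOfPred_isRoot hden
      exact h2.preimage (fun a _ b _ hab => Nat.cast_injective hab)
    have h3 : {s : ℕ | s₁ ≤ s}.Infinite := Set.infinite_of_injective_forall_mem
      (f := fun n : ℕ => s₁ + n) (fun a b hab => by simpa using hab) (fun n => by simp)
    refine (h3.sdiff h1).mono ?_
    intro s hs
    exact ⟨hs.1, hs.2⟩
  have hPP : P1 = P2 := by
    refine Polynomial.eq_of_infinite_eval_eq _ _ ?_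
    refine (hinf.image (f := fun s : ℕ => (s : K)) (fun a _ b _ hab => Nat.cast_injective hab)).mono ?_
    rintro _ ⟨s, ⟨hs1, hs2⟩, rfl⟩
    have h4 := h s hs1
    have h5 : Z.eval (RingHom.id ℚ) (s : ℚ) = Z.num.eval (s : ℚ) / Z.denom.eval (s : ℚ) := by
      rw [RatFunc.eval]
      simp
    rw [h5, ← mul_div_assoc, map_div₀, div_eq_iff (by rwa [Ne, map_eq_zero])] at h4
    have h6 : ∀ P : ℚ[X], (P.map (algebraMap ℚ K)).eval (s : K) = algebraMap ℚ K (P.eval (s : ℚ)) := by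
      intro P
      rw [eval_map, ← map_natCast (algebraMap ℚ K) s, eval₂_at_apply]
    rw [Set.mem_ofPred_eq, hP1, hP2, h6, eval_mul, eval_mul, h6, h4, eval_comp, eval_neg, eval_X]
  have hcomp : (γ.comp (-X)).natDegree = γ.natDegree := by
    rw [natDegree_comp, natDegree_neg, natDegree_X, mul_one]
  constructor
  · intro hZ
    have hnum : Z.num ≠ 0 := RatFunc.num_ne_zero hZ
    have h1 : P1 ≠ 0 := by
      rw [hP1, Ne, Polynomial.map_eq_zero]; exact mul_ne_zero hD0 hnum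
    have h2 : P1.natDegree = J.length + Z.num.natDegree := by
      rw [hP1, natDegree_map, natDegree_mul hD0 hnum, hDdeg]
    rw [hPP] at h1 h2
    have h3 : γ.comp (-X) ≠ 0 := left_ne_zero_of_mul h1
    have h4 : γ ≠ 0 := by rintro rfl; simp at h3
    refine ⟨h4, ?_⟩
    have h5 : P2.natDegree = γ.natDegree + Z.denom.natDegree := by
      rw [hP2, natDegree_mul h3 (by rwa [Ne, Polynomial.map_eq_zero]), hcomp, natDegree_map]
    rw [RatFunc.intDegree]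
    omega
  · intro hγ hZ
    have h1 : P1 = 0 := by rw [hP1, hZ]; simp
    rw [hPP] at h1
    rcases mul_eq_zero.1 h1 with h2 | h2
    · apply hγ
      have h3 : (γ.comp (-X)).comp (-X) = γ := by
        rw [comp_assoc]; simp
      rw [← h3, h2]; simp
    · rw [Polynomial.map_eq_zero] at h2; exact hden h2

theorem upper_core {m : ℕ} (t : Fin m → Term) (χ : Fin m → ℤ) (r : ℤ) (Z : RatFunc ℚ) (s₀ : ℕ)
    (hreal : ∀ s : ℕ, s₀ ≤ s → ∃ z : Fin m → ℝ,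
      (∀ i, Tendsto (fun q : ℝ => (q - 1) ^ r * (t i).val q (q ^ (-(s : ℤ))))
        (𝓝[>] 1) (𝓝 (z i))) ∧
      ((Z.eval (RingHom.id ℚ) (s : ℚ) : ℚ) : ℝ) = ∑ i, (χ i : ℝ) * z i)
    (ℓ : ℕ) [Fact ℓ.Prime] (U : Filter ℕ) [U.NeBot] (q : ℕ → ℕ) (hq2 : ∀ N, 2 ≤ q N)
    (hq1 : Tendsto (fun N => (q N : ℚ_[ℓ])) U (𝓝 1)) (hqn : ∀ N, ‖(q N : ℚ_[ℓ])‖ = 1)
    (n : Fin m → ℕ → ℤ) (hn : ∀ i, Tendsto (fun N => (n i N : ℚ_[ℓ])) U (𝓝 (χ i : ℚ_[ℓ])))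
    (a : ℕ → ℕ → ℤ)
    (ha : ∀ N, PowerSeries.mk (fun k => (a N k : ℚ)) =
      ∑ i, PowerSeries.C ((n i N : ℤ) : ℚ) * (t i).series (q N : ℚ)) :
    ∃ (J : List (ℤ × ℕ)) (B : ℕ) (Q : ℕ → ℚ_[ℓ][X]) (γ : ℚ_[ℓ][X]), (∀ ab ∈ J, 1 ≤ ab.2) ∧
      (∀ N, (Q N).natDegree ≤ B) ∧
      (∀ N, ((Q N : ℚ_[ℓ][X]) : PowerSeries ℚ_[ℓ]) =
        ((DP J (q N : ℚ_[ℓ]) : ℚ_[ℓ][X]) : PowerSeries ℚ_[ℓ]) *
          PowerSeries.mk (fun k => (a N k : ℚ_[ℓ]))) ∧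
      (∀ b : ℕ, Tendsto (fun N => ((q N : ℚ_[ℓ]) - 1) ^ (r - (J.length : ℤ) + b) *
        (taylor 1 (Q N)).coeff b) U (𝓝 (γ.coeff b))) ∧
      (∀ b : ℕ, 0 < r - (J.length : ℤ) + b → γ.coeff b = 0) ∧
      (Z ≠ 0 → γ ≠ 0 ∧ Z.intDegree = (γ.natDegree : ℤ) - J.length) ∧ (γ ≠ 0 → Z ≠ 0) := by
  obtain ⟨J, L, s₁, hJ, hL, hlim⟩ := assemble t χ r Z s₀ hreal
  set Q : ℕ → ℚ_[ℓ][X] := fun N => ∑ i, C ((n i N : ℤ) : ℚ_[ℓ]) * QT (t i) (L i) (q N : ℚ_[ℓ])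
    with hQdef
  set B : ℕ := ∑ i, (((L i).map Prod.snd).sum + (t i).num.natDegree) with hB
  have hQdeg : ∀ N, (Q N).natDegree ≤ B := by
    intro N
    refine natDegree_sum_le_of_forall_le _ _ fun i _ => ?_
    refine (natDegree_C_mul_le _ _).trans ((QT_natDegree _ _ _).trans ?_)
    exact Finset.single_le_sum (f := fun i => ((L i).map Prod.snd).sum + (t i).num.natDegree)
      (fun _ _ => Nat.zero_le _) (Finset.mem_univ i)
  have hQser : ∀ N, ((Q N : ℚ_[ℓ][X]) : PowerSeries ℚ_[ℓ]) =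
        ((DP J (q N : ℚ_[ℓ]) : ℚ_[ℓ][X]) : PowerSeries ℚ_[ℓ]) *
          PowerSeries.mk (fun k => (a N k : ℚ_[ℓ])) := by
    intro N
    set Q0 : ℚ[X] := ∑ i, C ((n i N : ℤ) : ℚ) * QT (t i) (L i) (q N : ℚ) with hQ0
    have h1 : (Q0 : PowerSeries ℚ) = ((DP J (q N : ℚ) : ℚ[X]) : PowerSeries ℚ) *
        PowerSeries.mk (fun k => (a N k : ℚ)) := by
      rw [ha N, Finset.mul_sum, hQ0]
      have : ((∑ i, C ((n i N : ℤ) : ℚ) * QT (t i) (L i) (q N : ℚ) : ℚ[X]) : PowerSeries ℚ) =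
          ∑ i, ((C ((n i N : ℤ) : ℚ) * QT (t i) (L i) (q N : ℚ) : ℚ[X]) : PowerSeries ℚ) := by
        rw [← Polynomial.coeToPowerSeries.ringHom_apply, map_sum]
        rfl
      rw [this]
      refine Finset.sum_congr rfl fun i _ => ?_
      rw [Polynomial.coe_mul, Polynomial.coe_C, ← DP_mul_series (t i) J (L i) (hL i) (q N)]
      ring
    have h2 : Q0.map (algebraMap ℚ ℚ_[ℓ]) = Q N := by
      rw [hQ0, hQdef, Polynomial.map_sum]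
      refine Finset.sum_congr rfl fun i _ => ?_
      rw [Polynomial.map_mul, Polynomial.map_C, QT_map, map_intCast, map_natCast]
    have h3 := congrArg (PowerSeries.map (algebraMap ℚ ℚ_[ℓ])) h1
    rw [map_mul, ← Polynomial.polynomial_map_coe, h2, ← Polynomial.polynomial_map_coe, DP_map,
      map_natCast] at h3
    rw [h3]
    congr 1
  have hu0 : ∀ N, (q N : ℚ_[ℓ]) - 1 ≠ 0 := by
    intro N
    have := zpow_ne_one_K (K := ℚ_[ℓ]) (q N) (hq2 N) 1 one_ne_zero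
    rw [zpow_one] at this
    exact sub_ne_zero.2 this
  have hu : Tendsto (fun N => (q N : ℚ_[ℓ]) - 1) U (𝓝 0) := by
    simpa using hq1.sub_const 1
  have hG : ∀ s, s₁ ≤ s → Tendsto (fun N => ((q N : ℚ_[ℓ]) - 1) ^ (r - (J.length : ℤ)) *
      (Q N).eval ((1 + ((q N : ℚ_[ℓ]) - 1)) ^ (-(s : ℤ)))) U
      (𝓝 (algebraMap ℚ ℚ_[ℓ] ((Del J).eval (s : ℚ) * Z.eval (RingHom.id ℚ) (s : ℚ)))) := by
    intro s hs
    refine (hlim ℚ_[ℓ] U q hq2 hq1 n hn s hs).congr fun N => ?_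
    rw [add_sub_cancel]
  obtain ⟨γ, hγ1, hγ2, hγ3⟩ := vander U B s₁ (r - (J.length : ℤ)) (fun N => (q N : ℚ_[ℓ]) - 1) hu0 hu
    Q hQdeg _ hG
  have hcoef : ∀ N k, ‖(Q N).coeff k‖ ≤ 1 := by
    intro N k
    rw [← Polynomial.coeff_coe, hQser N]
    refine norm_coeff_mul _ _ (norm_coeff_DP J _ (hqn N)) (fun j => ?_) k
    rw [PowerSeries.coeff_mk]
    exact Padic.norm_int_le_one _
  refine ⟨J, B, Q, γ, hJ, hQdeg, hQser, hγ2, ?_, ?_⟩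
  · intro b hb
    obtain ⟨k, hk⟩ : ∃ k : ℕ, r - (J.length : ℤ) + b = (k : ℤ) + 1 :=
      ⟨(r - (J.length : ℤ) + b - 1).toNat, by omega⟩
    refine tendsto_nhds_unique (hγ2 b) ?_
    rw [hk]
    have h1 : Tendsto (fun N => ‖((q N : ℚ_[ℓ]) - 1) ^ (k + 1)‖) U (𝓝 0) := by
      have := (hu.pow (k + 1)).norm
      simpa using this
    refine squeeze_zero_norm (fun N => ?_) h1
    rw [norm_mul]
    have h2 := norm_taylor (Q N) (hcoef N) b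
    have h3 : ((q N : ℚ_[ℓ]) - 1) ^ ((k : ℤ) + 1) = ((q N : ℚ_[ℓ]) - 1) ^ (k + 1) := by
      rw [← zpow_natCast]; push_cast; rfl
    rw [h3]
    exact mul_le_of_le_one_right (norm_nonneg _) h2
  · exact degree_compare J hJ Z γ s₁ hγ3

theorem upper_bound_core {m : ℕ} (t : Fin m → Term) (χ : Fin m → ℤ) (r : ℤ) (Z : RatFunc ℚ) (s₀ : ℕ)
    (hreal : ∀ s : ℕ, s₀ ≤ s → ∃ z : Fin m → ℝ,
      (∀ i, Tendsto (fun q : ℝ => (q - 1) ^ r * (t i).val q (q ^ (-(s : ℤ))))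
        (𝓝[>] 1) (𝓝 (z i))) ∧
      ((Z.eval (RingHom.id ℚ) (s : ℚ) : ℚ) : ℝ) = ∑ i, (χ i : ℝ) * z i)
    (ℓ : ℕ) [Fact ℓ.Prime] (U : Filter ℕ) [U.NeBot] (q : ℕ → ℕ) (hq2 : ∀ N, 2 ≤ q N)
    (hq1 : Tendsto (fun N => (q N : ℚ_[ℓ])) U (𝓝 1)) (hqn : ∀ N, ‖(q N : ℚ_[ℓ])‖ = 1)
    (n : Fin m → ℕ → ℤ) (hn : ∀ i, Tendsto (fun N => (n i N : ℚ_[ℓ])) U (𝓝 (χ i : ℚ_[ℓ])))
    (a : ℕ → ℕ → ℤ)
    (ha : ∀ N, PowerSeries.mk (fun k => (a N k : ℚ)) =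
      ∑ i, PowerSeries.C ((n i N : ℤ) : ℚ) * (t i).series (q N : ℚ)) (hZ : Z ≠ 0) :
    Z.intDegree ≤ -r := by
  obtain ⟨J, B, Q, γ, hJ, hQdeg, hQser, hγ2, hγ3, hγ4, hγ5⟩ :=
    upper_core t χ r Z s₀ hreal ℓ U q hq2 hq1 hqn n hn a ha
  obtain ⟨h1, h2⟩ := hγ4 hZ
  rw [h2]
  by_contra hcon
  push Not at hcon
  have h3 := hγ3 γ.natDegree (by omega)
  rw [coeff_natDegree, leadingCoeff_eq_zero] at h3
  exact h1 h3

end GradedTop
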