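import Pool.Agent.Lib.GradedTop.Assemble

namespace GradedTop

open Filter Topology Polynomial

lemma slope_inv_pow {K : Type} [NontriviallyNormedField K] (U : Filter ℕ) (u : ℕ → K)
    (hu0 : ∀ N, u N ≠ 0) (hu : Tendsto u U (𝓝 0)) (s : ℕ) :
    Tendsto (fun N => ((1 + u N) ^ (-(s : ℤ)) - 1) / u N) U (𝓝 (-(s : K))) := by
  have h1 : Tendsto (fun N => 1 + u N) U (𝓝[≠] 1) := by
    rw [tendsto_nhdsWithin_iff]
    refine ⟨by simpa using hu.const_add 1, Eventually.of_forall fun N => ?_⟩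
    simpa using hu0 N
  have h2 := ((slope_zpow (K := K) (-(s : ℤ))).comp h1).neg
  have h3 : (-(-((-(s : ℤ) : ℤ) : K))) = -(s : K) := by push_cast; ring
  rw [h3] at h2
  refine h2.congr fun N => ?_
  simp only [Function.comp_apply, add_sub_cancel_left]
  rw [← neg_div]; congr 1; ring

lemma taylor_expand {K : Type} [Field K] (Q : K[X]) (B : ℕ) (hQ : Q.natDegree ≤ B) (y : K) :
    Q.eval y = ∑ b ∈ Finset.range (B + 1), (taylor 1 Q).coeff b * (y - 1) ^ b := by
  have h1 : Q.eval y = (taylor 1 Q).eval (y - 1) := by rw [taylor_eval, sub_add_cancel]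
  rw [h1, eval_eq_sum_range' (n := B + 1)]
  rw [natDegree_taylor]; omega

theorem vander {K : Type} [NontriviallyNormedField K] [CharZero K] (U : Filter ℕ)
    (B s₁ : ℕ) (ρ : ℤ) (u : ℕ → K) (hu0 : ∀ N, u N ≠ 0) (hu : Tendsto u U (𝓝 0)) (Q : ℕ → K[X])
    (hQ : ∀ N, (Q N).natDegree ≤ B) (G : ℕ → K)
    (hG : ∀ s, s₁ ≤ s → Tendsto (fun N => (u N) ^ ρ * (Q N).eval ((1 + u N) ^ (-(s : ℤ)))) U
      (𝓝 (G s))) [U.NeBot] :
    ∃ γ : K[X], γ.natDegree ≤ B ∧
      (∀ b : ℕ, Tendsto (fun N => (u N) ^ (ρ + b) * (taylor 1 (Q N)).coeff b) U (𝓝 (γ.coeff b))) ∧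
      ∀ s, s₁ ≤ s → G s = γ.eval (-(s : K)) := by
  set e : ℕ → ℕ → K := fun s N => ((1 + u N) ^ (-(s : ℤ)) - 1) / u N with he
  have hlim : ∀ s, Tendsto (e s) U (𝓝 (-(s : K))) := fun s => slope_inv_pow U u hu0 hu s
  set v : ℕ → Fin (B + 1) → K := fun N b => (u N) ^ (ρ + (b : ℕ)) * (taylor 1 (Q N)).coeff b with hv
  have hsum : ∀ s N : ℕ, (u N) ^ ρ * (Q N).eval ((1 + u N) ^ (-(s : ℤ))) =
      ∑ b : Fin (B + 1), e s N ^ (b : ℕ) * v N b := by
    intro s N
    rw [taylor_expand (Q N) B (hQ N), Finset.mul_sum, Finset.sum_range]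
    refine Finset.sum_congr rfl fun b _ => ?_
    simp only [he, hv]
    rw [zpow_add₀ (hu0 N), zpow_natCast, div_pow]
    field_simp [hu0 N]
  set A : ℕ → Matrix (Fin (B + 1)) (Fin (B + 1)) K := fun N =>
    Matrix.vandermonde (fun j : Fin (B + 1) => e (s₁ + j) N) with hA
  set A' : Matrix (Fin (B + 1)) (Fin (B + 1)) K :=
    Matrix.vandermonde (fun j : Fin (B + 1) => -(((s₁ + j : ℕ)) : K)) with hA'
  set g : ℕ → Fin (B + 1) → K := fun N j =>
    (u N) ^ ρ * (Q N).eval ((1 + u N) ^ (-((s₁ + j : ℕ) : ℤ))) with hg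
  have hAv : ∀ N, (A N).mulVec (v N) = g N := by
    intro N
    funext j
    simp only [hg]
    rw [hsum]
    rfl
  have hAlim : Tendsto A U (𝓝 A') := by
    refine tendsto_pi_nhds.2 fun i => tendsto_pi_nhds.2 fun j => ?_
    exact (hlim (s₁ + i)).pow j
  have hglim : Tendsto g U (𝓝 (fun j : Fin (B + 1) => G (s₁ + j))) := by
    rw [tendsto_pi_nhds]; intro j
    exact hG (s₁ + j) (by omega)
  have hdetlim : Tendsto (fun N => (A N).det) U (𝓝 A'.det) :=
    ((continuous_id.matrix_det).tendsto A').comp hAlim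
  have hadjlim : Tendsto (fun N => (A N).adjugate) U (𝓝 A'.adjugate) :=
    ((continuous_id.matrix_adjugate).tendsto A').comp hAlim
  have hdet' : A'.det ≠ 0 := by
    rw [hA', Matrix.det_vandermonde_ne_zero_iff]
    intro i j hij
    simp only [neg_inj, Nat.cast_inj, Nat.add_left_cancel_iff] at hij
    exact Fin.ext hij
  have hvlim : Tendsto (fun N => (A N).det⁻¹ • (A N).adjugate.mulVec (g N)) U
      (𝓝 (A'.det⁻¹ • A'.adjugate.mulVec (fun j : Fin (B + 1) => G (s₁ + j)))) := by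
    refine (hdetlim.inv₀ hdet').smul ?_
    refine tendsto_pi_nhds.2 fun i => ?_
    change Tendsto (fun N => ∑ j, (A N).adjugate i j * g N j) U
      (𝓝 (∑ j : Fin (B + 1), A'.adjugate i j * G (s₁ + j)))
    refine tendsto_finsetSum _ fun j _ => ?_
    refine Tendsto.mul ?_ ?_
    · exact ((tendsto_pi_nhds.1 (tendsto_pi_nhds.1 hadjlim i)) j)
    · exact (tendsto_pi_nhds.1 hglim j)
  have hvlim' : Tendsto v U
      (𝓝 (A'.det⁻¹ • A'.adjugate.mulVec (fun j : Fin (B + 1) => G (s₁ + j)))) := by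
    refine hvlim.congr' ?_
    filter_upwards [hdetlim.eventually_ne hdet'] with N hN
    rw [← hAv N, Matrix.mulVec_mulVec, Matrix.adjugate_mul, Matrix.smul_mulVec, Matrix.one_mulVec,
      smul_smul, inv_mul_cancel₀ hN, one_smul]
  set w : Fin (B + 1) → K := A'.det⁻¹ • A'.adjugate.mulVec (fun j : Fin (B + 1) => G (s₁ + j))
    with hw
  set γ : K[X] := ∑ b : Fin (B + 1), C (w b) * X ^ (b : ℕ) with hγ
  have hcoeff : ∀ b : Fin (B + 1), γ.coeff b = w b := by
    intro b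
    rw [hγ, finsetSum_coeff, Finset.sum_eq_single b]
    · simp
    · intro c _ hc
      rw [coeff_C_mul, coeff_X_pow, if_neg, mul_zero]
      exact fun h => hc (Fin.ext h.symm)
    · intro h; exact absurd (Finset.mem_univ _) h
  have hdeg : γ.natDegree ≤ B := by
    rw [hγ]
    refine natDegree_sum_le_of_forall_le _ _ fun b _ => ?_
    exact (natDegree_C_mul_X_pow_le _ _).trans (by omega)
  refine ⟨γ, hdeg, ?_, ?_⟩
  · intro b
    by_cases hb : b < B + 1
    · rw [hcoeff ⟨b, hb⟩]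
      exact tendsto_pi_nhds.1 hvlim' ⟨b, hb⟩
    · rw [coeff_eq_zero_of_natDegree_lt (by omega)]
      refine (tendsto_const_nhds (x := (0 : K))).congr fun N => ?_
      rw [coeff_eq_zero_of_natDegree_lt, mul_zero]
      rw [natDegree_taylor]; have := hQ N; omega
  · intro s hs
    refine tendsto_nhds_unique (hG s hs) ?_
    have h1 : γ.eval (-(s : K)) = ∑ b : Fin (B + 1), (-(s : K)) ^ (b : ℕ) * w b := by
      rw [hγ, eval_finsetSum]
      refine Finset.sum_congr rfl fun b _ => ?_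
      rw [eval_mul, eval_C, eval_pow, eval_X, mul_comm]
    rw [h1]
    refine Tendsto.congr (fun N => (hsum s N).symm) ?_
    refine tendsto_finsetSum _ fun b _ => ?_
    exact ((hlim s).pow b).mul (tendsto_pi_nhds.1 hvlim' b)

end GradedTop
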